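import Pool.Agent.H839R3.Defs

/-!
# The Collection principles
-/

namespace Pool.Agent.H839R3

open FirstOrder FirstOrder.Language
open Pool.Agent.Helper672.ZFA (L IsSet Mem)

universe u

/-- Models of `ZFCU`: models of `ZFCU_R` that satisfy the Collection schema for all formulas of the
language of set theory with urelements (with parameters). -/
structure ZFCU (M : Type u) [L.Structure M] : Prop extends ZFCUR M where
  collection : ∀ R : Set (M × M), (Set.univ : Set M).Definable₂ L R →
    ∀ w : M, IsSet w → (∀ x, Mem x w → ∃ y, (x, y) ∈ R) →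
      ∃ v, IsSet v ∧ ∀ x, Mem x w → ∃ y, Mem y v ∧ (x, y) ∈ R

/-- Collection in class form. -/
def ClassCollection (M C : Type u) [L.Structure M] (η : M → C → Prop) : Prop :=
  ∀ (R : C) (w : M), IsSet w → (∀ x, Mem x w → ∃ y, PairInClass η R x y) →
    ∃ v, IsSet v ∧ ∀ x, Mem x w → ∃ y, Mem y v ∧ PairInClass η R x y

end Pool.Agent.H839R3
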