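import Pool.Agent.H839R3.Cls

/-!
# Collection and a choice function imply that the urelements form a set or are plentiful
-/

namespace Pool.Agent.H839R3

open FirstOrder FirstOrder.Language
open Pool.Agent.Helper672.ZFA

universe u

section

variable {M : Type u} [L.Structure M] {G : M → M → Prop} {ι : Type}

theorem DG.or {p q : (ι → M) → Prop} (hp : DG G p) (hq : DG G q) :
    DG G (fun v => p v ∨ q v) := by
  have h := (hp.not.and hq.not).not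
  refine Eq.mp (congrArg (DG G) ?_) h
  funext v
  exact propext (by rw [not_and_or, not_not, not_not])

theorem DG.iff {p q : (ι → M) → Prop} (hp : DG G p) (hq : DG G q) :
    DG G (fun v => (p v ↔ q v)) := by
  have h := (hp.imp hq).and (hq.imp hp)
  refine Eq.mp (congrArg (DG G) ?_) h
  funext v
  exact propext iff_iff_implies_and_implies.symm

theorem DGF.var (i : ι) : DGF G (fun v : ι → M => v i) := DGF.ofDF (DF.var i)

theorem DGF.const (a : M) : DGF G (fun _ : ι → M => a) := DGF.ofDF (DF.const a)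

theorem DG.subst₃ {p : M → M → M → Prop}
    (hp : DG G (fun v : Fin 3 → M => p (v 0) (v 1) (v 2)))
    {f g h : (ι → M) → M} (hf : DGF G f) (hg : DGF G g) (hh : DGF G h) :
    DG G (fun v => p (f v) (g v) (h v)) := by
  have h : DG G (fun v : ι → M => ∃ x, x = f v ∧ ∃ y, y = g v ∧ ∃ z, z = h v ∧ p x y z) :=
    DG.ex (DG.and hf (DG.ex (DG.and hg.lift (DG.ex (DG.and hh.lift.lift
      (hp.reindex ![Sum.inl (Sum.inl (Sum.inr ())), Sum.inl (Sum.inr ()), Sum.inr ()]))))))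
  refine Eq.mp (congrArg (DG G) ?_) h
  funext v
  exact propext ⟨fun ⟨x, h1, y, h2, z, h3, h4⟩ => h1 ▸ h2 ▸ h3 ▸ h4,
    fun h => ⟨_, rfl, _, rfl, _, rfl, h⟩⟩

theorem DG.mem {f g : (ι → M) → M} (hf : DGF G f) (hg : DGF G g) :
    DG G (fun v => Mem (f v) (g v)) :=
  DG.subst₂ (p := fun x y => Mem x y) (DG.ofD (D.memf (DF.var _) (DF.var _))) hf hg

theorem DG.eq {f g : (ι → M) → M} (hf : DGF G f) (hg : DGF G g) :
    DG G (fun v => f v = g v) :=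
  DG.subst₂ (p := fun x y => x = y) (DG.ofD (D.eqf (DF.var _) (DF.var _))) hf hg

theorem DG.isSet {f : (ι → M) → M} (hf : DGF G f) : DG G (fun v => IsSet (f v)) :=
  DG.subst₁ (p := fun x => IsSet x) (DG.ofD (D.isSetf (DF.var _))) hf

theorem DG.sub {f g : (ι → M) → M} (hf : DGF G f) (hg : DGF G g) :
    DG G (fun v => MSub (f v) (g v)) :=
  DG.subst₂ (p := fun x y => MSub x y) (DG.ofD (D.msub (DF.var _) (DF.var _))) hf hg

theorem DG.ur {f : (ι → M) → M} (hf : DGF G f) : DG G (fun v => Ur (f v)) :=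
  DG.subst₁ (p := fun x => Ur x) (DG.ofD (by
    unfold Ur
    exact D.and (D.isSetf (DF.var _)) (D.all (D.imp (D.memf (DF.var _) (DF.var _))
      (D.not (D.isSetf (DF.var _))))))) hf

theorem DG.gen' {f g : (ι → M) → M} (hf : DGF G f) (hg : DGF G g) :
    DG G (fun v => G (f v) (g v)) := DG.subst₂ (p := G) DG.gen hf hg

variable [hI : IsModel M]

theorem DGF.op {f g : (ι → M) → M} (hf : DGF G f) (hg : DGF G g) :
    DGF G (fun v => op (f v) (g v)) := by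
  have h : DG G (fun v : Fin 3 → M => v 0 = Pool.Agent.Helper672.ZFA.op (v 1) (v 2)) :=
    DG.ofD (D.eqf (DF.var _) (DF.op (DF.var _) (DF.var _)))
  exact DG.subst₃ (p := fun x y z => x = Pool.Agent.Helper672.ZFA.op y z) h (DGF.var _) hf.lift
    hg.lift

end

/-- A model with a choice function, satisfying the schemas for the expanded language. -/
structure GM (M : Type u) [L.Structure M] [IsModel M] (G : M → M → Prop) : Prop where
  gmem : ∀ x y, G x y → Mem y x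
  gfun : ∀ x y y', G x y → G x y' → y = y'
  gtot : ∀ x y, IsSet x → Mem y x → ∃ z, G x z
  gsep : ∀ S : M → Prop, DG G (fun v : Fin 1 → M => S (v 0)) →
    ∀ a, ∃ b, IsSet b ∧ ∀ z, Mem z b ↔ Mem z a ∧ S z
  gcoll : ∀ R : M → M → Prop, DG G (fun v : Fin 2 → M => R (v 0) (v 1)) →
    ∀ a, (∀ x, Mem x a → ∃ y, R x y) → ∃ b, ∀ x, Mem x a → ∃ y, Mem y b ∧ R x y

section

variable {M : Type u} [L.Structure M] [hI : IsModel M] {G : M → M → Prop}

/-- `f` is an injection from `B` to `k`. -/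
def InjF (f B k : M) : Prop := IsSet f ∧ (∀ z, Mem z f → ∃ x y, Mem x B ∧ Mem y k ∧ z = op x y) ∧
  (∀ x, Mem x B → ∃ y, Mem (op x y) f) ∧ (∀ x y y', Mem (op x y) f → Mem (op x y') f → y = y') ∧
  ∀ x x' y, Mem (op x y) f → Mem (op x' y) f → x = x'

theorem D.injF {ι : Type} {f g h : (ι → M) → M} (hf : DF f) (hg : DF g) (hh : DF h) :
    D (fun v => InjF (f v) (g v) (h v)) := by
  unfold InjF
  exact D.and (D.isSetf hf) (D.and (D.all (D.imp (D.memf (DF.var _) hf.lift) (D.ex (D.ex (D.and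
    (D.memf (DF.var _) hg.lift.lift.lift) (D.and (D.memf (DF.var _) hh.lift.lift.lift)
    (D.eqf (DF.var _) (DF.op (DF.var _) (DF.var _))))))))) (D.and (D.all (D.imp
    (D.memf (DF.var _) hg.lift) (D.ex (D.memf (DF.op (DF.var _) (DF.var _)) hf.lift.lift))))
    (D.and (D.all (D.all (D.all (D.imp (D.memf (DF.op (DF.var _) (DF.var _)) hf.lift.lift.lift)
    (D.imp (D.memf (DF.op (DF.var _) (DF.var _)) hf.lift.lift.lift) (D.eqf (DF.var _)
    (DF.var _))))))) (D.all (D.all (D.all (D.imp (D.memf (DF.op (DF.var _) (DF.var _))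
    hf.lift.lift.lift) (D.imp (D.memf (DF.op (DF.var _) (DF.var _)) hf.lift.lift.lift) (D.eqf
    (DF.var _) (DF.var _)))))))))) 

theorem small_injF (B k : M) : Pool.Agent.Helper672.ZFA.Small {f : M | InjF f B k} := by
  have h1 := small_sep (S := {f | InjF f B k}) (D.injF (DF.var _) (DF.const _) (DF.const _))
    (small_power (small_prod B k).elt).elt
  refine ⟨h1.elt, h1.isSet, fun f => h1.mem.trans ⟨fun h => h.2, fun h => ⟨?_, h⟩⟩⟩
  refine (small_power _).mem.2 ⟨h.1, fun z hz => (small_prod _ _).mem.2 ?_⟩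
  exact h.2.1 z hz

variable (G)

/-- The value at `x` of the chosen injection from `B` to `k`. -/
def Wv (k B x y : M) : Prop := ∃ s, (IsSet s ∧ ∀ f, Mem f s ↔ InjF f B k) ∧
  ∃ f, G s f ∧ Mem (op x y) f

/-- The graph comparing the injections chosen for `Z` and for its subset `X`. -/
def IsG (k Z X g : M) : Prop := IsSet g ∧ ∀ q, Mem q g ↔ ∃ x y y', Mem x X ∧ Wv G k Z x y ∧
  Wv G k X x y' ∧ q = op y y'

/-- The code of `Z`. -/
def IsC (k Z c : M) : Prop := IsSet c ∧ ∀ g, Mem g c ↔ ∃ X, IsSet X ∧ MSub X Z ∧ IsG G k Z X g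

/-- The type of `Z` over `Y`. -/
def Tp (k Y Z p : M) : Prop := ∃ c g, IsC G k Z c ∧ IsG G k Z Y g ∧ p = op c g

/-- `p` is an unbounded type over `Y`. -/
def Un (k t Y p : M) : Prop := Mem p t ∧ ∀ W, Ur W → ∃ Z, Ur Z ∧ MSub W Z ∧ MSub Y Z ∧
  Tp G k Y Z p

/-- The chosen unbounded type. -/
def Pk (k t Y p : M) : Prop := ∃ s, (IsSet s ∧ ∀ q, Mem q s ↔ Un G k t Y q) ∧ G s p

variable {G} {ι : Type}

theorem DG.wv (k : M) {B x y : (ι → M) → M} (hB : DGF G B) (hx : DGF G x) (hy : DGF G y) :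
    DG G (fun v => Wv G k (B v) (x v) (y v)) := by
  have h : DG G (fun v : Fin 3 → M => Wv G k (v 0) (v 1) (v 2)) := by
    unfold Wv
    refine DG.ex (DG.and (DG.ofD (D.and (D.isSetf (DF.var _)) (D.all (D.iff
      (D.memf (DF.var _) (DF.var _)) (D.injF (DF.var _) (DF.var _) (DF.const _))))))
      (DG.ex (DG.and (DG.gen' (DGF.var _) (DGF.var _)) (DG.mem (DGF.op (DGF.var _) (DGF.var _))
      (DGF.var _)))))
  exact DG.subst₃ h hB hx hy

theorem DG.isG (k : M) {Z X g : (ι → M) → M} (hZ : DGF G Z) (hX : DGF G X) (hg : DGF G g) :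
    DG G (fun v => IsG G k (Z v) (X v) (g v)) := by
  have h : DG G (fun v : Fin 3 → M => IsG G k (v 0) (v 1) (v 2)) := by
    unfold IsG
    exact DG.and (DG.isSet (DGF.var _)) (DG.all (DG.iff (DG.mem (DGF.var _) (DGF.var _))
      (DG.ex (DG.ex (DG.ex (DG.and (DG.mem (DGF.var _) (DGF.var _)) (DG.and
        (DG.wv k (DGF.var _) (DGF.var _) (DGF.var _)) (DG.and
        (DG.wv k (DGF.var _) (DGF.var _) (DGF.var _))
        (DG.eq (DGF.var _) (DGF.op (DGF.var _) (DGF.var _)))))))))))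
  exact DG.subst₃ h hZ hX hg

theorem DG.isC (k : M) {Z c : (ι → M) → M} (hZ : DGF G Z) (hc : DGF G c) :
    DG G (fun v => IsC G k (Z v) (c v)) := by
  have h : DG G (fun v : Fin 2 → M => IsC G k (v 0) (v 1)) := by
    unfold IsC
    exact DG.and (DG.isSet (DGF.var _)) (DG.all (DG.iff (DG.mem (DGF.var _) (DGF.var _))
      (DG.ex (DG.and (DG.isSet (DGF.var _)) (DG.and (DG.sub (DGF.var _) (DGF.var _))
      (DG.isG k (DGF.var _) (DGF.var _) (DGF.var _)))))))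
  exact DG.subst₂ h hZ hc

theorem DG.tp (k : M) {Y Z p : (ι → M) → M} (hY : DGF G Y) (hZ : DGF G Z) (hp : DGF G p) :
    DG G (fun v => Tp G k (Y v) (Z v) (p v)) := by
  have h : DG G (fun v : Fin 3 → M => Tp G k (v 0) (v 1) (v 2)) := by
    unfold Tp
    exact DG.ex (DG.ex (DG.and (DG.isC k (DGF.var _) (DGF.var _)) (DG.and
      (DG.isG k (DGF.var _) (DGF.var _) (DGF.var _))
      (DG.eq (DGF.var _) (DGF.op (DGF.var _) (DGF.var _))))))
  exact DG.subst₃ h hY hZ hp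

theorem DG.un (k t : M) {Y p : (ι → M) → M} (hY : DGF G Y) (hp : DGF G p) :
    DG G (fun v => Un G k t (Y v) (p v)) := by
  have h : DG G (fun v : Fin 2 → M => Un G k t (v 0) (v 1)) := by
    unfold Un
    exact DG.and (DG.mem (DGF.var _) (DGF.const _)) (DG.all (DG.imp (DG.ur (DGF.var _))
      (DG.ex (DG.and (DG.ur (DGF.var _)) (DG.and (DG.sub (DGF.var _) (DGF.var _))
      (DG.and (DG.sub (DGF.var _) (DGF.var _))
      (DG.tp k (DGF.var _) (DGF.var _) (DGF.var _))))))))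
  exact DG.subst₂ h hY hp

theorem DG.pk (k t : M) {Y p : (ι → M) → M} (hY : DGF G Y) (hp : DGF G p) :
    DG G (fun v => Pk G k t (Y v) (p v)) := by
  have h : DG G (fun v : Fin 2 → M => Pk G k t (v 0) (v 1)) := by
    unfold Pk
    exact DG.ex (DG.and (DG.and (DG.isSet (DGF.var _)) (DG.all (DG.iff
      (DG.mem (DGF.var _) (DGF.var _)) (DG.un k t (DGF.var _) (DGF.var _)))))
      (DG.gen' (DGF.var _) (DGF.var _)))
  exact DG.subst₂ h hY hp

end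

section

variable {M : Type u} [L.Structure M] [hI : IsModel M] {G : M → M → Prop} (hG : GM M G)
  {k : M} (hk : ∀ B, Ur B → ∃ f, InjF f B k)

include hG hk in
theorem exists_w {B : M} (hB : Ur B) : ∃ f, InjF f B k ∧ ∀ x y, Wv G k B x y ↔ Mem (op x y) f := by
  have h1 := small_injF B k
  obtain ⟨f, hf⟩ := hk B hB
  obtain ⟨w, hw⟩ := hG.gtot h1.elt f h1.isSet (h1.mem.2 hf)
  refine ⟨w, h1.mem.1 (hG.gmem _ _ hw), fun x y => ⟨?_, fun h => ⟨h1.elt, ⟨h1.isSet,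
    fun _ => h1.mem⟩, w, hw, h⟩⟩⟩
  rintro ⟨s, ⟨h2, h3⟩, f', h4, h5⟩
  obtain rfl : s = h1.elt := h1.eq_elt h2 h3
  rwa [hG.gfun _ _ _ hw h4]

include hG hk in
theorem wv_tot {B x : M} (hB : Ur B) (hx : Mem x B) : ∃ y, Wv G k B x y ∧ Mem y k := by
  obtain ⟨f, ⟨h0, h1, h2, h3, h4⟩, h⟩ := exists_w hG hk hB
  obtain ⟨y, hy⟩ := h2 x hx
  obtain ⟨x', y', h5, h6, h7⟩ := h1 _ hy
  obtain ⟨rfl, rfl⟩ := op_inj h7
  exact ⟨y, (h x y).2 hy, h6⟩

include hG hk in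
theorem wv_dom {B x y : M} (hB : Ur B) (h : Wv G k B x y) : Mem x B ∧ Mem y k := by
  obtain ⟨f, ⟨h0, h1, h2, h3, h4⟩, h5⟩ := exists_w hG hk hB
  obtain ⟨x', y', h6, h7, h8⟩ := h1 _ ((h5 x y).1 h)
  obtain ⟨rfl, rfl⟩ := op_inj h8
  exact ⟨h6, h7⟩

include hG hk in
theorem wv_fun {B x y y' : M} (hB : Ur B) (h : Wv G k B x y) (h' : Wv G k B x y') : y = y' := by
  obtain ⟨f, ⟨h0, h1, h2, h3, h4⟩, h5⟩ := exists_w hG hk hB
  exact h3 x y y' ((h5 x y).1 h) ((h5 x y').1 h')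

include hG hk in
theorem wv_inj {B x x' y : M} (hB : Ur B) (h : Wv G k B x y) (h' : Wv G k B x' y) : x = x' := by
  obtain ⟨f, ⟨h0, h1, h2, h3, h4⟩, h5⟩ := exists_w hG hk hB
  exact h4 x x' y ((h5 x y).1 h) ((h5 x' y).1 h')

theorem Ur.sub {B X : M} (hB : Ur B) (hX : IsSet X) (h : MSub X B) : Ur X :=
  ⟨hX, fun u hu => hB.2 u (h u hu)⟩

include hG hk in
theorem exists_isG {Z X : M} (hZ : Ur Z) (hX : Ur X) :
    ∃ g, IsG G k Z X g ∧ Mem g (small_power (small_prod k k).elt).elt := by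
  obtain ⟨g, h1, h2⟩ := hG.gsep (fun q => ∃ x y y', Mem x X ∧ Wv G k Z x y ∧
    Wv G k X x y' ∧ q = op y y') (DG.ex (DG.ex (DG.ex (DG.and (DG.mem (DGF.var _) (DGF.const _))
      (DG.and (DG.wv k (DGF.const _) (DGF.var _) (DGF.var _)) (DG.and
      (DG.wv k (DGF.const _) (DGF.var _) (DGF.var _)) (DG.eq (DGF.var _)
      (DGF.op (DGF.var _) (DGF.var _)))))))))
    (small_prod k k).elt
  refine ⟨g, ⟨h1, fun q => (h2 q).trans ⟨fun h => h.2, fun h => ⟨?_, h⟩⟩⟩,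
    (small_power _).mem.2 ⟨h1, fun q hq => ((h2 q).1 hq).1⟩⟩
  obtain ⟨x, y, y', h3, h4, h5, h6⟩ := h
  exact (small_prod _ _).mem.2 ⟨y, y', (wv_dom hG hk hZ h4).2, (wv_dom hG hk hX h5).2, h6⟩

theorem IsG.unique {Z X g g' : M} (h : IsG G k Z X g) (h' : IsG G k Z X g') : g = g' :=
  hI.ext _ _ h.1 h'.1 fun z => (h.2 z).trans (h'.2 z).symm

theorem IsC.unique {Z c c' : M} (h : IsC G k Z c) (h' : IsC G k Z c') : c = c' :=
  hI.ext _ _ h.1 h'.1 fun z => (h.2 z).trans (h'.2 z).symm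

include hG hk in
theorem exists_isC {Z : M} (hZ : Ur Z) :
    ∃ c, IsC G k Z c ∧ Mem c (small_power (small_power (small_prod k k).elt).elt).elt := by
  obtain ⟨c, h1, h2⟩ := hG.gsep (fun g => ∃ X, IsSet X ∧ MSub X Z ∧ IsG G k Z X g)
    (DG.ex (DG.and (DG.isSet (DGF.var _)) (DG.and (DG.sub (DGF.var _) (DGF.const _))
      (DG.isG k (DGF.const _) (DGF.var _) (DGF.var _)))))
    (small_power (small_prod k k).elt).elt
  refine ⟨c, ⟨h1, fun g => (h2 g).trans ⟨fun h => h.2, fun h => ⟨?_, h⟩⟩⟩,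
    (small_power _).mem.2 ⟨h1, fun q hq => ((h2 q).1 hq).1⟩⟩
  obtain ⟨X, h3, h4, h5⟩ := h
  obtain ⟨g', h6, h7⟩ := exists_isG hG hk hZ (hZ.sub h3 h4)
  rwa [h5.unique h6]

/-- The set of all types. -/
noncomputable def types (k : M) : M :=
  (small_prod (small_power (small_power (small_prod k k).elt).elt).elt
    (small_power (small_prod k k).elt).elt).elt

include hG hk in
theorem exists_tp {Y Z : M} (hY : Ur Y) (hZ : Ur Z) : ∃ p, Tp G k Y Z p ∧ Mem p (types k) := by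
  obtain ⟨c, h1, h2⟩ := exists_isC hG hk hZ
  obtain ⟨g, h3, h4⟩ := exists_isG hG hk hZ hY
  exact ⟨op c g, ⟨c, g, h1, h3, rfl⟩, (small_prod _ _).mem.2 ⟨c, g, h2, h4, rfl⟩⟩

/-- The union of the sets of urelements in a set. -/
theorem exists_ur_union (v : M) : ∃ B : M, Ur B ∧ ∀ W, Mem W v → Ur W → MSub W B := by
  have h1 := small_sep (S := {W | Ur W}) (by
    unfold Ur
    exact D.and (D.isSetf (DF.var _)) (D.all (D.imp (D.memf (DF.var _) (DF.var _))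
      (D.not (D.isSetf (DF.var _)))))) v
  obtain ⟨b, hb0, hb⟩ := hI.union h1.elt
  refine ⟨b, ⟨hb0, fun u hu => ?_⟩, fun W h2 h3 z hz => (hb z).2 ⟨W, h1.mem.2 ⟨h2, h3⟩, hz⟩⟩
  obtain ⟨W, h2, h3⟩ := (hb u).1 hu
  exact (h1.mem.1 h2).2.2 u h3

include hG hk in
theorem exists_un {Y : M} (hY : Ur Y) : ∃ p, Un G k (types k) Y p := by
  by_contra hcon
  have h1 : ∀ p, Mem p (types k) → ∃ W, Ur W ∧ ∀ Z, Ur Z → MSub W Z → MSub Y Z →
      ¬ Tp G k Y Z p := by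
    intro p hp
    by_contra h2
    refine hcon ⟨p, hp, fun W hW => ?_⟩
    by_contra h3
    exact h2 ⟨W, hW, fun Z h4 h5 h6 h7 => h3 ⟨Z, h4, h5, h6, h7⟩⟩
  obtain ⟨v, hv⟩ := hG.gcoll (fun p W => Ur W ∧ ∀ Z, Ur Z → MSub W Z → MSub Y Z →
      ¬ Tp G k Y Z p) (DG.and (DG.ur (DGF.var _)) (DG.all (DG.imp (DG.ur (DGF.var _))
      (DG.imp (DG.sub (DGF.var _) (DGF.var _)) (DG.imp (DG.sub (DGF.const _) (DGF.var _))
      (DG.not (DG.tp k (DGF.const _) (DGF.var _) (DGF.var _)))))))) (types k) h1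
  obtain ⟨B, hB, hB'⟩ := exists_ur_union v
  have h2 := Pool.Agent.Helper672.ZFA.small_union B Y
  have h3 : Ur h2.elt := ⟨h2.isSet, fun u hu => (h2.mem.1 hu).elim (hB.2 u) (hY.2 u)⟩
  obtain ⟨p, h4, h5⟩ := exists_tp hG hk hY h3
  obtain ⟨W, h6, h7, h8⟩ := hv p h5
  exact h8 h2.elt h3 (fun z hz => h2.mem.2 (Or.inl (hB' W h6 h7 z hz)))
    (fun z hz => h2.mem.2 (Or.inr hz)) h4

include hG hk in
theorem exists_pk {Y : M} (hY : Ur Y) : ∃ p, Pk G k (types k) Y p := by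
  obtain ⟨p, hp⟩ := exists_un hG hk hY
  obtain ⟨s, h1, h2⟩ := hG.gsep (fun p => Un G k (types k) Y p)
    (DG.un k (types k) (DGF.const _) (DGF.var _)) (types k)
  have h3 : ∀ q, Mem q s ↔ Un G k (types k) Y q :=
    fun q => (h2 q).trans ⟨fun h => h.2, fun h => ⟨h.1, h⟩⟩
  obtain ⟨z, hz⟩ := hG.gtot s p h1 ((h3 p).2 hp)
  exact ⟨z, s, ⟨h1, h3⟩, hz⟩

include hG in
theorem Pk.un {Y p : M} (h : Pk G k (types k) Y p) : Un G k (types k) Y p := by
  obtain ⟨s, ⟨-, h1⟩, h2⟩ := h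
  exact (h1 p).1 (hG.gmem _ _ h2)

include hG hk in
/-- Two sets with the same chosen type. -/
theorem exists_same (hA : ¬ ∃ a : M, ∀ u, ¬ IsSet u → Mem u a) : ∃ Y Z p u : M, Ur Y ∧ Ur Z ∧
    MSub Y Z ∧ Mem u Z ∧ ¬ Mem u Y ∧ Un G k (types k) Y p ∧ Un G k (types k) Z p := by
  obtain ⟨v, hv⟩ := hG.gcoll (fun p Y => (Ur Y ∧ Pk G k (types k) Y p) ∨
      ¬ ∃ Y, Ur Y ∧ Pk G k (types k) Y p) (DG.or (DG.and (DG.ur (DGF.var _))
      (DG.pk k (types k) (DGF.var _) (DGF.var _))) (DG.not (DG.ex (DG.and (DG.ur (DGF.var _))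
      (DG.pk k (types k) (DGF.var _) (DGF.var _)))))) (types k) fun p _ => by
      by_cases h : ∃ Y, Ur Y ∧ Pk G k (types k) Y p
      · obtain ⟨Y, hY⟩ := h
        exact ⟨Y, Or.inl hY⟩
      · exact ⟨p, Or.inr h⟩
  obtain ⟨B, hB, hB'⟩ := exists_ur_union v
  have h1 : ∃ u, ¬ IsSet u ∧ ¬ Mem u B := by
    by_contra h
    refine hA ⟨B, fun u hu => ?_⟩
    by_contra h'
    exact h ⟨u, hu, h'⟩
  obtain ⟨u, hu, hu'⟩ := h1
  have h2 := Pool.Agent.Helper672.ZFA.small_union B (up u u)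
  have h3 : Ur h2.elt := ⟨h2.isSet, fun z hz => by
    rcases h2.mem.1 hz with h | h
    · exact hB.2 z h
    · rcases mem_up.1 h with rfl | rfl <;> exact hu⟩
  obtain ⟨p, hp⟩ := exists_pk hG hk h3
  obtain ⟨Y, h4, h5⟩ := hv p (hp.un hG).1
  rcases h5 with ⟨h5, h6⟩ | h5
  · refine ⟨Y, h2.elt, p, u, h5, h3, fun z hz => h2.mem.2 (Or.inl (hB' Y h4 h5 z hz)),
      h2.mem.2 (Or.inr (mem_up.2 (Or.inl rfl))), fun h => hu' (hB' Y h4 h5 u h), h6.un hG,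
      hp.un hG⟩
  · exact absurd ⟨_, h3, hp⟩ h5

include hG hk in
/-- The contradiction. -/
theorem no_same {Y Z1 Z2 Z' p u : M} (hY : Ur Y) (hZ1 : Ur Z1) (hZ2 : Ur Z2) (hZ' : Ur Z')
    (hYZ1 : MSub Y Z1) (h12 : MSub Z1 Z2) (h2 : MSub Z2 Z') (hu : Mem u Z1) (hu' : ¬ Mem u Y)
    (ht : Tp G k Z1 Z2 p) (ht' : Tp G k Y Z' p) : False := by
  obtain ⟨c, g, hc, hg, rfl⟩ := ht
  obtain ⟨c', g', hc', hg', h3⟩ := ht'
  obtain ⟨rfl, rfl⟩ := op_inj h3
  -- the isomorphism moves `Z1` into `Y`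
  have s1 : ∀ x y, Mem x Z1 → Wv G k Z2 x y → ∃ x', Mem x' Y ∧ Wv G k Z' x' y := by
    intro x y hx hxy
    obtain ⟨y', h4, -⟩ := wv_tot hG hk hZ1 hx
    obtain ⟨x', a, b, h5, h6, h7, h8⟩ := (hg'.2 _).1 ((hg.2 _).2 ⟨x, y, y', hx, hxy, h4, rfl⟩)
    obtain ⟨rfl, rfl⟩ := op_inj h8
    exact ⟨x', h5, h6⟩
  -- it is onto `Z'`
  have s2 : ∀ x' y, Wv G k Z' x' y → ∃ x, Mem x Z2 ∧ Wv G k Z2 x y := by
    intro x' y h4
    obtain ⟨g0, h5, -⟩ := exists_isG hG hk hZ' hZ'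
    obtain ⟨X, h6, h7, h8⟩ := (hc.2 _).1 ((hc'.2 g0).2 ⟨Z', hZ'.1, fun _ => id, h5⟩)
    obtain ⟨x, a, b, h9, h10, h11, h12⟩ := (h8.2 _).1 ((h5.2 _).2 ⟨x', y, y,
      (wv_dom hG hk hZ' h4).1, h4, h4, rfl⟩)
    obtain ⟨rfl, rfl⟩ := op_inj h12
    exact ⟨x, h7 x h9, h10⟩
  -- the invariant set
  obtain ⟨X, hX0, hX⟩ := hG.gsep (fun x => ∀ S, IsSet S → MSub Z1 S →
      (∀ a b y, Mem a Z2 → Wv G k Z2 a y → Wv G k Z' b y → Mem b S → Mem a S) → Mem x S)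
    (DG.all (DG.imp (DG.isSet (DGF.var _)) (DG.imp (DG.sub (DGF.const _) (DGF.var _)) (DG.imp
      (DG.all (DG.all (DG.all (DG.imp (DG.mem (DGF.var _) (DGF.const _)) (DG.imp
      (DG.wv k (DGF.const _) (DGF.var _) (DGF.var _)) (DG.imp
      (DG.wv k (DGF.const _) (DGF.var _) (DGF.var _)) (DG.imp (DG.mem (DGF.var _) (DGF.var _))
      (DG.mem (DGF.var _) (DGF.var _)))))))))
      (DG.mem (DGF.var _) (DGF.var _)))))) Z2
  have hXZ : MSub X Z2 := fun z hz => ((hX z).1 hz).1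
  have hZX : MSub Z1 X := fun z hz => (hX z).2 ⟨h12 z hz, fun S _ h _ => h z hz⟩
  have hXcl : ∀ a b y, Mem a Z2 → Wv G k Z2 a y → Wv G k Z' b y → Mem b X → Mem a X := by
    intro a b y h4 h5 h6 h7
    exact (hX a).2 ⟨h4, fun S h8 h9 h10 => h10 a b y h4 h5 h6 (((hX b).1 h7).2 S h8 h9 h10)⟩
  have hXu : Ur X := hZ2.sub hX0 hXZ
  have hXf : ∀ a b y, Mem a X → Wv G k Z2 a y → Wv G k Z' b y → Mem b X := by
    obtain ⟨S, h4, h5⟩ := hG.gsep (fun a => ∀ b y, Wv G k Z2 a y → Wv G k Z' b y → Mem b X)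
      (DG.all (DG.all (DG.imp (DG.wv k (DGF.const _) (DGF.var _) (DGF.var _)) (DG.imp
        (DG.wv k (DGF.const _) (DGF.var _) (DGF.var _)) (DG.mem (DGF.var _) (DGF.const _))))))
        X
    intro a b y h6 h7 h8
    refine ((h5 a).1 (((hX a).1 h6).2 S h4 (fun z hz => ?_) ?_)).2 b y h7 h8
    · refine (h5 z).2 ⟨hZX z hz, fun b y h9 h10 => ?_⟩
      obtain ⟨x', h11, h12⟩ := s1 z y hz h9
      rw [wv_inj hG hk hZ' h10 h12]
      exact hZX _ (hYZ1 _ h11)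
    · intro a b y h9 h10 h11 h12
      have h13 := ((h5 b).1 h12).1
      refine (h5 a).2 ⟨hXcl a b y h9 h10 h11 h13, fun b' y' h14 h15 => ?_⟩
      obtain rfl := wv_fun hG hk hZ2 h10 h14
      rwa [wv_inj hG hk hZ' h15 h11]
  obtain ⟨gX, h4, -⟩ := exists_isG hG hk hZ2 hXu
  obtain ⟨X', h5, h6, h7⟩ := (hc'.2 gX).1 ((hc.2 gX).2 ⟨X, hX0, hXZ, h4⟩)
  have hX'u : Ur X' := hZ'.sub h5 h6
  have hXX' : X' = X := by
    refine hI.ext _ _ h5 hX0 fun z => ⟨fun hz => ?_, fun hz => ?_⟩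
    · obtain ⟨y, h8, -⟩ := wv_tot hG hk hZ' (h6 z hz)
      obtain ⟨y', h9, -⟩ := wv_tot hG hk hX'u hz
      obtain ⟨x, a, b, h10, h11, h12, h13⟩ := (h4.2 _).1 ((h7.2 _).2 ⟨z, y, y', hz, h8, h9, rfl⟩)
      obtain ⟨rfl, rfl⟩ := op_inj h13
      exact hXf x z y h10 h11 h8
    · -- `z` is the image of some `x` in `X`
      obtain ⟨y, h8, -⟩ := wv_tot hG hk hZ' (h2 z (hXZ z hz))
      obtain ⟨x, h9, h10⟩ := s2 z y h8
      have h11 : Mem x X := hXcl x z y h9 h10 h8 hz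
      obtain ⟨y', h12, -⟩ := wv_tot hG hk hXu h11
      obtain ⟨x', a, b, h13, h14, h15, h16⟩ := (h7.2 _).1 ((h4.2 _).2 ⟨x, y, y', h11, h10, h12,
        rfl⟩)
      obtain ⟨rfl, rfl⟩ := op_inj h16
      rwa [wv_inj hG hk hZ' h8 h14]
  subst hXX'
  have huX : Mem u X' := hZX u hu
  obtain ⟨y, h8, -⟩ := wv_tot hG hk hZ2 (hXZ u huX)
  obtain ⟨y', h9, -⟩ := wv_tot hG hk hXu huX
  obtain ⟨x', a, b, h10, h11, h12, h13⟩ := (h7.2 _).1 ((h4.2 _).2 ⟨u, y, y', huX, h8, h9, rfl⟩)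
  obtain ⟨rfl, rfl⟩ := op_inj h13
  obtain rfl := wv_inj hG hk hXu h9 h12
  obtain ⟨x'', h14, h15⟩ := s1 u y hu h8
  rw [wv_inj hG hk hZ' h11 h15] at hu'
  exact hu' h14

end

/-- With Collection and a choice function, the urelements form a set or there is no bound on the
cardinalities of the sets of urelements. -/
theorem GM.plenitude {M : Type u} [L.Structure M] [hI : IsModel M] {G : M → M → Prop}
    (hG : GM M G) : (∃ a : M, ∀ u, ¬ IsSet u → Mem u a) ∨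
      ∀ k : M, ∃ B, Ur B ∧ ¬ ∃ f, InjF f B k := by
  by_contra hcon
  push Not at hcon
  obtain ⟨hA, k, hk⟩ := hcon
  have hA' : ¬ ∃ a : M, ∀ u, ¬ IsSet u → Mem u a := by
    rintro ⟨a, ha⟩
    obtain ⟨u, h1, h2⟩ := hA a
    exact h2 (ha u h1)
  obtain ⟨Y, Z1, p, u, h1, h2, h3, h4, h5, h6, h7⟩ := exists_same hG hk hA'
  obtain ⟨Z2, h8, h9, h10, h11⟩ := h7.2 Z1 h2
  obtain ⟨Z', h12, h13, h14, h15⟩ := h6.2 Z2 h8
  exact no_same hG hk h1 h2 h8 h12 h3 h9 h13 h4 h5 h11 h15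

end Pool.Agent.H839R3
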