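import Pool.Agent.H839R3.Kern
import Pool.Agent.H839R3.Defs2
import Pool.Agent.H839R3.Plen

/-!
# The model of sets with countable kernel satisfies ZFCU
-/

namespace Pool.Agent.H839R3.Kern

open FirstOrder FirstOrder.Language
open Pool.Agent.Helper672.ZFA

universe u

theorem exists_r (x : N.{u}) : ∃ r : N.{u}, ∀ a b, PairIn r a b ↔
    (Mem a x ∧ Mem b x ∧ WellOrderingRel a b) := by
  obtain ⟨r, -, hr⟩ := strongSep (small_prod x x).elt
    (fun z => ∃ a b, z = op a b ∧ WellOrderingRel a b)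
  refine ⟨r, fun a b => ?_⟩
  rw [pairIn_iff, hr]
  constructor
  · rintro ⟨h1, a', b', h2, h3⟩
    obtain ⟨rfl, rfl⟩ := op_inj h2
    obtain ⟨a'', b'', h4, h5, h6⟩ := (small_prod x x).mem.1 h1
    obtain ⟨rfl, rfl⟩ := op_inj h6
    exact ⟨h4, h5, h3⟩
  · rintro ⟨h1, h2, h3⟩
    exact ⟨(small_prod x x).mem.2 ⟨a, b, h1, h2, rfl⟩, a, b, rfl, h3⟩

theorem baseAxioms : BaseAxioms N.{u} where
  atoms := isModel.atoms
  ext := isModel.ext
  foundation x hx := by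
    obtain ⟨y, hy⟩ := hx
    obtain ⟨z, hz, hmin⟩ := (InvImage.wf (fun y : N.{u} => y.val.rank)
      (wellFounded_lt (α := Ordinal.{u}))).has_min {y | Mem y x} ⟨y, hy⟩
    exact ⟨z, hz, fun w hw hwz => hmin w hw (mem_rank hwz)⟩
  pairing := isModel.pairing
  union := fun x _ => isModel.union x
  power := fun x _ => isModel.power x
  infinity := isModel.infinity
  choice x _ := by
    obtain ⟨r, hr⟩ := exists_r x
    have hwo : IsWellOrder N.{u} WellOrderingRel := WellOrderingRel.isWellOrder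
    refine ⟨r, ?_, ?_, ?_, ?_⟩
    · intro a ha h
      exact irrefl_of WellOrderingRel a ((hr a a).1 h).2.2
    · intro a b c ha hb hc h h'
      exact (hr a c).2 ⟨ha, hc, trans_of WellOrderingRel ((hr a b).1 h).2.2 ((hr b c).1 h').2.2⟩
    · intro a b ha hb
      rcases trichotomous_of WellOrderingRel a b with h | h | h
      · exact Or.inl ((hr a b).2 ⟨ha, hb, h⟩)
      · exact Or.inr (Or.inl h)
      · exact Or.inr (Or.inr ((hr b a).2 ⟨hb, ha, h⟩))
    · rintro s hs ⟨a, ha⟩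
      obtain ⟨z, hz, hmin⟩ := hwo.wf.has_min {y | Mem y s} ⟨a, ha⟩
      exact ⟨z, hz, fun b hb h => hmin b hb ((hr b z).1 h).2.2⟩

/-- Definable relations are invariant under the automorphisms that fix finitely many parameters. -/
theorem exists_support (R : Set (N.{u} × N.{u})) (hR : (Set.univ : Set N.{u}).Definable₂ L R) :
    ∃ E : Set ZFSet.{u}, E.Countable ∧ ∀ π : Equiv.Perm ZFSet.{u}, (∀ z ∈ E, π z = z) →
      ∀ x y, (x, y) ∈ R → (aut π x, aut π y) ∈ R := by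
  obtain ⟨A, -, hA⟩ := Set.definable_iff_finitely_definable.1 hR
  obtain ⟨φ, hφ⟩ := Set.definable_iff_exists_formula_sum.1 hA
  choose B hB hB' using fun x : N.{u} => x.prop
  refine ⟨⋃ a ∈ A, B a, A.countable_toSet.biUnion fun a _ => hB a, fun π hπ x y h => ?_⟩
  have h1 : (![x, y] : Fin 2 → N.{u}) ∈ {v : Fin 2 → N.{u} | (v 0, v 1) ∈ R} := h
  rw [hφ] at h1
  have h2 : (![aut π x, aut π y] : Fin 2 → N.{u}) ∈ {v : Fin 2 → N.{u} | (v 0, v 1) ∈ R} := by
    rw [hφ]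
    have h3 := (StrongHomClass.realize_formula (aut π) φ).2 h1
    refine Eq.mp (congrArg φ.Realize ?_) h3
    funext i
    rcases i with i | i
    · refine aut_fix (hB' i.1) fun z hz => hπ z ?_
      exact Set.mem_biUnion i.2 hz
    · fin_cases i <;> rfl
  exact h2

theorem collection (R : Set (N.{u} × N.{u})) (hR : (Set.univ : Set N.{u}).Definable₂ L R)
    (w : N.{u}) (h : ∀ x, Mem x w → ∃ y, (x, y) ∈ R) :
    ∃ v, IsSet v ∧ ∀ x, Mem x w → ∃ y, Mem y v ∧ (x, y) ∈ R := by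
  obtain ⟨E₁, hE₁, hinv⟩ := exists_support R hR
  obtain ⟨E₂, hE₂, hw⟩ := w.prop
  have hE : (E₁ ∪ E₂).Countable := hE₁.union hE₂
  obtain ⟨c, hc, hcE⟩ := exists_nat hE
  have h1 : ∀ x, ∃ y : N.{u}, Mem x w → (x, y) ∈ R ∧ Ov ((E₁ ∪ E₂) ∪ Set.range c) y.val := by
    intro x
    by_cases hx : Mem x w
    · obtain ⟨y, hy⟩ := h x hx
      obtain ⟨Q, hQ, hQ'⟩ := y.prop
      obtain ⟨π, h2, h3⟩ := exists_move hE hQ c hc hcE
      refine ⟨aut π y, fun _ => ⟨?_, hQ'.act π fun z hz => ?_⟩⟩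
      · have h4 := hinv π (fun z hz => h2 z (Or.inl hz)) x y hy
        rwa [aut_fix (ov_mem hw hx) fun z hz => h2 z (Or.inr hz)] at h4
      · rcases h3 z hz with h4 | h4
        · rw [h2 z h4]
          exact Or.inl h4
        · exact Or.inr h4
    · exact ⟨x, fun h => absurd h hx⟩
  choose f hf using h1
  obtain ⟨s, hs⟩ := exists_bound w
  classical
  obtain ⟨v, h2, h3, -⟩ := comp (fun z => ∃ x, Mem x w ∧ z = f x)
    (ZFSet.range (fun x : {x // x ∈ s} =>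
      if h : ∃ B : Set ZFSet.{u}, B.Countable ∧ Ov B x.1 then (f ⟨x.1, h⟩).val else ∅))
    (fun z ⟨x, hx, hz⟩ => by
      refine ZFSet.mem_range.2 ⟨⟨x.val, hs x hx⟩, ?_⟩
      rw [dif_pos x.prop, hz])
    ((E₁ ∪ E₂) ∪ Set.range c) (hE.union (Set.countable_range c)) (fun z ⟨x, hx, hz⟩ => by
      rw [hz]
      exact (hf x hx).2)
  exact ⟨v, h2, fun x hx => ⟨f x, (h3 _).2 ⟨x, hx, rfl⟩, (hf x hx).1⟩⟩

theorem zfcu : ZFCU N.{u} where
  toBaseAxioms := baseAxioms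
  separation S _ x _ := strongSep x fun z => z ∈ S
  replacement F hF a _ h := by
    obtain ⟨v, -, h1⟩ := collection F hF a fun x hx => by
      obtain ⟨y, hy, -⟩ := h x hx
      exact ⟨y, hy⟩
    obtain ⟨b, h2, h3⟩ := strongSep v fun y => ∃ x, Mem x a ∧ (x, y) ∈ F
    refine ⟨b, h2, fun y => (h3 y).trans ⟨fun h => h.2, fun h' => ⟨?_, h'⟩⟩⟩
    obtain ⟨x, hx, hxy⟩ := h'
    obtain ⟨y', h4, h5⟩ := h1 x hx
    rwa [(h x hx).unique hxy h5]
  collection R hR w _ h := collection R hR w h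

/-- The urelements. -/
noncomputable def atN (z : ZFSet.{u}) : N.{u} :=
  ⟨atm z, {z}, Set.countable_singleton z, Ov.atom z rfl⟩

theorem not_isSet_atN (z : ZFSet.{u}) : ¬ IsSet (atN z) := by
  rw [isSet_iff]
  rintro ⟨s, hs⟩
  exact st_ne_atm hs.symm

theorem not_set : ¬ ∃ a : N.{u}, ∀ u, ¬ IsSet u → Mem u a := by
  rintro ⟨a, ha⟩
  obtain ⟨B, hB, hB'⟩ := a.prop
  apply not_countable_univ.{u}
  refine hB.mono fun z _ => ?_
  have h1 : Ov B (atN z).val := ov_mem hB' (ha _ (not_isSet_atN z))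
  exact h1.of_atm

/-- The natural numbers of the model. -/
noncomputable def natN (n : ℕ) : N.{u} := ⟨st (nat n), ∅, Set.countable_empty,
  Ov.set _ (ov_nat n)⟩

theorem nat_mem {m n : ℕ} (h : m < n) : st (nat.{u} m) ∈ nat.{u} n := by
  induction n with
  | zero => exact absurd h (Nat.not_lt_zero m)
  | succ n ih =>
    change st (nat.{u} m) ∈ insert (st (nat n)) (nat n)
    rw [ZFSet.mem_insert_iff]
    rcases Nat.lt_succ_iff_lt_or_eq.1 h with h1 | rfl
    · exact Or.inr (ih h1)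
    · exact Or.inl rfl

theorem natN_inj {m n : ℕ} (h : natN.{u} m = natN n) : m = n := by
  have h1 : nat.{u} m = nat n := st_inj (congrArg N.val h)
  rcases lt_trichotomy m n with h2 | h2 | h2
  · have h3 := nat_mem.{u} h2
    rw [← h1] at h3
    exact absurd (rank_lt_st h3) (lt_irrefl _)
  · exact h2
  · have h3 := nat_mem.{u} h2
    rw [h1] at h3
    exact absurd (rank_lt_st h3) (lt_irrefl _)

theorem bounded : ∃ k : N.{u}, ∀ B, Ur B → ∃ f, InjF f B k := by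
  obtain ⟨k, h1, h2, -⟩ := comp (fun z => ∃ n, z = natN.{u} n)
      (ZFSet.range (fun n : ULift.{u} ℕ => st (nat.{u} n.down))) (fun z ⟨n, hn⟩ =>
        ZFSet.mem_range.2 ⟨⟨n⟩, by rw [hn]; rfl⟩) ∅ Set.countable_empty (fun z ⟨n, hn⟩ => by
        rw [hn]
        exact Ov.set _ (ov_nat n))
  refine ⟨k, fun B hB => ?_⟩
  obtain ⟨K, hK, hK'⟩ := B.prop
  obtain ⟨g, hg⟩ := (Set.countable_iff_exists_injOn).1 hK
  have hB' : ∀ x, Mem x B → ∃ z ∈ K, x.val = atm z := by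
    intro x hx
    have h3 := ov_mem hK' hx
    rcases h3.cases' with h4 | ⟨s, h4, -⟩
    · exact h4
    · exact absurd (isSet_iff.2 ⟨s, h4⟩) (hB.2 x hx)
  obtain ⟨f, hf0, hf⟩ := strongSep (small_prod B k).elt
    (fun q => ∃ x z, Mem x B ∧ z ∈ K ∧ x.val = atm z ∧ q = op x (natN (g z)))
  have hf' : ∀ x y, Mem (op x y) f ↔ Mem x B ∧ ∃ z ∈ K, x.val = atm z ∧ y = natN (g z) := by
    intro x y
    rw [hf]
    constructor
    · rintro ⟨-, x', z, h3, h4, h5, h6⟩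
      obtain ⟨rfl, rfl⟩ := op_inj h6
      exact ⟨h3, z, h4, h5, rfl⟩
    · rintro ⟨h3, z, h4, h5, rfl⟩
      exact ⟨(small_prod B k).mem.2 ⟨x, _, h3, (h2 _).2 ⟨_, rfl⟩, rfl⟩, x, z, h3, h4, h5, rfl⟩
  refine ⟨f, hf0, fun z hz => (small_prod B k).mem.1 ((hf z).1 hz).1, fun x hx => ?_,
    fun x y y' h h' => ?_, fun x x' y h h' => ?_⟩
  · obtain ⟨z, h3, h4⟩ := hB' x hx
    exact ⟨_, (hf' x _).2 ⟨hx, z, h3, h4, rfl⟩⟩
  · obtain ⟨-, z, h3, h4, rfl⟩ := (hf' x y).1 h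
    obtain ⟨-, z', h3', h4', rfl⟩ := (hf' x y').1 h'
    rw [h4] at h4'
    rw [atm_inj h4']
  · obtain ⟨-, z, h3, h4, h5⟩ := (hf' x y).1 h
    obtain ⟨-, z', h3', h4', h5'⟩ := (hf' x' y).1 h'
    rw [h5] at h5'
    have h6 := hg h3 h3' (natN_inj h5')
    exact N.ext (by rw [h4, h4', h6])

end Pool.Agent.H839R3.Kern
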