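import Pool.Agent.H839R3.Main
import Pool.Agent.H839R3.KernAx

/-!
# Collection and Global Choice in class theory, and the independent sentence
-/

namespace Pool.Agent.H839R3

open FirstOrder FirstOrder.Language
open Pool.Agent.Helper672.ZFA

universe u

section DS

variable {M C : Type u} [L.Structure M] (η : M → C → Prop)

/-- Definability from sets, urelements and classes. -/
def DS {ι : Type} (p : (ι → M) → Prop) : Prop :=
  letI := classStructure M C η
  (Set.univ : Set M).Definable (L.sum (ClassLang C)) {v | p v}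

/-- Definable functions. -/
def DSF {ι : Type} (f : (ι → M) → M) : Prop :=
  DS η (fun w : ι ⊕ Unit → M => w (Sum.inr ()) = f (fun i => w (Sum.inl i)))

variable {η} {ι : Type}

theorem DS.not {p : (ι → M) → Prop} (hp : DS η p) : DS η (fun v => ¬ p v) := by
  letI := classStructure M C η
  have h := Set.Definable.compl hp
  exact h

theorem DS.and {p q : (ι → M) → Prop} (hp : DS η p) (hq : DS η q) :
    DS η (fun v => p v ∧ q v) := by
  letI := classStructure M C η
  have h := Set.Definable.inter hp hq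
  exact h

theorem DS.imp {p q : (ι → M) → Prop} (hp : DS η p) (hq : DS η q) :
    DS η (fun v => p v → q v) := by
  have h := (hp.and hq.not).not
  refine Eq.mp (congrArg (DS η) ?_) h
  funext v
  simp only [not_and, not_not]

theorem DS.ex {p : (ι → M) → M → Prop}
    (h : DS η (fun w : ι ⊕ Unit → M => p (fun i => w (Sum.inl i)) (w (Sum.inr ())))) :
    DS η (fun v => ∃ x, p v x) := by
  letI := classStructure M C η
  have h1 := Set.Definable.exists_of_finite (β := Unit) h
  refine Eq.mp (congrArg (DS η) ?_) h1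
  funext v
  refine propext ⟨fun ⟨a, ha⟩ => ⟨a (), ha⟩, fun ⟨x, hx⟩ => ⟨fun _ => x, hx⟩⟩

theorem DS.all {p : (ι → M) → M → Prop}
    (h : DS η (fun w : ι ⊕ Unit → M => p (fun i => w (Sum.inl i)) (w (Sum.inr ())))) :
    DS η (fun v => ∀ x, p v x) := by
  letI := classStructure M C η
  have h1 := Set.Definable.forall_of_finite (β := Unit) h
  refine Eq.mp (congrArg (DS η) ?_) h1
  funext v
  refine propext ⟨fun h2 x => h2 fun _ => x, fun h2 a => h2 (a ())⟩

theorem DS.reindex {κ : Type} {p : (ι → M) → Prop} (hp : DS η p) (e : ι → κ) :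
    DS η (fun w : κ → M => p (fun i => w (e i))) := by
  letI := classStructure M C η
  exact Set.Definable.preimage_comp e hp

theorem DS.ofD {p : (ι → M) → Prop} (hp : D p) : DS η p := by
  letI := classStructure M C η
  exact Set.Definable.map_expansion hp (LHom.sumInl : L →ᴸ L.sum (ClassLang C))

theorem DSF.ofDF {f : (ι → M) → M} (hf : DF f) : DSF η f := DS.ofD hf

theorem DSF.lift {f : (ι → M) → M} (hf : DSF η f) :
    DSF η (fun w : ι ⊕ Unit → M => f (fun i => w (Sum.inl i))) :=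
  DS.reindex hf (Sum.map Sum.inl id)

theorem DS.cls (X : C) : DS η (fun v : Fin 1 → M => η (v 0) X) := by
  letI := classStructure M C η
  refine Set.Definable.mono (A := ∅) ?_ (Set.subset_univ _)
  refine Set.empty_definable_iff.2 ⟨Relations.formula₁ (L := L.sum (ClassLang C))
    (Sum.inr (ClassSym.cls X : (ClassLang C).Relations 1) : (L.sum (ClassLang C)).Relations 1)
    (Term.var 0), ?_⟩
  ext v
  simp only [Set.mem_ofPred_eq, Formula.realize_rel₁]
  rfl

theorem DS.subst₁ {p : M → Prop} (hp : DS η (fun v : Fin 1 → M => p (v 0))) {f : (ι → M) → M}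
    (hf : DSF η f) : DS η (fun v => p (f v)) := by
  have h : DS η (fun v : ι → M => ∃ x, x = f v ∧ p x) :=
    DS.ex (DS.and hf (hp.reindex fun _ => Sum.inr ()))
  refine Eq.mp (congrArg (DS η) ?_) h
  funext v
  exact propext ⟨fun ⟨x, h1, h2⟩ => h1 ▸ h2, fun h => ⟨_, rfl, h⟩⟩

theorem DS.subst₂ {p : M → M → Prop} (hp : DS η (fun v : Fin 2 → M => p (v 0) (v 1)))
    {f g : (ι → M) → M} (hf : DSF η f) (hg : DSF η g) : DS η (fun v => p (f v) (g v)) := by
  have h : DS η (fun v : ι → M => ∃ x, x = f v ∧ ∃ y, y = g v ∧ p x y) :=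
    DS.ex (DS.and hf (DS.ex (DS.and hg.lift
      (hp.reindex ![Sum.inl (Sum.inr ()), Sum.inr ()]))))
  refine Eq.mp (congrArg (DS η) ?_) h
  funext v
  exact propext ⟨fun ⟨x, h1, y, h2, h3⟩ => h1 ▸ h2 ▸ h3, fun h => ⟨_, rfl, _, rfl, h⟩⟩

variable {G : M → M → Prop}

theorem gTerm {α : Type} {n : ℕ} (t : LG.Term (((Set.univ : Set M) ⊕ α) ⊕ Fin n)) :
    letI := gStr G
    DSF η (fun w : α ⊕ Fin n → M => t.realize (Sum.elim (Sum.elim (↑) fun i => w (Sum.inl i))
      fun i => w (Sum.inr i))) := by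
  letI := gStr G
  cases t with
  | var i =>
    rcases i with (c | a) | i
    · exact DSF.ofDF (DF.const c.1)
    · exact DSF.ofDF (DF.var (Sum.inl a))
    · exact DSF.ofDF (DF.var (Sum.inr i))
  | func f _ => exact Empty.elim f

theorem gFormula (hG : DS η (fun v : Fin 2 → M => G (v 0) (v 1))) {α : Type} {n : ℕ}
    (φ : LG.BoundedFormula ((Set.univ : Set M) ⊕ α) n) :
    letI := gStr G
    DS η (fun w : α ⊕ Fin n → M => φ.Realize (Sum.elim (↑) fun i => w (Sum.inl i))
      fun i => w (Sum.inr i)) := by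
  letI := gStr G
  induction φ with
  | falsum =>
    letI := classStructure M C η
    exact Set.definable_empty
  | equal t₁ t₂ =>
    exact DS.subst₂ (p := fun x y => x = y) (DS.ofD (D.eqf (DF.var _) (DF.var _)))
      (gTerm t₁) (gTerm t₂)
  | rel R ts =>
    cases R with
    | isSet => exact DS.subst₁ (p := fun x => IsSet x) (DS.ofD (D.isSetf (DF.var _))) (gTerm (ts 0))
    | mem =>
      exact DS.subst₂ (p := fun x y => Mem x y) (DS.ofD (D.memf (DF.var _) (DF.var _)))
        (gTerm (ts 0)) (gTerm (ts 1))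
    | gen => exact DS.subst₂ (p := G) hG (gTerm (ts 0)) (gTerm (ts 1))
  | imp φ ψ ih₁ ih₂ => exact DS.imp ih₁ ih₂
  | @all n φ ih =>
    refine DS.all ?_
    have h := ih.reindex (κ := (α ⊕ Fin n) ⊕ Unit)
      (Sum.elim (fun a => Sum.inl (Sum.inl a))
        (Fin.snoc (α := fun _ => (α ⊕ Fin n) ⊕ Unit)
          (fun i => Sum.inl (Sum.inr i)) (Sum.inr ())))
    refine Eq.mp (congrArg (DS η) ?_) h
    funext w
    refine congrArg (fun xs => φ.Realize (Sum.elim (↑) fun i => w (Sum.inl (Sum.inl i))) xs) ?_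
    funext i
    refine Fin.lastCases ?_ (fun i => ?_) i
    · simp
    · simp

theorem DS.ofDG (hG : DS η (fun v : Fin 2 → M => G (v 0) (v 1))) {k : ℕ}
    {p : (Fin k → M) → Prop} (hp : DG G p) : DS η p := by
  letI := gStr G
  obtain ⟨φ, hφ⟩ := Set.definable_iff_exists_formula_sum.1 hp
  have h := (gFormula hG φ).reindex (κ := Fin k) (Sum.elim id fun i => i.elim0)
  refine Eq.mp (congrArg (DS η) ?_) h
  funext w
  have h1 : (w ∈ {v : Fin k → M | p v}) ↔ w ∈ {v | φ.Realize (Sum.elim (↑) v)} := by rw [hφ]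
  refine propext (Iff.trans ?_ h1.symm)
  change BoundedFormula.Realize φ (Sum.elim (↑) w) _ ↔ BoundedFormula.Realize φ (Sum.elim (↑) w) _
  rw [Subsingleton.elim (fun i => w (Sum.elim id (fun i => i.elim0) (Sum.inr i)))
    (default : Fin 0 → M)]

end DS

section

variable {M C : Type u} [L.Structure M] {η : M → C → Prop}

/-- Collection and Global Choice give a model with a choice function. -/
theorem exists_GM [hI : IsModel M] (h : GBUR M C η) (hc : ClassCollection M C η)
    (hg : GlobalChoice M C η) : ∃ G : M → M → Prop, GM M G := by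
  obtain ⟨X, -, h2, h3⟩ := hg
  have hG : DS η (fun v : Fin 2 → M => (fun x y => PairInClass η X x y ∧ Mem y x) (v 0) (v 1)) := by
    refine DS.and ?_ (DS.ofD (D.memf (DF.var _) (DF.var _)))
    have h1 : DS η (fun v : Fin 2 → M => ∃ p, p = op (v 0) (v 1) ∧ η p X) :=
      DS.ex (DS.and (DS.ofD (D.eqf (DF.var _) (DF.op (DF.var _) (DF.var _))))
        ((DS.cls X).reindex fun _ => Sum.inr ()))
    refine Eq.mp (congrArg (DS η) ?_) h1
    funext v
    refine propext (exists_congr fun p => ?_)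
    rw [isOrdPair_iff]
  refine ⟨fun x y => PairInClass η X x y ∧ Mem y x, ⟨fun x y h => h.2,
    fun x y y' h h' => h2 x y y' h.1 h'.1, fun x y hx hy => ?_, fun S hS a => ?_,
    fun R hR a ha => ?_⟩⟩
  · obtain ⟨z, h4, h5⟩ := h3 x hx ⟨y, hy⟩
    exact ⟨z, h4, h5⟩
  · by_cases hset : IsSet a
    · obtain ⟨Y, hY⟩ := h.comprehension {z | S z} (DS.ofDG hG hS)
      obtain ⟨b, h4, h5⟩ := h.separation Y a hset
      exact ⟨b, h4, fun z => (h5 z).trans (and_congr_right fun _ => hY z)⟩
    · exact ⟨small_empty.elt, small_empty.isSet, fun z => ⟨fun h =>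
        absurd (small_empty.mem.1 h) (Set.notMem_empty z), fun h => absurd (hI.atoms _ _ h.1) hset⟩⟩
  · by_cases hset : IsSet a
    · have hD : DG (fun x y => PairInClass η X x y ∧ Mem y x)
          (fun v : Fin 1 → M => ∃ x y, v 0 = op x y ∧ R x y) :=
        DG.ex (DG.ex (DG.and (DG.ofD (D.eqf (DF.var _) (DF.op (DF.var _) (DF.var _))))
          (DG.reindex hR ![Sum.inl (Sum.inr ()), Sum.inr ()])))
      obtain ⟨Y, hY⟩ := h.comprehension {z | ∃ x y, z = op x y ∧ R x y} (DS.ofDG hG hD)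
      have h4 : ∀ x y, PairInClass η Y x y ↔ R x y := by
        intro x y
        constructor
        · rintro ⟨p, h5, h6⟩
          obtain ⟨x', y', h7, h8⟩ := (hY p).1 h6
          rw [isOrdPair_iff] at h5
          rw [h5] at h7
          obtain ⟨rfl, rfl⟩ := op_inj h7
          exact h8
        · intro h5
          exact ⟨op x y, isOrdPair_iff.2 rfl, (hY _).2 ⟨x, y, rfl, h5⟩⟩
      obtain ⟨v, -, h5⟩ := hc Y a hset fun x hx => by
        obtain ⟨y, hy⟩ := ha x hx
        exact ⟨y, (h4 x y).2 hy⟩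
      refine ⟨v, fun x hx => ?_⟩
      obtain ⟨y, h6, h7⟩ := h5 x hx
      exact ⟨y, h6, (h4 x y).1 h7⟩
    · exact ⟨a, fun x hx => absurd (hI.atoms _ _ hx) hset⟩

end

/-! ### The sentence -/

/-- `f` is an injection from `B` to `k`, in any structure. -/
def InjP {M : Type u} [L.Structure M] (f B k : M) : Prop := IsSet f ∧
  (∀ z, Mem z f → ∃ x y, Mem x B ∧ Mem y k ∧ IsOrdPair z x y) ∧
  (∀ x, Mem x B → ∃ y, PairIn f x y) ∧ (∀ x y y', PairIn f x y → PairIn f x y' → y = y') ∧
  ∀ x x' y, PairIn f x y → PairIn f x' y → x = x'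

theorem injP_iff {M : Type u} [L.Structure M] [IsModel M] {f B k : M} :
    InjP f B k ↔ InjF f B k := by
  unfold InjP InjF
  simp only [pairIn_iff, isOrdPair_iff]

/-- The urelements form a set, or there is no bound for the cardinalities of the sets of
urelements. -/
def SetOrPlenty (M : Type u) [L.Structure M] : Prop :=
  (∃ a : M, ∀ u, ¬ IsSet u → Mem u a) ∨ ∀ k : M, ∃ B, Ur B ∧ ¬ ∃ f, InjP f B k

/-- Uniformly definable properties. -/
def SU {ι : Type} (p : ∀ (M : Type u) [L.Structure M], (ι → M) → Prop) : Prop :=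
  ∃ φ : L.Formula ι, ∀ (M : Type u) [L.Structure M] (v : ι → M), φ.Realize v ↔ p M v

section

variable {ι : Type}

theorem SU.not {p : ∀ (M : Type u) [L.Structure M], (ι → M) → Prop} (h : SU p) :
    SU (fun M _ v => ¬ p M v) := by
  obtain ⟨φ, h1⟩ := h
  exact ⟨φ.not, fun M _ v => by rw [Formula.realize_not, h1]⟩

theorem SU.imp {p q : ∀ (M : Type u) [L.Structure M], (ι → M) → Prop} (h : SU p) (h' : SU q) :
    SU (fun M _ v => p M v → q M v) := by
  obtain ⟨φ, h1⟩ := h
  obtain ⟨ψ, h2⟩ := h'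
  exact ⟨φ.imp ψ, fun M _ v => by rw [Formula.realize_imp, h1, h2]⟩

theorem SU.and {p q : ∀ (M : Type u) [L.Structure M], (ι → M) → Prop} (h : SU p) (h' : SU q) :
    SU (fun M _ v => p M v ∧ q M v) := by
  obtain ⟨φ, h1⟩ := (h.imp h'.not).not
  exact ⟨φ, fun M _ v => (h1 M v).trans
    (Classical.not_imp.trans (and_congr_right fun _ => not_not))⟩

theorem SU.or {p q : ∀ (M : Type u) [L.Structure M], (ι → M) → Prop} (h : SU p) (h' : SU q) :
    SU (fun M _ v => p M v ∨ q M v) := by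
  obtain ⟨φ, h1⟩ := h.not.imp h'
  exact ⟨φ, fun M _ v => (h1 M v).trans or_iff_not_imp_left.symm⟩

theorem SU.iff {p q : ∀ (M : Type u) [L.Structure M], (ι → M) → Prop} (h : SU p) (h' : SU q) :
    SU (fun M _ v => (p M v ↔ q M v)) := by
  obtain ⟨φ, h1⟩ := (h.imp h').and (h'.imp h)
  exact ⟨φ, fun M _ v => (h1 M v).trans iff_iff_implies_and_implies.symm⟩

theorem SU.all {p : ∀ (M : Type u) [L.Structure M], (ι → M) → M → Prop}
    (h : SU (fun M _ (w : ι ⊕ Unit → M) => p M (fun i => w (Sum.inl i)) (w (Sum.inr ())))) :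
    SU (fun M _ v => ∀ x, p M v x) := by
  obtain ⟨φ, h1⟩ := h
  refine ⟨φ.iAlls Unit, fun M _ v => ?_⟩
  rw [Formula.realize_iAlls]
  constructor
  · intro h2 x
    exact (h1 M (Sum.elim v fun _ => x)).1 (h2 fun _ => x)
  · intro h2 x
    exact (h1 M (Sum.elim v x)).2 (h2 (x ()))

theorem SU.ex {p : ∀ (M : Type u) [L.Structure M], (ι → M) → M → Prop}
    (h : SU (fun M _ (w : ι ⊕ Unit → M) => p M (fun i => w (Sum.inl i)) (w (Sum.inr ())))) :
    SU (fun M _ v => ∃ x, p M v x) := by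
  obtain ⟨φ, h1⟩ := (SU.all (p := fun M _ v x => ¬ p M v x) h.not).not
  exact ⟨φ, fun M _ v => (h1 M v).trans not_forall_not⟩

theorem SU.mem (i j : ι) : SU.{u} (fun M _ v => Mem (v i) (v j)) :=
  ⟨Relations.formula₂ (L := L) (Sym.mem : L.Relations 2) (Term.var i) (Term.var j),
    fun M _ v => by
      rw [Formula.realize_rel₂]
      rfl⟩

theorem SU.isSet (i : ι) : SU.{u} (fun M _ v => IsSet (v i)) :=
  ⟨Relations.formula₁ (L := L) (Sym.isSet : L.Relations 1) (Term.var i),
    fun M _ v => by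
      rw [Formula.realize_rel₁]
      rfl⟩

theorem SU.eq (i j : ι) : SU.{u} (fun M _ v => v i = v j) :=
  ⟨(Term.var i).equal (Term.var j), fun M _ v => by
    rw [Formula.realize_equal]
    rfl⟩

theorem SU.isPair (i j k : ι) : SU.{u} (fun M _ v => IsPair (v i) (v j) (v k)) := by
  unfold IsPair
  exact SU.and (SU.isSet _) (SU.all (SU.iff (SU.mem _ _) (SU.or (SU.eq _ _) (SU.eq _ _))))

theorem SU.isOrdPair (i j k : ι) : SU.{u} (fun M _ v => IsOrdPair (v i) (v j) (v k)) := by
  unfold IsOrdPair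
  exact SU.ex (SU.ex (SU.and (SU.isPair _ _ _) (SU.and (SU.isPair _ _ _) (SU.isPair _ _ _))))

theorem SU.pairIn (i j k : ι) : SU.{u} (fun M _ v => PairIn (v i) (v j) (v k)) := by
  unfold PairIn
  exact SU.ex (SU.and (SU.isOrdPair _ _ _) (SU.mem _ _))

theorem SU.injP (i j k : ι) : SU.{u} (fun M _ v => InjP (v i) (v j) (v k)) := by
  unfold InjP
  exact SU.and (SU.isSet _) (SU.and (SU.all (SU.imp (SU.mem _ _) (SU.ex (SU.ex (SU.and
    (SU.mem _ _) (SU.and (SU.mem _ _) (SU.isOrdPair _ _ _))))))) (SU.and (SU.all (SU.imp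
    (SU.mem _ _) (SU.ex (SU.pairIn _ _ _)))) (SU.and (SU.all (SU.all (SU.all (SU.imp
    (SU.pairIn _ _ _) (SU.imp (SU.pairIn _ _ _) (SU.eq _ _)))))) (SU.all (SU.all (SU.all (SU.imp
    (SU.pairIn _ _ _) (SU.imp (SU.pairIn _ _ _) (SU.eq _ _)))))))))

end

/-- The sentence. -/
theorem exists_sentence : ∃ σ : L.Sentence, ∀ (M : Type u) [L.Structure M],
    M ⊨ σ ↔ SetOrPlenty M := by
  have h : SU.{u} (ι := Empty) (fun M _ _ => SetOrPlenty M) := by
    unfold SetOrPlenty Ur
    exact SU.or (SU.ex (SU.all (SU.imp (SU.not (SU.isSet _)) (SU.mem _ _)))) (SU.all (SU.ex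
      (SU.and (SU.and (SU.isSet _) (SU.all (SU.imp (SU.mem _ _) (SU.not (SU.isSet _)))))
      (SU.not (SU.ex (SU.injP _ _ _))))))
  obtain ⟨φ, hφ⟩ := h
  exact ⟨φ, fun M _ => hφ M default⟩

/-- Class theory with Collection and Global Choice is not conservative. -/
theorem not_conservative : ∃ σ : L.Sentence,
    (∀ (M C : Type (u + 1)) [L.Structure M] (η : M → C → Prop),
      GBUR M C η → ClassCollection M C η → GlobalChoice M C η → M ⊨ σ) ∧
    ∃ (M : Type (u + 1)) (_ : L.Structure M), ZFCU M ∧ ¬ M ⊨ σ := by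
  obtain ⟨σ, hσ⟩ := exists_sentence.{u + 1}
  refine ⟨σ, fun M C _ η h hc hg => (hσ M).2 ?_, Kern.N.{u}, inferInstance, Kern.zfcu, fun h => ?_⟩
  · haveI : IsModel M := (h.zfcur.zm).toIsModel
    obtain ⟨G, hG⟩ := exists_GM h hc hg
    rcases hG.plenitude with h1 | h1
    · exact Or.inl h1
    · refine Or.inr fun k => ?_
      obtain ⟨B, hB, hB'⟩ := h1 k
      exact ⟨B, hB, fun ⟨f, hf⟩ => hB' ⟨f, injP_iff.1 hf⟩⟩
  · rcases (hσ Kern.N.{u}).1 h with h1 | h1
    · exact Kern.not_set h1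
    · obtain ⟨k, hk⟩ := Kern.bounded.{u}
      obtain ⟨B, hB, hB'⟩ := h1 k
      obtain ⟨f, hf⟩ := hk B hB
      exact hB' ⟨f, injP_iff.2 hf⟩

end Pool.Agent.H839R3
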