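import Pool.Agent.H839R3.Gen

/-!
# The classes definable from a generic class form a model of class theory
-/

namespace Pool.Agent.H839R3

open FirstOrder FirstOrder.Language
open Pool.Agent.Helper672.ZFA

universe u v

section DG

variable {M : Type u} [L.Structure M] (G : M → M → Prop)

/-- Definability with parameters in the expansion by `G`. -/
def DG {ι : Type} (p : (ι → M) → Prop) : Prop :=
  letI := gStr G
  (Set.univ : Set M).Definable LG {v | p v}

/-- Definable functions. -/
def DGF {ι : Type} (f : (ι → M) → M) : Prop :=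
  DG G (fun w : ι ⊕ Unit → M => w (Sum.inr ()) = f (fun i => w (Sum.inl i)))

variable {G} {ι : Type}

theorem DG.not {p : (ι → M) → Prop} (hp : DG G p) : DG G (fun v => ¬ p v) := by
  letI := gStr G
  have h := Set.Definable.compl hp
  exact h

theorem DG.and {p q : (ι → M) → Prop} (hp : DG G p) (hq : DG G q) :
    DG G (fun v => p v ∧ q v) := by
  letI := gStr G
  have h := Set.Definable.inter hp hq
  exact h

theorem DG.imp {p q : (ι → M) → Prop} (hp : DG G p) (hq : DG G q) :
    DG G (fun v => p v → q v) := by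
  have h := (hp.and hq.not).not
  refine Eq.mp (congrArg (DG G) ?_) h
  funext v
  simp only [not_and, not_not]

theorem DG.ex {p : (ι → M) → M → Prop}
    (h : DG G (fun w : ι ⊕ Unit → M => p (fun i => w (Sum.inl i)) (w (Sum.inr ())))) :
    DG G (fun v => ∃ x, p v x) := by
  letI := gStr G
  have h1 := Set.Definable.exists_of_finite (β := Unit) h
  refine Eq.mp (congrArg (DG G) ?_) h1
  funext v
  refine propext ⟨fun ⟨a, ha⟩ => ⟨a (), ha⟩, fun ⟨x, hx⟩ => ⟨fun _ => x, hx⟩⟩

theorem DG.all {p : (ι → M) → M → Prop}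
    (h : DG G (fun w : ι ⊕ Unit → M => p (fun i => w (Sum.inl i)) (w (Sum.inr ())))) :
    DG G (fun v => ∀ x, p v x) := by
  letI := gStr G
  have h1 := Set.Definable.forall_of_finite (β := Unit) h
  refine Eq.mp (congrArg (DG G) ?_) h1
  funext v
  refine propext ⟨fun h2 x => h2 fun _ => x, fun h2 a => h2 (a ())⟩

theorem DG.reindex {κ : Type} {p : (ι → M) → Prop} (hp : DG G p) (e : ι → κ) :
    DG G (fun w : κ → M => p (fun i => w (e i))) := by
  letI := gStr G
  exact Set.Definable.preimage_comp e hp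

/-- The inclusion of the languages. -/
def LtoLG : L →ᴸ LG where
  onFunction := fun _ f => Empty.elim f
  onRelation := fun _ r => match r with
    | Sym.isSet => GSym.isSet
    | Sym.mem => GSym.mem

theorem LtoLG_expansion (G : M → M → Prop) : letI := gStr G; LtoLG.IsExpansionOn M :=
  letI := gStr G
  { map_onFunction := fun f => Empty.elim f
    map_onRelation := fun {n} R x => by
      cases R with
      | isSet =>
        have h : x = ![x 0] := by
          funext i
          fin_cases i
          rfl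
        change IsSet (x 0) = Structure.RelMap (L := L) (Sym.isSet : L.Relations 1) x
        rw [h]
        rfl
      | mem =>
        have h : x = ![x 0, x 1] := by
          funext i
          fin_cases i <;> rfl
        change Mem (x 0) (x 1) = Structure.RelMap (L := L) (Sym.mem : L.Relations 2) x
        rw [h]
        rfl }

theorem DG.ofD {p : (ι → M) → Prop} (hp : D p) : DG G p := by
  letI := gStr G
  haveI := LtoLG_expansion G
  exact Set.Definable.map_expansion hp LtoLG

theorem DGF.ofDF {f : (ι → M) → M} (hf : DF f) : DGF G f := DG.ofD hf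

theorem DGF.lift {f : (ι → M) → M} (hf : DGF G f) :
    DGF G (fun w : ι ⊕ Unit → M => f (fun i => w (Sum.inl i))) :=
  DG.reindex hf (Sum.map Sum.inl id)

theorem DG.gen : DG G (fun v : Fin 2 → M => G (v 0) (v 1)) := by
  letI := gStr G
  refine Set.Definable.mono (A := ∅) ?_ (Set.subset_univ _)
  refine Set.empty_definable_iff.2 ⟨Relations.formula₂ (L := LG) (GSym.gen : LG.Relations 2)
    (Term.var 0) (Term.var 1), ?_⟩
  ext v
  simp only [Set.mem_ofPred_eq, Formula.realize_rel₂]
  rfl

theorem DG.subst₁ {p : M → Prop} (hp : DG G (fun v : Fin 1 → M => p (v 0))) {f : (ι → M) → M}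
    (hf : DGF G f) : DG G (fun v => p (f v)) := by
  have h : DG G (fun v : ι → M => ∃ x, x = f v ∧ p x) :=
    DG.ex (DG.and hf (hp.reindex fun _ => Sum.inr ()))
  refine Eq.mp (congrArg (DG G) ?_) h
  funext v
  exact propext ⟨fun ⟨x, h1, h2⟩ => h1 ▸ h2, fun h => ⟨_, rfl, h⟩⟩

theorem DG.subst₂ {p : M → M → Prop} (hp : DG G (fun v : Fin 2 → M => p (v 0) (v 1)))
    {f g : (ι → M) → M} (hf : DGF G f) (hg : DGF G g) : DG G (fun v => p (f v) (g v)) := by
  have h : DG G (fun v : ι → M => ∃ x, x = f v ∧ ∃ y, y = g v ∧ p x y) :=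
    DG.ex (DG.and hf (DG.ex (DG.and hg.lift
      (hp.reindex ![Sum.inl (Sum.inr ()), Sum.inr ()]))))
  refine Eq.mp (congrArg (DG G) ?_) h
  funext v
  exact propext ⟨fun ⟨x, h1, y, h2, h3⟩ => h1 ▸ h2 ▸ h3, fun h => ⟨_, rfl, _, rfl, h⟩⟩

end DG

section

variable {M : Type u} [L.Structure M] (G : M → M → Prop)

/-- The classes: sets definable in the expansion. -/
def Cl : Type u := {S : Set M // DG G (fun v : Fin 1 → M => v 0 ∈ S)}

/-- Membership in classes. -/
def clMem (x : M) (X : Cl G) : Prop := x ∈ X.1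

variable {G}

theorem clTerm {α : Type} {n : ℕ}
    (t : (L.sum (ClassLang (Cl G))).Term (((Set.univ : Set M) ⊕ α) ⊕ Fin n)) :
    letI := classStructure M (Cl G) (clMem G)
    DGF G (fun w : α ⊕ Fin n → M => t.realize (Sum.elim (Sum.elim (↑) fun i => w (Sum.inl i))
      fun i => w (Sum.inr i))) := by
  letI := classStructure M (Cl G) (clMem G)
  cases t with
  | var i =>
    rcases i with (c | a) | i
    · exact DGF.ofDF (DF.const c.1)
    · exact DGF.ofDF (DF.var (Sum.inl a))
    · exact DGF.ofDF (DF.var (Sum.inr i))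
  | func f _ =>
    rcases f with f | f
    · exact Empty.elim f
    · exact Empty.elim f

theorem clFormula {α : Type} {n : ℕ}
    (φ : (L.sum (ClassLang (Cl G))).BoundedFormula ((Set.univ : Set M) ⊕ α) n) :
    letI := classStructure M (Cl G) (clMem G)
    DG G (fun w : α ⊕ Fin n → M => φ.Realize (Sum.elim (↑) fun i => w (Sum.inl i))
      fun i => w (Sum.inr i)) := by
  letI := classStructure M (Cl G) (clMem G)
  induction φ with
  | falsum =>
    letI := gStr G
    exact Set.definable_empty
  | equal t₁ t₂ =>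
    exact DG.subst₂ (p := fun x y => x = y) (DG.ofD (D.eqf (DF.var _) (DF.var _)))
      (clTerm t₁) (clTerm t₂)
  | rel R ts =>
    rcases R with R | R
    · cases R with
      | isSet =>
        have h := DG.subst₁ (p := fun x => IsSet x) (DG.ofD (D.isSetf (DF.var _))) (clTerm (ts 0))
        refine Eq.mp (congrArg (DG G) ?_) h
        funext w
        change Structure.RelMap (L := L) (Sym.isSet : L.Relations 1) ![_] =
          Structure.RelMap (L := L) (Sym.isSet : L.Relations 1) _
        congr 1
        funext i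
        fin_cases i
        rfl
      | mem =>
        have h := DG.subst₂ (p := fun x y => Mem x y) (DG.ofD (D.memf (DF.var _) (DF.var _)))
          (clTerm (ts 0)) (clTerm (ts 1))
        refine Eq.mp (congrArg (DG G) ?_) h
        funext w
        change Structure.RelMap (L := L) (Sym.mem : L.Relations 2) ![_, _] =
          Structure.RelMap (L := L) (Sym.mem : L.Relations 2) _
        congr 1
        funext i
        fin_cases i <;> rfl
    · cases R with
      | cls X =>
        exact DG.subst₁ (p := fun x => x ∈ X.1) X.2 (clTerm (ts 0))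
  | imp φ ψ ih₁ ih₂ => exact DG.imp ih₁ ih₂
  | @all n φ ih =>
    refine DG.all ?_
    have h := ih.reindex (κ := (α ⊕ Fin n) ⊕ Unit)
      (Sum.elim (fun a => Sum.inl (Sum.inl a))
        (Fin.snoc (α := fun _ => (α ⊕ Fin n) ⊕ Unit)
          (fun i => Sum.inl (Sum.inr i)) (Sum.inr ())))
    refine Eq.mp (congrArg (DG G) ?_) h
    funext w
    refine congrArg (fun xs => φ.Realize (Sum.elim (↑) fun i => w (Sum.inl (Sum.inl i))) xs) ?_
    funext i
    refine Fin.lastCases ?_ (fun i => ?_) i
    · simp
    · simp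

/-- Class comprehension. -/
theorem cl_comprehension (S : Set M) (hS : PredicativelyDefinable (clMem G) S) :
    DG G (fun v : Fin 1 → M => v 0 ∈ S) := by
  letI := classStructure M (Cl G) (clMem G)
  obtain ⟨φ, hφ⟩ := Set.definable_iff_exists_formula_sum.1 hS
  have h := (clFormula φ).reindex (κ := Fin 1) (Sum.elim id fun i => i.elim0)
  refine Eq.mp (congrArg (DG G) ?_) h
  funext w
  have h1 : (w ∈ {x : Fin 1 → M | x 0 ∈ S}) ↔
      w ∈ {v | φ.Realize (Sum.elim (↑) v)} := by rw [hφ]
  refine propext (Iff.trans ?_ h1.symm)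
  change BoundedFormula.Realize φ (Sum.elim (↑) w) _ ↔ BoundedFormula.Realize φ (Sum.elim (↑) w) _
  rw [Subsingleton.elim (fun i => w (Sum.elim id (fun i => i.elim0) (Sum.inr i)))
    (default : Fin 0 → M)]

end

section

variable {M : Type u} [L.Structure M] [hM : ZM M] {g : Set M} (hg : IsGen g)

include hg in
/-- The classes definable from a generic class form a model of class theory. -/
theorem gbur_of_gen (hB : BaseAxioms M) : GBUR M (Cl (gf g)) (clMem (gf g)) where
  toBaseAxioms := hB
  classExt X Y h := Subtype.ext (Set.ext h)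
  comprehension S hS := ⟨⟨S, cl_comprehension S hS⟩, fun _ => Iff.rfl⟩
  separation X x _ := hg.separation X.1 X.2 x
  replacement F a _ h := by
    refine hg.replacement {q | PairInClass (clMem (gf g)) F q.1 q.2} ?_ a h
    have h1 : DG (gf g) (fun v : Fin 2 → M => ∃ p, p = op (v 0) (v 1) ∧ p ∈ F.1) :=
      DG.ex (DG.and (DG.ofD (D.eqf (DF.var _) (DF.op (DF.var _) (DF.var _))))
        (DG.reindex F.2 fun _ => Sum.inr ()))
    refine Eq.mp (congrArg (DG (gf g)) ?_) h1
    funext v
    refine propext (exists_congr fun p => ?_)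
    rw [isOrdPair_iff]
    exact Iff.rfl

include hg in
theorem globalChoice_of_gen : GlobalChoice M (Cl (gf g)) (clMem (gf g)) := by
  refine ⟨⟨{z | ∃ x y, z = op x y ∧ gf g x y}, ?_⟩, ?_, ?_, ?_⟩
  · exact DG.ex (DG.ex (DG.and (DG.ofD (D.eqf (DF.var _) (DF.op (DF.var _) (DF.var _))))
      (DG.reindex DG.gen ![Sum.inl (Sum.inr ()), Sum.inr ()])))
  · rintro p ⟨x, y, rfl, -⟩
    exact ⟨x, y, isOrdPair_iff.2 rfl⟩
  · rintro x y y' ⟨p, h1, a, b, h2, q, hq, h3⟩ ⟨p', h1', a', b', h2', q', hq', h3'⟩
    rw [isOrdPair_iff] at h1 h1'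
    rw [h1] at h2
    rw [h1'] at h2'
    obtain ⟨rfl, rfl⟩ := op_inj h2
    obtain ⟨rfl, rfl⟩ := op_inj h2'
    obtain ⟨r, hr, h4, h5⟩ := hg.dir q hq q' hq'
    exact (hg.cond r hr).2.2 _ _ _ (h4 _ h3) (h5 _ h3')
  · rintro x - ⟨y, hy⟩
    obtain ⟨q, hq, y', h1⟩ := hg.tot x y hy
    refine ⟨y', ⟨op x y', isOrdPair_iff.2 rfl, x, y', rfl, q, hq, h1⟩, ?_⟩
    obtain ⟨a, b, h2, h3⟩ := (hg.cond q hq).2.1 _ h1
    obtain ⟨rfl, rfl⟩ := op_inj h2
    exact h3

end

end Pool.Agent.H839R3
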