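import Pool.Agent.Helper672.ZFA.Statement

/-!
# Set theory and class theory with urelements

The language `L` of set theory with urelements has a unary predicate for being a set (the
urelements are the objects that are not sets) and membership. `ZFCUR M` says that `M` is a model of
ZFC with urelements, formulated with Replacement. `GBUR M C η` says that `M` (the sets and
urelements) and `C` (the classes), with the relation `η x X` (`x` is a member of the class `X`),
form a model of the two-sorted theory `GBU_R` (with the axiom of choice for sets), and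
`GlobalChoice M C η` is the axiom of global choice.
-/

namespace Pool.Agent.H839R3

open FirstOrder FirstOrder.Language
open Pool.Agent.Helper672.ZFA (L Sym IsSet Mem IsPair IsOrdPair)

universe u

section

variable {M : Type u} [L.Structure M]

/-- The ordered pair `(x, y)` is an element of `r`. -/
def PairIn (r x y : M) : Prop := ∃ p, IsOrdPair p x y ∧ Mem p r

/-- In the model, `r` is a well-ordering of the set `x`: a strict linear ordering such that every
nonempty subset of `x` has a least element. -/
structure WellOrders (r x : M) : Prop where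
  irrefl : ∀ a, Mem a x → ¬ PairIn r a a
  trans : ∀ a b c, Mem a x → Mem b x → Mem c x → PairIn r a b → PairIn r b c → PairIn r a c
  total : ∀ a b, Mem a x → Mem b x → PairIn r a b ∨ a = b ∨ PairIn r b a
  least : ∀ s, (∀ a, Mem a s → Mem a x) → (∃ a, Mem a s) →
    ∃ a, Mem a s ∧ ∀ b, Mem b s → ¬ PairIn r b a

end

section

variable (M : Type u) [L.Structure M]

/-- The axioms that do not involve schemas or classes: urelements have no elements,
Extensionality for sets, Foundation, Pairing, Union, Powerset, Infinity, and the axiom of choice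
(every set can be well-ordered). -/
structure BaseAxioms : Prop where
  atoms : ∀ x y : M, Mem x y → IsSet y
  ext : ∀ x y : M, IsSet x → IsSet y → (∀ z, Mem z x ↔ Mem z y) → x = y
  foundation : ∀ x : M, (∃ y, Mem y x) → ∃ y, Mem y x ∧ ∀ z, Mem z x → ¬ Mem z y
  pairing : ∀ x y : M, ∃ p, IsSet p ∧ ∀ z, Mem z p ↔ z = x ∨ z = y
  union : ∀ x : M, IsSet x → ∃ a, IsSet a ∧ ∀ z, Mem z a ↔ ∃ y, Mem y x ∧ Mem z y
  power : ∀ x : M, IsSet x → ∃ p, IsSet p ∧ ∀ z, Mem z p ↔ IsSet z ∧ ∀ w, Mem w z → Mem w x
  infinity : ∃ i : M, (∃ e, Mem e i ∧ IsSet e ∧ ∀ z, ¬ Mem z e) ∧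
    ∀ n, Mem n i → ∃ s, Mem s i ∧ IsSet s ∧ ∀ z, Mem z s ↔ Mem z n ∨ z = n
  choice : ∀ x : M, IsSet x → ∃ r, WellOrders r x

/-- Models of `ZFCU_R`: the basic axioms and the schemas of Separation and Replacement for all
formulas of the language of set theory with urelements (with parameters). -/
structure ZFCUR : Prop extends BaseAxioms M where
  separation : ∀ S : Set M, (Set.univ : Set M).Definable₁ L S →
    ∀ x : M, IsSet x → ∃ y, IsSet y ∧ ∀ z, Mem z y ↔ Mem z x ∧ z ∈ S
  replacement : ∀ F : Set (M × M), (Set.univ : Set M).Definable₂ L F →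
    ∀ a : M, IsSet a → (∀ x, Mem x a → ∃! y, (x, y) ∈ F) →
      ∃ b, IsSet b ∧ ∀ y, Mem y b ↔ ∃ x, Mem x a ∧ (x, y) ∈ F

end

/-- The symbols for the classes: a unary predicate for every class. -/
inductive ClassSym (C : Type u) : ℕ → Type u
  | cls (X : C) : ClassSym C 1

/-- The language with a unary predicate for every class. -/
def ClassLang (C : Type u) : FirstOrder.Language.{0, u} := ⟨fun _ => Empty, ClassSym C⟩

section

variable (M C : Type u) [L.Structure M] (η : M → C → Prop)

/-- Interpretation of the predicates for the classes. -/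
@[reducible] def classStructure : (ClassLang C).Structure M where
  funMap := fun f => Empty.elim f
  RelMap := fun {_} r v => match r, v with
    | ClassSym.cls X, v => η (v 0) X

variable {M C}

/-- `S` is definable, with sets, urelements and classes as parameters, by a formula without
quantifiers over classes. -/
def PredicativelyDefinable (S : Set M) : Prop :=
  letI := classStructure M C η
  (Set.univ : Set M).Definable₁ (L.sum (ClassLang C)) S

/-- The ordered pair `(x, y)` is a member of the class `F`. -/
def PairInClass (F : C) (x y : M) : Prop := ∃ p, IsOrdPair p x y ∧ η p F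

variable (M C)

/-- Models of `GBU_R` with the axiom of choice for sets: the basic axioms, Class Extensionality,
predicative Class Comprehension, and Separation and Replacement in class form. -/
structure GBUR : Prop extends BaseAxioms M where
  classExt : ∀ X Y : C, (∀ z, η z X ↔ η z Y) → X = Y
  comprehension : ∀ S : Set M, PredicativelyDefinable η S → ∃ X : C, ∀ z, η z X ↔ z ∈ S
  separation : ∀ (X : C) (x : M), IsSet x → ∃ y, IsSet y ∧ ∀ z, Mem z y ↔ Mem z x ∧ η z X
  replacement : ∀ (F : C) (a : M), IsSet a → (∀ x, Mem x a → ∃! y, PairInClass η F x y) →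
    ∃ b, IsSet b ∧ ∀ y, Mem y b ↔ ∃ x, Mem x a ∧ PairInClass η F x y

/-- Global Choice: there is a class function `G` with `G(x) ∈ x` for every nonempty set `x`. -/
def GlobalChoice : Prop :=
  ∃ G : C, (∀ p, η p G → ∃ x y, IsOrdPair p x y) ∧
    (∀ x y y', PairInClass η G x y → PairInClass η G x y' → y = y') ∧
    ∀ x : M, IsSet x → (∃ y, Mem y x) → ∃ y, PairInClass η G x y ∧ Mem y x

end

end Pool.Agent.H839R3
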