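import Pool.Agent.H839R3.Hom

/-!
# The distributivity theorem
-/

namespace Pool.Agent.H839R3

open FirstOrder FirstOrder.Language
open Pool.Agent.Helper672.ZFA

universe u

variable {M : Type u} [L.Structure M] [hM : ZM M]

theorem Lev.over {E s : M} (h : Lev E s) : Over E s := Or.inr ⟨h.1, s, h, fun _ => id⟩

theorem Over.lev {E x : M} (hE : Ur E) (hx : Over E x) : ∃ t, Lev E t ∧ MSub x t := by
  rcases hx with ⟨h1, -⟩ | ⟨-, s, h1, h2⟩
  · exact ⟨E, lev_self hE, fun z hz => absurd (hM.atoms z x hz) h1⟩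
  · exact ⟨s, h1, h2⟩

theorem Over.lev_mem {E x : M} (hE : Ur E) (hx : Over E x) : ∃ t, Lev E t ∧ Mem x t := by
  obtain ⟨t, h1, h2⟩ := (over_up hE hx hx).lev hE
  exact ⟨t, h1, h2 x (mem_up.2 (Or.inl rfl))⟩

theorem Lev.sub_of_mem {E s t : M} (hE : Ur E) (ht : Lev E t) (h : Mem s t) : MSub s t :=
  fun _ hz => ht.trans hE h hz

theorem Lev.join {E s t : M} (hE : Ur E) (hs : Lev E s) (ht : Lev E t) :
    ∃ u, Lev E u ∧ MSub s u ∧ MSub t u := by
  rcases Lev.comp hE s t hs ht with h | rfl | h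
  · exact ⟨t, ht, ht.sub_of_mem hE h, fun _ => id⟩
  · exact ⟨s, hs, fun _ => id, fun _ => id⟩
  · exact ⟨s, hs, fun _ => id, hs.sub_of_mem hE h⟩

/-- Collection for levels. -/
theorem lev_coll {E : M} (hE : Ur E) (B : M) {P : M → M → Prop}
    (hP : D (fun v : Fin 2 → M => P (v 0) (v 1)))
    (hmono : ∀ z t t', P z t → MSub t t' → P z t')
    (h : ∀ z, Mem z B → ∃ t, Lev E t ∧ P z t) : ∃ t, Lev E t ∧ ∀ z, Mem z B → P z t := by
  obtain ⟨b, hb0, hb⟩ := hM.repl (fun z s => Lev E s ∧ P z s ∧ ∀ q, Mem q s → Lev E q → ¬ P z q)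
    (D.and (D.lev (DF.const _) (DF.var _)) (D.and (D.subst₂ hP (DF.var _) (DF.var _))
      (D.all (D.imp (D.memf (DF.var _) (DF.var _)) (D.imp (D.lev (DF.const _) (DF.var _))
        (D.not (D.subst₂ hP (DF.var _) (DF.var _)))))))) B fun z hz => by
      obtain ⟨t, h1, h2⟩ := h z hz
      exact Lev.least hE (S := fun t => P z t) (D.subst₂ hP (DF.const _) (DF.var _)) h1 h2
  have h1 : Over E b := over_of hE hb0 fun s hs => by
    obtain ⟨z, -, h2, -⟩ := (hb s).1 hs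
    exact h2.over
  obtain ⟨t, h2, h3⟩ := h1.lev hE
  refine ⟨t, h2, fun z hz => ?_⟩
  obtain ⟨t', h4, h5⟩ := h z hz
  obtain ⟨s, h6, -⟩ := Lev.least hE (S := fun t => P z t)
    (D.subst₂ hP (DF.const _) (DF.var _)) h4 h5
  exact hmono z s t h6.2.1 (h2.sub_of_mem hE (h3 s ((hb s).2 ⟨z, hz, h6⟩)))

/-- `q` decides the value at `x`. -/
def Rd (Φ : M → M → M → Prop) (x q : M) : Prop :=
  (∃ y, Φ x y q) ∨ ∀ r, Cond r → MSub q r → ∀ y, ¬ Φ x y r

theorem Rd.mono {Φ : M → M → M → Prop} (hΦ : Nm Φ) {x q q' : M} (h : Rd Φ x q)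
    (h1 : MSub q q') (h2 : Cond q') : Rd Φ x q' := by
  rcases h with ⟨y, hy⟩ | h
  · exact Or.inl ⟨y, hΦ.mono _ _ _ _ hy h1 h2⟩
  · exact Or.inr fun r hr h3 => h r hr fun z hz => h3 z (h1 z hz)

theorem D.rd {Φ : M → M → M → Prop} (hΦ : Nm Φ) {ι : Type} {f g : (ι → M) → M} (hf : DF f)
    (hg : DF g) : D (fun v => Rd Φ (f v) (g v)) := by
  unfold Rd
  exact D.or (D.ex (D.subst₃ hΦ.dfn hf.lift (DF.var _) hg.lift)) (D.all (D.imp
    (D.cond (DF.var _)) (D.imp (D.msub hg.lift (DF.var _)) (D.all (D.not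
      (D.subst₃ hΦ.dfn hf.lift.lift (DF.var _) (DF.var _)))))))

theorem Nm.dense {Φ : M → M → M → Prop} (hΦ : Nm Φ) {E : M} (hE : Stable E) (hs : Supp E Φ)
    {p x q : M} (hx : Over E x)
    (hf : ∀ q y y', Cond q → MSub p q → Φ x y q → Φ x y' q → y = y')
    (hq : Cond q) (hpq : MSub p q) (hqE : Over E q) :
    ∃ q', Cond q' ∧ MSub q q' ∧ Over E q' ∧ Rd Φ x q' := by
  by_cases h : ∀ r, Cond r → MSub q r → ∀ y, ¬ Φ x y r
  · exact ⟨q, hq, fun _ => id, hqE, Or.inr h⟩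
  · push Not at h
    obtain ⟨r, h1, h2, y, h3⟩ := h
    have hy : Over E y := hΦ.over hE hs hx hf h1 (fun z hz => h2 z (hpq z hz)) h3
    exact ⟨rs E r, h1.rs E, fun z hz => mem_rs.2 ⟨h2 z hz, hqE.mem hE.1 hz⟩, over_rs hE.1 r,
      Or.inl ⟨y, hΦ.restrict hE hs hx hy h1 h3⟩⟩

/-- The union of a chain of conditions. -/
theorem exists_chain {p g : M} (hp : Cond p) (h1 : ∀ u, Mem u g → Cond u)
    (h2 : ∀ u, Mem u g → MSub p u) (h3 : ∀ u v, Mem u g → Mem v g → MSub u v ∨ MSub v u) :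
    ∃ q, Cond q ∧ MSub p q ∧ (∀ u, Mem u g → MSub u q) ∧
      ∀ z, Mem z q → Mem z p ∨ ∃ u, Mem u g ∧ Mem z u := by
  obtain ⟨w, -, hw⟩ := hM.union g
  have h4 := sm_union p w
  have h5 : ∀ z, Mem z h4.elt → Mem z p ∨ ∃ u, Mem u g ∧ Mem z u := by
    intro z hz
    rcases h4.mem.1 hz with h | h
    · exact Or.inl h
    · exact Or.inr ((hw z).1 h)
  refine ⟨h4.elt, ⟨h4.isSet, fun z hz => ?_, fun x y y' h6 h7 => ?_⟩, fun z hz =>
    h4.mem.2 (Or.inl hz), fun u hu z hz => h4.mem.2 (Or.inr ((hw z).2 ⟨u, hu, hz⟩)), h5⟩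
  · rcases h5 z hz with h | ⟨u, hu, h⟩
    · exact hp.2.1 z h
    · exact (h1 u hu).2.1 z h
  · rcases h5 _ h6 with h | ⟨u, hu, h⟩ <;> rcases h5 _ h7 with h' | ⟨u', hu', h'⟩
    · exact hp.2.2 x y y' h h'
    · exact (h1 u' hu').2.2 x y y' (h2 u' hu' _ h) h'
    · exact (h1 u hu).2.2 x y y' h (h2 u hu _ h')
    · rcases h3 u u' hu hu' with h8 | h8
      · exact (h1 u' hu').2.2 x y y' (h8 _ h) h'
      · exact (h1 u hu).2.2 x y y' h (h8 _ h')

/-- The next level. -/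
def NR (Φ : M → M → M → Prop) (p a g t : M) : Prop :=
  (∀ w, Mem w g → MSub w t) ∧ ∀ x q, Mem x a → Cond q → MSub p q →
    (∀ z, Mem z q → Mem z p ∨ ∃ w, Mem w g ∧ Mem z w) →
      ∃ q', Mem q' t ∧ Cond q' ∧ MSub q q' ∧ Rd Φ x q'

theorem D.nr {Φ : M → M → M → Prop} (hΦ : Nm Φ) {ι : Type} {p a f g : (ι → M) → M} (hp : DF p)
    (ha : DF a) (hf : DF f) (hg : DF g) : D (fun v => NR Φ (p v) (a v) (f v) (g v)) := by
  unfold NR
  refine D.and (D.all (D.imp (D.memf (DF.var _) hf.lift) (D.msub (DF.var _) hg.lift)))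
    (D.all (D.all (D.imp (D.memf (DF.var _) ha.lift.lift) (D.imp (D.cond (DF.var _)) (D.imp
    (D.msub hp.lift.lift (DF.var _)) (D.imp (D.all (D.imp (D.memf (DF.var _) (DF.var _))
    (D.or (D.memf (DF.var _) hp.lift.lift.lift) (D.ex (D.and
      (D.memf (DF.var _) hf.lift.lift.lift.lift) (D.memf (DF.var _) (DF.var _)))))))
    (D.ex (D.and (D.memf (DF.var _) hg.lift.lift.lift) (D.and (D.cond (DF.var _)) (D.and
      (D.msub (DF.var _) (DF.var _)) (D.rd hΦ (DF.var _) (DF.var _)))))))))))) 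

theorem exists_NR {Φ : M → M → M → Prop} (hΦ : Nm Φ) {E : M} (hE : Stable E) (hs : Supp E Φ)
    {p a g : M} (hp : Over E p) (hgE : Over E g) (ha : Over E a)
    (hf : ∀ x, Mem x a → ∀ q y y', Cond q → MSub p q → Φ x y q → Φ x y' q → y = y') :
    ∃ t, Lev E t ∧ NR Φ p a g t := by
  obtain ⟨w, hw0, hw⟩ := hM.union g
  have hwE : Over E w := over_of hE.1 hw0 fun z hz => by
    obtain ⟨y, h1, h2⟩ := (hw z).1 hz
    exact (hgE.mem hE.1 h1).mem hE.1 h2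
  have hs1 := sm_union p w
  obtain ⟨t2, h1, h2⟩ := hwE.lev hE.1
  obtain ⟨t1, h3, h4⟩ := lev_coll hE.1 (small_prod a (small_power hs1.elt).elt).elt
    (P := fun z t => ∀ x q, z = op x q → Mem x a → Cond q → MSub p q →
      (∀ z, Mem z q → Mem z hs1.elt) → ∃ q', Mem q' t ∧ Cond q' ∧ MSub q q' ∧ Rd Φ x q')
    (D.all (D.all (D.imp (D.eqf (DF.var _) (DF.op (DF.var _) (DF.var _))) (D.imp
      (D.memf (DF.var _) (DF.const _)) (D.imp (D.cond (DF.var _)) (D.imp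
      (D.msub (DF.const _) (DF.var _)) (D.imp (D.all (D.imp (D.memf (DF.var _) (DF.var _))
        (D.memf (DF.var _) (DF.const _)))) (D.ex (D.and (D.memf (DF.var _) (DF.var _)) (D.and
        (D.cond (DF.var _)) (D.and (D.msub (DF.var _) (DF.var _)) (D.rd hΦ (DF.var _)
        (DF.var _)))))))))))))
    (fun z t t' h3 h4 x q h5 h6 h7 h8 h9 => by
      obtain ⟨q', h10, h11⟩ := h3 x q h5 h6 h7 h8 h9
      exact ⟨q', h4 _ h10, h11⟩)
    (fun z hz => by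
      obtain ⟨x, q, h5, h6, rfl⟩ := (small_prod _ _).mem.1 hz
      by_cases h7 : Cond q ∧ MSub p q
      · obtain ⟨h8, h9⟩ := (small_power _).mem.1 h6
        have hq : Over E q := over_of hE.1 h8 fun z hz => by
          rcases hs1.mem.1 (h9 z hz) with h | h
          · exact hp.mem hE.1 h
          · exact hwE.mem hE.1 h
        obtain ⟨q', h10, h11, h12, h13⟩ := hΦ.dense hE hs (ha.mem hE.1 h5) (hf x h5) h7.1 h7.2 hq
        obtain ⟨t, h14, h15⟩ := h12.lev_mem hE.1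
        refine ⟨t, h14, fun x' q'' h16 _ _ _ _ => ?_⟩
        obtain ⟨rfl, rfl⟩ := op_inj h16
        exact ⟨q', h15, h10, h11, h13⟩
      · refine ⟨E, lev_self hE.1, fun x' q'' h16 _ h17 h18 _ => ?_⟩
        obtain ⟨rfl, rfl⟩ := op_inj h16
        exact absurd ⟨h17, h18⟩ h7)
  obtain ⟨t, h5, h6, h7⟩ := h3.join hE.1 h1
  refine ⟨t, h5, fun u hu z hz => h7 z (h2 z ((hw z).2 ⟨u, hu, hz⟩)), fun x q h8 h9 h10 h11 => ?_⟩
  have h12 : ∀ z, Mem z q → Mem z hs1.elt := by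
    intro z hz
    rcases h11 z hz with h | ⟨u, h, h'⟩
    · exact hs1.mem.2 (Or.inl h)
    · exact hs1.mem.2 (Or.inr ((hw z).2 ⟨u, h, h'⟩))
  obtain ⟨q', h13, h14, h15, h16⟩ := h4 (op x q) ((small_prod _ _).mem.2 ⟨x, q, h8,
    (small_power _).mem.2 ⟨h9.1, h12⟩, rfl⟩) x q rfl h8 h9 h10 h12
  exact ⟨q', h6 _ h13, h14, h15, h16⟩

/-- Candidates for the value at `j`. -/
def Cd (Φ : M → M → M → Prop) (p H j g y : M) : Prop :=
  (∃ s, Mem (op j s) H ∧ Mem y s) ∧ Cond y ∧ MSub p y ∧ (∀ z, Mem z g → MSub z y) ∧ Rd Φ j y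

theorem D.cd {Φ : M → M → M → Prop} (hΦ : Nm Φ) {ι : Type} {p H : M} {j g y : (ι → M) → M}
    (hj : DF j) (hg : DF g) (hy : DF y) : D (fun v => Cd Φ p H (j v) (g v) (y v)) := by
  unfold Cd
  exact D.and (D.ex (D.and (D.memf (DF.op hj.lift (DF.var _)) (DF.const _)) (D.memf hy.lift
    (DF.var _)))) (D.and (D.cond hy) (D.and (D.msub (DF.const _) hy) (D.and (D.all (D.imp
      (D.memf (DF.var _) hg.lift) (D.msub (DF.var _) hy.lift))) (D.rd hΦ hj hy))))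

/-- Distributivity. -/
theorem Nm.dist {Φ : M → M → M → Prop} (hΦ : Nm Φ) {p a : M} (hp : Cond p)
    (hf : ∀ x, Mem x a → ∀ q y y', Cond q → MSub p q → Φ x y q → Φ x y' q → y = y') :
    ∃ q, Cond q ∧ MSub p q ∧ ∀ x, Mem x a → Rd Φ x q := by
  obtain ⟨E1, hE1, hs1⟩ := hΦ.sym
  obtain ⟨E2, hE2, hE2'⟩ := exists_over (up a p)
  obtain ⟨E, hE, hE'⟩ := exists_stable_over (ur_union hE1 hE2)
  have hs : Supp E Φ := Supp.mono hE1 hE.1 (fun z hz => hE' z ((sm_union _ _).mem.2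
    (Or.inl hz))) hs1
  have hE3 : Over E (up a p) := Over.mono hE2 hE.1 (fun z hz => hE' z ((sm_union _ _).mem.2
    (Or.inr hz))) _ hE2'
  have haE : Over E a := hE3.mem hE.1 (mem_up.2 (Or.inl rfl))
  have hpE : Over E p := hE3.mem hE.1 (mem_up.2 (Or.inr rfl))
  obtain ⟨r, hr⟩ := exists_WO a
  -- the sequence of levels
  obtain ⟨H, -, hH1, hH⟩ := hr.recursion (F := fun _ g t =>
      (Lev E t ∧ NR Φ p a g t ∧ ∀ q, Mem q t → Lev E q → ¬ NR Φ p a g q) ∨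
      (¬ (∃ t, Lev E t ∧ NR Φ p a g t) ∧ t = E))
    (D.or (D.and (D.lev (DF.const _) (DF.var _)) (D.and (D.nr hΦ (DF.const _) (DF.const _)
      (DF.var _) (DF.var _)) (D.all (D.imp (D.memf (DF.var _) (DF.var _)) (D.imp
      (D.lev (DF.const _) (DF.var _)) (D.not (D.nr hΦ (DF.const _) (DF.const _)
      (DF.var _) (DF.var _)))))))) (D.and (D.not (D.ex (D.and (D.lev (DF.const _) (DF.var _))
      (D.nr hΦ (DF.const _) (DF.const _) (DF.var _) (DF.var _))))) (D.eqf (DF.var _)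
      (DF.const _)))) (by
    intro j g _
    by_cases h : ∃ t, Lev E t ∧ NR Φ p a g t
    · obtain ⟨t, h1, h2⟩ := h
      obtain ⟨s, h3, h4⟩ := Lev.least hE.1 (S := fun t => NR Φ p a g t)
        (D.nr hΦ (DF.const _) (DF.const _) (DF.const _) (DF.var _)) h1 h2
      refine ⟨s, Or.inl h3, ?_⟩
      rintro y (h5 | ⟨h5, -⟩)
      · exact h4 y h5
      · exact absurd ⟨t, h1, h2⟩ h5
    · refine ⟨E, Or.inr ⟨h, rfl⟩, ?_⟩
      rintro y (h5 | ⟨-, h5⟩)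
      · exact absurd ⟨y, h5.1, h5.2.1⟩ h
      · exact h5)
  have v1 : ∀ j, Mem j a → ∀ t, Mem (op j t) H → Lev E t := by
    intro j hj t ht
    obtain ⟨y, g, -, h2, h3⟩ := hH j hj
    obtain rfl := (h3 t).1 ht
    rcases h2 with h4 | ⟨-, rfl⟩
    · exact h4.1
    · exact lev_self hE.1
  have v2 : ∀ j, Mem j a → ∃ t g, Prev r a H j g ∧ NR Φ p a g t ∧
      ∀ t', Mem (op j t') H ↔ t' = t := by
    intro j hj
    obtain ⟨y, g, h1, h2, h3⟩ := hH j hj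
    refine ⟨y, g, h1, ?_, h3⟩
    have hg : Over E g := over_of hE.1 h1.1 fun t ht => by
      obtain ⟨i, h4, -, h5⟩ := (h1.2 t).1 ht
      exact (v1 i h4 t h5).over
    rcases h2 with h4 | ⟨h4, -⟩
    · exact h4.2.1
    · exact absurd (exists_NR hΦ hE hs hpE hg haE hf) h4
  -- a well-ordering of all the levels
  obtain ⟨b, -, hb⟩ := hM.repl (fun j t => Mem (op j t) H) (D.memf (DF.op (DF.var _) (DF.var _))
    (DF.const _)) a fun j hj => by
      obtain ⟨t, g, -, -, h⟩ := v2 j hj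
      exact ⟨t, (h t).2 rfl, fun t' ht' => (h t').1 ht'⟩
  obtain ⟨V, -, hV⟩ := hM.union b
  obtain ⟨w, hw⟩ := exists_WO V
  have hCdV : ∀ j g y, Mem j a → Cd Φ p H j g y → Mem y V := by
    rintro j g y hj ⟨⟨s, h1, h2⟩, -⟩
    exact (hV y).2 ⟨s, (hb s).2 ⟨j, hj, h1⟩, h2⟩
  obtain ⟨K, -, hK1, hK⟩ := hr.recursion (F := fun j g y =>
      (Cd Φ p H j g y ∧ ∀ y', Cd Φ p H j g y' → ¬ Mem (op y' y) w) ∨
      (¬ (∃ y, Cd Φ p H j g y) ∧ y = E))
    (D.or (D.and (D.cd hΦ (DF.var _) (DF.var _) (DF.var _)) (D.all (D.imp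
      (D.cd hΦ (DF.var _) (DF.var _) (DF.var _)) (D.not (D.memf (DF.op (DF.var _) (DF.var _))
      (DF.const _)))))) (D.and (D.not (D.ex (D.cd hΦ (DF.var _) (DF.var _) (DF.var _))))
      (D.eqf (DF.var _) (DF.const _)))) (by
    intro j g hj
    by_cases h : ∃ y, Cd Φ p H j g y
    · obtain ⟨y, h1⟩ := h
      obtain ⟨z, h2, h3, h4⟩ := hw.least (fun y => Cd Φ p H j g y) (D.cd hΦ (DF.const _)
        (DF.const _) (DF.var _)) ⟨y, hCdV j g y hj h1, h1⟩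
      refine ⟨z, Or.inl ⟨h3, fun y' h5 => h4 y' (hCdV j g y' hj h5) h5⟩, ?_⟩
      rintro y' (⟨h5, h6⟩ | ⟨h5, -⟩)
      · rcases hw.total z y' h2 (hCdV j g y' hj h5) with h7 | h7 | h7
        · exact absurd h7 (h6 z h3)
        · exact h7.symm
        · exact absurd h7 (h4 y' (hCdV j g y' hj h5) h5)
      · exact absurd ⟨y, h1⟩ h5
    · refine ⟨E, Or.inr ⟨h, rfl⟩, ?_⟩
      rintro y' (⟨h5, -⟩ | ⟨-, h5⟩)
      · exact absurd ⟨y', h5⟩ h
      · exact h5)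
  -- good values
  have key : ∀ j, Mem j a → ∀ y, Mem (op j y) K → (∃ s, Mem (op j s) H ∧ Mem y s) ∧ Cond y ∧
      MSub p y ∧ (∀ i z, Mem i a → Mem (op i j) r → Mem (op i z) K → MSub z y) ∧ Rd Φ j y := by
    refine hr.ind (fun j => ∀ y, Mem (op j y) K → (∃ s, Mem (op j s) H ∧ Mem y s) ∧ Cond y ∧
      MSub p y ∧ (∀ i z, Mem i a → Mem (op i j) r → Mem (op i z) K → MSub z y) ∧ Rd Φ j y)
      (D.all (D.imp (D.memf (DF.op (DF.var _) (DF.var _)) (DF.const _)) (D.and (D.ex (D.and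
        (D.memf (DF.op (DF.var _) (DF.var _)) (DF.const _)) (D.memf (DF.var _) (DF.var _))))
        (D.and (D.cond (DF.var _)) (D.and (D.msub (DF.const _) (DF.var _)) (D.and (D.all (D.all
          (D.imp (D.memf (DF.var _) (DF.const _)) (D.imp (D.memf (DF.op (DF.var _) (DF.var _))
          (DF.const _)) (D.imp (D.memf (DF.op (DF.var _) (DF.var _)) (DF.const _))
          (D.msub (DF.var _) (DF.var _))))))) (D.rd hΦ (DF.var _) (DF.var _)))))))) ?_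
    intro j hj ih y hy
    obtain ⟨y0, g, hg, hF, h1⟩ := hK j hj
    obtain rfl := (h1 y).1 hy
    obtain ⟨t, g', hg', hN, h2⟩ := v2 j hj
    obtain ⟨q, hq1, hq2, hq3, hq4⟩ := exists_chain (p := p) (g := g) hp
      (fun u hu => by
        obtain ⟨i, h3, h4, h5⟩ := (hg.2 u).1 hu
        exact (ih i h3 h4 u h5).2.1)
      (fun u hu => by
        obtain ⟨i, h3, h4, h5⟩ := (hg.2 u).1 hu
        exact (ih i h3 h4 u h5).2.2.1)
      (fun u v hu hv => by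
        obtain ⟨i, h3, h4, h5⟩ := (hg.2 u).1 hu
        obtain ⟨k, h6, h7, h8⟩ := (hg.2 v).1 hv
        rcases hr.total i k h3 h6 with h9 | rfl | h9
        · exact Or.inl ((ih k h6 h7 v h8).2.2.2.1 i u h3 h9 h5)
        · obtain ⟨z, g'', -, -, h10⟩ := hK i h3
          obtain rfl := (h10 u).1 h5
          obtain rfl := (h10 v).1 h8
          exact Or.inl fun _ => id
        · exact Or.inr ((ih i h3 h4 u h5).2.2.2.1 k v h6 h9 h8))
    have h3 : ∀ z, Mem z q → Mem z p ∨ ∃ w, Mem w g' ∧ Mem z w := by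
      intro z hz
      rcases hq4 z hz with h | ⟨u, hu, h⟩
      · exact Or.inl h
      · obtain ⟨i, h3, h4, h5⟩ := (hg.2 u).1 hu
        obtain ⟨s, h6, h7⟩ := (ih i h3 h4 u h5).1
        exact Or.inr ⟨s, (hg'.2 s).2 ⟨i, h3, h4, h6⟩, (v1 i h3 s h6).trans hE.1 h7 h⟩
    obtain ⟨q', h4, h5, h6, h7⟩ := hN.2 j q hj hq1 hq2 h3
    have h8 : Cd Φ p H j g q' := ⟨⟨t, (h2 t).2 rfl, h4⟩, h5, fun z hz => h6 z (hq2 z hz),
      fun u hu z hz => h6 z (hq3 u hu z hz), h7⟩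
    rcases hF with ⟨h9, -⟩ | ⟨h9, -⟩
    · refine ⟨h9.1, h9.2.1, h9.2.2.1, fun i z h10 h11 h12 => ?_, h9.2.2.2.2⟩
      exact h9.2.2.2.1 z ((hg.2 z).2 ⟨i, h10, h11, h12⟩)
    · exact absurd ⟨q', h8⟩ h9
  -- the union
  obtain ⟨c, -, hc⟩ := hM.repl (fun j t => Mem (op j t) K) (D.memf (DF.op (DF.var _) (DF.var _))
    (DF.const _)) a fun j hj => by
      obtain ⟨t, g, -, -, h⟩ := hK j hj
      exact ⟨t, (h t).2 rfl, fun t' ht' => (h t').1 ht'⟩
  obtain ⟨q, hq1, hq2, hq3, -⟩ := exists_chain (p := p) (g := c) hp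
      (fun u hu => by
        obtain ⟨i, h3, h5⟩ := (hc u).1 hu
        exact (key i h3 u h5).2.1)
      (fun u hu => by
        obtain ⟨i, h3, h5⟩ := (hc u).1 hu
        exact (key i h3 u h5).2.2.1)
      (fun u v hu hv => by
        obtain ⟨i, h3, h5⟩ := (hc u).1 hu
        obtain ⟨k, h6, h8⟩ := (hc v).1 hv
        rcases hr.total i k h3 h6 with h9 | rfl | h9
        · exact Or.inl ((key k h6 v h8).2.2.2.1 i u h3 h9 h5)
        · obtain ⟨z, g'', -, -, h10⟩ := hK i h3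
          obtain rfl := (h10 u).1 h5
          obtain rfl := (h10 v).1 h8
          exact Or.inl fun _ => id
        · exact Or.inr ((key i h3 u h5).2.2.2.1 k v h6 h9 h8))
  refine ⟨q, hq1, hq2, fun j hj => ?_⟩
  obtain ⟨y, g, -, -, h1⟩ := hK j hj
  have h2 : Mem (op j y) K := (h1 y).2 rfl
  exact (key j hj y h2).2.2.2.2.mono hΦ (hq3 y ((hc y).2 ⟨j, hj, h2⟩)) hq1

end Pool.Agent.H839R3
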