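import Pool.Agent.H839R3.Dist

/-!
# The language with a symbol for the generic class, and the forcing relation
-/

namespace Pool.Agent.H839R3

open FirstOrder FirstOrder.Language
open Pool.Agent.Helper672.ZFA

universe u v

/-- The relation symbols: being a set, membership, and the generic function. -/
inductive GSym : ℕ → Type
  | isSet : GSym 1
  | mem : GSym 2
  | gen : GSym 2

/-- The language of set theory with urelements and a binary predicate. -/
def LG : FirstOrder.Language.{0, 0} := ⟨fun _ => Empty, GSym⟩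

instance : Countable LG.Symbols := by
  have hc : Countable (Σ l, LG.Functions l) :=
    ⟨⟨fun x => Empty.elim x.2, fun x => Empty.elim x.2⟩⟩
  have hc' : Countable (Σ l, LG.Relations l) := by
    have h : ∀ l, Countable (LG.Relations l) := by
      intro l
      let f : GSym l → ℕ := fun r => match r with
        | .isSet => 0
        | .mem => 1
        | .gen => 2
      have hf : Function.Injective f := by
        intro r r' h
        cases r <;> cases r' <;> first | rfl | (simp [f] at h)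
      exact hf.countable
    infer_instance
  exact inferInstanceAs (Countable ((Σ l, LG.Functions l) ⊕ (Σ l, LG.Relations l)))

section

variable {M : Type u} [L.Structure M]

/-- The structure given by a binary relation. -/
@[reducible] def gStr (G : M → M → Prop) : LG.Structure M where
  funMap := fun f => Empty.elim f
  RelMap := fun {_} r v => match r, v with
    | GSym.isSet, v => IsSet (v 0)
    | GSym.mem, v => Mem (v 0) (v 1)
    | GSym.gen, v => G (v 0) (v 1)

omit [L.Structure M] in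
/-- The value of a term. -/
def tv {β : Type v} : LG.Term β → (β → M) → M
  | .var i, v => v i
  | .func f _, _ => Empty.elim f

theorem tv_eq (G : M → M → Prop) {β : Type v} (t : LG.Term β) (w : β → M) :
    (letI := gStr G; t.realize w) = tv t w := by
  cases t with
  | var i => rfl
  | func f _ => exact Empty.elim f

variable [hM : ZM M]

/-- Forcing an atomic formula. -/
def FA {l : ℕ} (R : LG.Relations l) (x : Fin l → M) (p : M) : Prop := match l, R, x with
  | _, GSym.isSet, x => IsSet (x 0)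
  | _, GSym.mem, x => Mem (x 0) (x 1)
  | _, GSym.gen, x => ∀ q, Cond q → MSub p q → ∃ r, Cond r ∧ MSub q r ∧ Mem (op (x 0) (x 1)) r

/-- The forcing relation. -/
def Force {β : Type v} : ∀ {n}, LG.BoundedFormula β n → (β → M) → (Fin n → M) → M → Prop
  | _, .falsum, _, _, _ => False
  | _, .equal t₁ t₂, v, xs, _ => tv t₁ (Sum.elim v xs) = tv t₂ (Sum.elim v xs)
  | _, .rel R ts, v, xs, p => FA R (fun i => tv (ts i) (Sum.elim v xs)) p
  | _, .imp φ ψ, v, xs, p => ∀ q, Cond q → MSub p q → Force φ v xs q → Force ψ v xs q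
  | _, .all φ, v, xs, p => ∀ x, Force φ v (Fin.snoc xs x) p

theorem FA.mono {l : ℕ} (R : LG.Relations l) (x : Fin l → M) {p q : M} (h : FA R x p)
    (hpq : MSub p q) : FA R x q := by
  cases R with
  | isSet => exact h
  | mem => exact h
  | gen => exact fun r h1 h2 => h r h1 fun z hz => h2 z (hpq z hz)

theorem FA.reg {l : ℕ} (R : LG.Relations l) (x : Fin l → M) {p : M} (hp : Cond p)
    (h : ∀ q, Cond q → MSub p q → ∃ r, Cond r ∧ MSub q r ∧ FA R x r) : FA R x p := by
  cases R with
  | isSet =>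
    obtain ⟨r, -, -, h1⟩ := h p hp fun _ => id
    exact h1
  | mem =>
    obtain ⟨r, -, -, h1⟩ := h p hp fun _ => id
    exact h1
  | gen =>
    intro q h1 h2
    obtain ⟨r, h3, h4, h5⟩ := h q h1 h2
    obtain ⟨s, h6, h7, h8⟩ := h5 r h3 fun _ => id
    exact ⟨s, h6, fun z hz => h7 z (h4 z hz), h8⟩

theorem Force.mono {β : Type v} {n : ℕ} (φ : LG.BoundedFormula β n) (v : β → M) (xs : Fin n → M)
    {p q : M} (h : Force φ v xs p) (hpq : MSub p q) : Force φ v xs q := by
  induction φ with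
  | falsum => exact h
  | equal t₁ t₂ => exact h
  | rel R ts => exact FA.mono R _ h hpq
  | imp φ ψ _ _ => exact fun r h1 h2 => h r h1 fun z hz => h2 z (hpq z hz)
  | all φ ih => exact fun x => ih _ (h x)

theorem Force.reg {β : Type v} {n : ℕ} (φ : LG.BoundedFormula β n) (v : β → M) (xs : Fin n → M)
    {p : M} (hp : Cond p)
    (h : ∀ q, Cond q → MSub p q → ∃ r, Cond r ∧ MSub q r ∧ Force φ v xs r) :
    Force φ v xs p := by
  induction φ generalizing p with
  | falsum =>
    obtain ⟨r, -, -, h1⟩ := h p hp fun _ => id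
    exact h1
  | equal t₁ t₂ =>
    obtain ⟨r, -, -, h1⟩ := h p hp fun _ => id
    exact h1
  | rel R ts => exact FA.reg R _ hp h
  | imp φ ψ _ ih =>
    intro q h1 h2 h3
    refine ih xs h1 fun q' h4 h5 => ?_
    obtain ⟨r, h6, h7, h8⟩ := h q' h4 fun z hz => h5 z (h2 z hz)
    exact ⟨r, h6, h7, h8 r h6 (fun _ => id) (Force.mono φ v xs h3 fun z hz => h7 z (h5 z hz))⟩
  | all φ ih =>
    intro x
    refine ih _ hp fun q h1 h2 => ?_
    obtain ⟨r, h3, h4, h5⟩ := h q h1 h2
    exact ⟨r, h3, h4, h5 x⟩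

/-! ### Definability -/

section

variable {α : Type}

/-- Valuations with parameters. -/
def pv (v : α → M) : (Set.univ : Set M) ⊕ α → M := Sum.elim (fun a => a.1) v

theorem DF.tv {n : ℕ} (t : LG.Term (((Set.univ : Set M) ⊕ α) ⊕ Fin n)) :
    DF (fun w : (α ⊕ Fin n) ⊕ Unit → M => Pool.Agent.H839R3.tv t
      (Sum.elim (pv fun i => w (Sum.inl (Sum.inl i))) (fun i => w (Sum.inl (Sum.inr i))))) := by
  cases t with
  | var i =>
    rcases i with (c | a) | i
    · exact DF.const c.1
    · exact DF.var (Sum.inl (Sum.inl a))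
    · exact DF.var (Sum.inl (Sum.inr i))
  | func f _ => exact Empty.elim f

theorem D.force {n : ℕ} (φ : LG.BoundedFormula ((Set.univ : Set M) ⊕ α) n) :
    D (fun w : (α ⊕ Fin n) ⊕ Unit → M => Force φ (pv fun i => w (Sum.inl (Sum.inl i)))
      (fun i => w (Sum.inl (Sum.inr i))) (w (Sum.inr ()))) := by
  induction φ with
  | @falsum n =>
    have h : D (fun w : (α ⊕ Fin n) ⊕ Unit → M => ¬ (w (Sum.inr ()) = w (Sum.inr ()))) :=
      D.not (D.eqf (DF.var _) (DF.var _))
    refine Eq.mp (congrArg D ?_) h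
    funext w
    exact propext ⟨fun h => absurd rfl h, fun h => h.elim⟩
  | equal t₁ t₂ => exact D.eqf (DF.tv t₁) (DF.tv t₂)
  | rel R ts =>
    cases R with
    | isSet => exact D.isSetf (DF.tv (ts 0))
    | mem => exact D.memf (DF.tv (ts 0)) (DF.tv (ts 1))
    | gen =>
      exact D.all (D.imp (D.cond (DF.var _)) (D.imp (D.msub (DF.var _) (DF.var _)) (D.ex (D.and
        (D.cond (DF.var _)) (D.and (D.msub (DF.var _) (DF.var _)) (D.memf (DF.op
          (DF.tv (ts 0)).lift.lift (DF.tv (ts 1)).lift.lift) (DF.var _)))))))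
  | imp φ ψ ih₁ ih₂ =>
    refine D.all (D.imp (D.cond (DF.var _)) (D.imp (D.msub (DF.var _) (DF.var _)) (D.imp ?_ ?_)))
    · exact ih₁.reindex (Sum.elim (fun i => Sum.inl (Sum.inl i)) fun _ => Sum.inr ())
    · exact ih₂.reindex (Sum.elim (fun i => Sum.inl (Sum.inl i)) fun _ => Sum.inr ())
  | @all n φ ih =>
    refine D.all ?_
    have h := ih.reindex (κ := ((α ⊕ Fin n) ⊕ Unit) ⊕ Unit)
      (Sum.elim (Sum.elim (fun a => Sum.inl (Sum.inl (Sum.inl a)))
        (Fin.snoc (α := fun _ => ((α ⊕ Fin n) ⊕ Unit) ⊕ Unit)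
          (fun i => Sum.inl (Sum.inl (Sum.inr i))) (Sum.inr ()))) (fun _ => Sum.inl (Sum.inr ())))
    refine Eq.mp (congrArg D ?_) h
    funext w
    refine congrArg (fun xs => Force φ (pv fun i => w (Sum.inl (Sum.inl (Sum.inl i)))) xs
      (w (Sum.inl (Sum.inr ())))) ?_
    funext i
    refine Fin.lastCases ?_ (fun i => ?_) i
    · simp
    · simp

/-! ### Automorphisms -/

theorem tv_aut {n : ℕ} (t : LG.Term (((Set.univ : Set M) ⊕ α) ⊕ Fin n)) : ∃ E : M, Ur E ∧
    ∀ π : M → M, (∀ x, Over E x → π x = x) → ∀ (v : α → M) (xs : Fin n → M),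
      tv t (Sum.elim (pv fun i => π (v i)) (fun i => π (xs i))) = π (tv t (Sum.elim (pv v) xs)) := by
  cases t with
  | var i =>
    rcases i with (c | a) | i
    · obtain ⟨E, hE, hE'⟩ := exists_over c.1
      exact ⟨E, hE, fun π h v xs => (h c.1 hE').symm⟩
    · obtain ⟨E, hE, hE'⟩ := exists_over (up (small_empty (M := M)).elt (small_empty (M := M)).elt)
      exact ⟨E, hE, fun π h v xs => rfl⟩
    · obtain ⟨E, hE, hE'⟩ := exists_over (up (small_empty (M := M)).elt (small_empty (M := M)).elt)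
      exact ⟨E, hE, fun π h v xs => rfl⟩
  | func f _ => exact Empty.elim f

theorem ur_join {E E' : M} (hE : Ur E) (hE' : Ur E') : ∃ E'', Ur E'' ∧
    (∀ x, Over E x → Over E'' x) ∧ ∀ x, Over E' x → Over E'' x :=
  ⟨_, ur_union hE hE', Over.mono hE (ur_union hE hE') fun _ hz => (sm_union _ _).mem.2
    (Or.inl hz), Over.mono hE' (ur_union hE hE') fun _ hz => (sm_union _ _).mem.2 (Or.inr hz)⟩

theorem Force.aut {n : ℕ} (φ : LG.BoundedFormula ((Set.univ : Set M) ⊕ α) n) : ∃ E : M, Ur E ∧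
    ∀ π : M → M, Aut π → (∀ x, Over E x → π x = x) → ∀ (v : α → M) (xs : Fin n → M) (p : M),
      Force φ (pv v) xs p → Force φ (pv fun i => π (v i)) (fun i => π (xs i)) (π p) := by
  induction φ with
  | falsum =>
    obtain ⟨E, hE, hE'⟩ := exists_over (up (small_empty (M := M)).elt (small_empty (M := M)).elt)
    exact ⟨E, hE, fun π hπ h v xs p h1 => h1⟩
  | equal t₁ t₂ =>
    obtain ⟨E₁, h1, h2⟩ := tv_aut t₁
    obtain ⟨E₂, h3, h4⟩ := tv_aut t₂
    obtain ⟨E, hE, h5, h6⟩ := ur_join h1 h3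
    refine ⟨E, hE, fun π hπ h v xs p h7 => ?_⟩
    change tv t₁ _ = tv t₂ _
    rw [h2 π (fun x hx => h x (h5 x hx)), h4 π (fun x hx => h x (h6 x hx))]
    exact congrArg π h7
  | rel R ts =>
    cases R with
    | isSet =>
      obtain ⟨E₁, h1, h2⟩ := tv_aut (ts 0)
      refine ⟨E₁, h1, fun π hπ h v xs p h7 => ?_⟩
      change IsSet (tv (ts 0) _)
      rw [h2 π h, hπ.isSet]
      exact h7
    | mem =>
      obtain ⟨E₁, h1, h2⟩ := tv_aut (ts 0)
      obtain ⟨E₂, h3, h4⟩ := tv_aut (ts 1)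
      obtain ⟨E, hE, h5, h6⟩ := ur_join h1 h3
      refine ⟨E, hE, fun π hπ h v xs p h7 => ?_⟩
      change Mem (tv (ts 0) _) (tv (ts 1) _)
      rw [h2 π (fun x hx => h x (h5 x hx)), h4 π (fun x hx => h x (h6 x hx)), hπ.mem]
      exact h7
    | gen =>
      obtain ⟨E₁, h1, h2⟩ := tv_aut (ts 0)
      obtain ⟨E₂, h3, h4⟩ := tv_aut (ts 1)
      obtain ⟨E, hE, h5, h6⟩ := ur_join h1 h3
      refine ⟨E, hE, fun π hπ h v xs p h7 => ?_⟩
      change ∀ q, Cond q → MSub (π p) q → ∃ r, Cond r ∧ MSub q r ∧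
        Mem (op (tv (ts 0) _) (tv (ts 1) _)) r
      rw [h2 π (fun x hx => h x (h5 x hx)), h4 π (fun x hx => h x (h6 x hx)), ← hπ.op]
      intro q hq hpq
      have h8 := hπ.sub hpq
      rw [hπ.invol] at h8
      obtain ⟨r, h9, h10, h11⟩ := h7 (π q) (hπ.cond hq) h8
      refine ⟨π r, hπ.cond h9, ?_, (hπ.mem _ _).2 h11⟩
      have h12 := hπ.sub h10
      rwa [hπ.invol] at h12
  | imp φ ψ ih₁ ih₂ =>
    obtain ⟨E₁, h1, h2⟩ := ih₁
    obtain ⟨E₂, h3, h4⟩ := ih₂
    obtain ⟨E, hE, h5, h6⟩ := ur_join h1 h3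
    refine ⟨E, hE, fun π hπ h v xs p h7 q hq hpq h8 => ?_⟩
    have h9 := hπ.sub hpq
    rw [hπ.invol] at h9
    have h10 := h2 π hπ (fun x hx => h x (h5 x hx)) _ _ _ h8
    simp only [hπ.invol] at h10
    have h11 := h7 (π q) (hπ.cond hq) h9 h10
    have h12 := h4 π hπ (fun x hx => h x (h6 x hx)) _ _ _ h11
    rwa [hπ.invol] at h12
  | @all n φ ih =>
    obtain ⟨E, hE, h1⟩ := ih
    refine ⟨E, hE, fun π hπ h v xs p h2 x => ?_⟩
    have h3 := h1 π hπ h v _ p (h2 (π x))
    refine Eq.mp (congrArg (fun xs => Force φ (pv fun i => π (v i)) xs (π p)) ?_) h3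
    funext i
    refine Fin.lastCases ?_ (fun i => ?_) i
    · simp [hπ.invol]
    · simp

/-- The forcing relation for a formula with two free variables. -/
theorem Force.nm (φ : LG.Formula ((Set.univ : Set M) ⊕ Fin 2)) :
    Nm (fun x y q => Force φ (pv ![x, y]) default q) where
  dfn := by
    have h := (D.force φ).reindex (κ := Fin 3)
      (Sum.elim (Sum.elim ![0, 1] (fun i => i.elim0)) fun _ => 2)
    refine Eq.mp (congrArg D ?_) h
    funext w
    have h1 : (fun i => w (![0, 1] i)) = ![w 0, w 1] := by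
      funext i
      fin_cases i <;> rfl
    change Force φ (pv fun i => w (![0, 1] i)) _ (w 2) = _
    rw [h1]
    congr 1
    exact Subsingleton.elim _ _
  mono x y q q' h h1 _ := Force.mono φ _ _ h h1
  reg x y q hq h := Force.reg φ _ _ hq h
  sym := by
    obtain ⟨E, hE, h⟩ := Force.aut φ
    refine ⟨E, hE, fun π hπ hfix x y q h1 => ?_⟩
    have h2 := h π hπ hfix _ _ _ h1
    have h3 : (fun i => π ((![x, y] : Fin 2 → M) i)) = ![π x, π y] := by
      funext i
      fin_cases i <;> rfl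
    rw [h3] at h2
    have h4 : (fun i => π ((default : Fin 0 → M) i)) = default := Subsingleton.elim _ _
    rwa [h4] at h2

/-- The forcing relation for a formula with one free variable, as a functional relation. -/
theorem Force.nm₁ (φ : LG.Formula ((Set.univ : Set M) ⊕ Fin 1)) :
    Nm (fun x y q => y = x ∧ Force φ (pv fun _ => x) default q) where
  dfn := by
    refine D.and (D.eqf (DF.var _) (DF.var _)) ?_
    have h := (D.force φ).reindex (κ := Fin 3)
      (Sum.elim (Sum.elim (fun _ => 0) (fun i => i.elim0)) fun _ => 2)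
    refine Eq.mp (congrArg D ?_) h
    funext w
    change Force φ (pv fun _ => w 0) _ (w 2) = _
    congr 1
    exact Subsingleton.elim _ _
  mono x y q q' h h1 _ := ⟨h.1, Force.mono φ _ _ h.2 h1⟩
  reg x y q hq h := by
    obtain ⟨r, -, -, h1, -⟩ := h q hq fun _ => id
    refine ⟨h1, Force.reg φ _ _ hq fun q' h2 h3 => ?_⟩
    obtain ⟨r, h4, h5, -, h6⟩ := h q' h2 h3
    exact ⟨r, h4, h5, h6⟩
  sym := by
    obtain ⟨E, hE, h⟩ := Force.aut φ
    refine ⟨E, hE, fun π hπ hfix x y q h1 => ?_⟩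
    have h2 := h π hπ hfix _ _ _ h1.2
    refine ⟨congrArg π h1.1, ?_⟩
    have h4 : (fun i => π ((default : Fin 0 → M) i)) = default := Subsingleton.elim _ _
    rwa [h4] at h2

end

end

end Pool.Agent.H839R3
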