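import Pool.Agent.H839R3.Force

/-!
# Generic classes
-/

namespace Pool.Agent.H839R3

open FirstOrder FirstOrder.Language
open Pool.Agent.Helper672.ZFA

universe u v

variable {M : Type u} [L.Structure M] [hM : ZM M]

/-- Conditions, ordered by inclusion. -/
def CP (M : Type u) [L.Structure M] [ZM M] : Type u := {p : M // Cond p}

instance : Preorder (CP M) where
  le p q := MSub p.1 q.1
  le_refl _ _ h := h
  le_trans _ _ _ h h' z hz := h' z (h z hz)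

theorem cond_empty : Cond (small_empty (M := M)).elt :=
  ⟨small_empty.isSet, fun z hz => absurd (small_empty.mem.1 hz) (Set.notMem_empty z),
    fun x y _ hz => absurd (small_empty.mem.1 hz) (Set.notMem_empty (op x y))⟩

theorem exists_generic {ι : Type u} [Countable ι] (𝒟 : ι → M → Prop)
    (h : ∀ i p, Cond p → ∃ q, Cond q ∧ MSub p q ∧ 𝒟 i q) :
    ∃ g : Set M, (∃ p, p ∈ g) ∧ (∀ p ∈ g, Cond p) ∧
      (∀ p ∈ g, ∀ q ∈ g, ∃ r ∈ g, MSub p r ∧ MSub q r) ∧ ∀ i, ∃ q ∈ g, 𝒟 i q := by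
  have := Encodable.ofCountable ι
  let D' : ι → Order.Cofinal (CP M) := fun i => ⟨{q | 𝒟 i q.1}, fun p => by
    obtain ⟨q, h1, h2, h3⟩ := h i p.1 p.2
    exact ⟨⟨q, h1⟩, h3, h2⟩⟩
  let P0 : CP M := ⟨_, cond_empty⟩
  let mk : ∀ p : M, Cond p → CP M := fun p hp => ⟨p, hp⟩
  let I := Order.idealOfCofinals P0 D'
  refine ⟨{p | ∃ hp : Cond p, mk p hp ∈ I}, ⟨P0.1, P0.2,
    Order.mem_idealOfCofinals P0 D'⟩, fun p hp => hp.1, ?_, fun i => ?_⟩
  · rintro p ⟨hp, hp'⟩ q ⟨hq, hq'⟩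
    obtain ⟨r, h1, h2, h3⟩ := I.directed _ hp' _ hq'
    exact ⟨r.1, ⟨r.2, h1⟩, h2, h3⟩
  · obtain ⟨q, h1, h2⟩ := Order.cofinal_meets_idealOfCofinals P0 D' i
    exact ⟨q.1, ⟨q.2, h2⟩, h1⟩

/-- Formulas with parameters. -/
abbrev BF (M : Type u) (k n : ℕ) : Type u := LG.BoundedFormula ((Set.univ : Set M) ⊕ Fin k) n

instance [Countable M] (k n : ℕ) : Countable (BF M k n) := by
  have h : Countable (Σ n, BF M k n) := inferInstance
  exact (sigma_mk_injective (i := n) : Function.Injective (Sigma.mk n)).countable (β := Σ n, BF M k n)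

/-- Generic classes. -/
structure IsGen (g : Set M) : Prop where
  ne : ∃ p, p ∈ g
  cond : ∀ p ∈ g, Cond p
  dir : ∀ p ∈ g, ∀ q ∈ g, ∃ r ∈ g, MSub p r ∧ MSub q r
  dec : ∀ k n (φ : BF M k n) (v : Fin k → M) (xs : Fin n → M), ∃ q ∈ g,
    Force φ (pv v) xs q ∨ ∀ r, Cond r → MSub q r → ¬ Force φ (pv v) xs r
  all : ∀ k n (φ : BF M k (n + 1)) (v : Fin k → M) (xs : Fin n → M), ∃ q ∈ g,
    (∀ x, Force φ (pv v) (Fin.snoc xs x) q) ∨
      ∃ x, ∀ r, Cond r → MSub q r → ¬ Force φ (pv v) (Fin.snoc xs x) r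
  pair : ∀ x y, ∃ q ∈ g, Mem (op x y) q ∨ ∀ r, Cond r → MSub q r → ¬ Mem (op x y) r
  tot : ∀ x y, Mem y x → ∃ q ∈ g, ∃ y', Mem (op x y') q
  sep : ∀ (φ : LG.Formula ((Set.univ : Set M) ⊕ Fin 1)) (a : M), ∃ q ∈ g, ∀ x, Mem x a →
    Rd (fun x y q => y = x ∧ Force φ (pv fun _ => x) default q) x q
  rep : ∀ (φ : LG.Formula ((Set.univ : Set M) ⊕ Fin 2)) (a : M), ∃ q ∈ g,
    (∀ x, Mem x a → Rd (fun x y q => Force φ (pv ![x, y]) default q) x q) ∨
      ∃ x y y', Mem x a ∧ y ≠ y' ∧ Force φ (pv ![x, y]) default q ∧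
        Force φ (pv ![x, y']) default q

theorem dense_dec {k n : ℕ} (φ : BF M k n) (v : Fin k → M) (xs : Fin n → M) (p : M)
    (hp : Cond p) : ∃ q, Cond q ∧ MSub p q ∧
    (Force φ (pv v) xs q ∨ ∀ r, Cond r → MSub q r → ¬ Force φ (pv v) xs r) := by
  by_cases h : ∃ r, Cond r ∧ MSub p r ∧ Force φ (pv v) xs r
  · obtain ⟨r, h1, h2, h3⟩ := h
    exact ⟨r, h1, h2, Or.inl h3⟩
  · exact ⟨p, hp, fun _ => id, Or.inr fun r h1 h2 h3 => h ⟨r, h1, h2, h3⟩⟩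

theorem dense_all {k n : ℕ} (φ : BF M k (n + 1)) (v : Fin k → M) (xs : Fin n → M) (p : M)
    (hp : Cond p) : ∃ q, Cond q ∧ MSub p q ∧ ((∀ x, Force φ (pv v) (Fin.snoc xs x) q) ∨
      ∃ x, ∀ r, Cond r → MSub q r → ¬ Force φ (pv v) (Fin.snoc xs x) r) := by
  by_cases h : ∀ x, Force φ (pv v) (Fin.snoc xs x) p
  · exact ⟨p, hp, fun _ => id, Or.inl h⟩
  · push Not at h
    obtain ⟨x, hx⟩ := h
    by_contra hcon
    refine hx (Force.reg φ _ _ hp fun q h1 h2 => ?_)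
    by_contra hcon2
    refine hcon ⟨q, h1, h2, Or.inr ⟨x, fun r h3 h4 h5 => hcon2 ⟨r, h3, h4, h5⟩⟩⟩

theorem dense_pair (x y p : M) (hp : Cond p) : ∃ q, Cond q ∧ MSub p q ∧
    (Mem (op x y) q ∨ ∀ r, Cond r → MSub q r → ¬ Mem (op x y) r) := by
  by_cases h : ∃ r, Cond r ∧ MSub p r ∧ Mem (op x y) r
  · obtain ⟨r, h1, h2, h3⟩ := h
    exact ⟨r, h1, h2, Or.inl h3⟩
  · exact ⟨p, hp, fun _ => id, Or.inr fun r h1 h2 h3 => h ⟨r, h1, h2, h3⟩⟩

theorem dense_tot (x y p : M) (hxy : Mem y x) (hp : Cond p) : ∃ q, Cond q ∧ MSub p q ∧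
    ∃ y', Mem (op x y') q := by
  by_cases h : ∃ y', Mem (op x y') p
  · exact ⟨p, hp, fun _ => id, h⟩
  · have h1 := sm_union p (up (op x y) (op x y))
    have h2 : ∀ z, Mem z h1.elt ↔ Mem z p ∨ z = op x y := by
      intro z
      rw [h1.mem]
      refine or_congr_right ?_
      rw [mem_up, or_self]
    refine ⟨h1.elt, ⟨h1.isSet, fun z hz => ?_, fun a b b' ha hb => ?_⟩,
      fun z hz => (h2 z).2 (Or.inl hz), y, (h2 _).2 (Or.inr rfl)⟩
    · rcases (h2 z).1 hz with h3 | h3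
      · exact hp.2.1 z h3
      · exact ⟨x, y, h3, hxy⟩
    · rcases (h2 _).1 ha with h3 | h3 <;> rcases (h2 _).1 hb with h4 | h4
      · exact hp.2.2 a b b' h3 h4
      · obtain ⟨rfl, rfl⟩ := op_inj h4
        exact absurd ⟨b, h3⟩ h
      · obtain ⟨rfl, rfl⟩ := op_inj h3
        exact absurd ⟨b', h4⟩ h
      · rw [(op_inj h3).2, (op_inj h4).2]

theorem dense_sep (φ : LG.Formula ((Set.univ : Set M) ⊕ Fin 1)) (a p : M) (hp : Cond p) :
    ∃ q, Cond q ∧ MSub p q ∧ ∀ x, Mem x a →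
      Rd (fun x y q => y = x ∧ Force φ (pv fun _ => x) default q) x q :=
  (Force.nm₁ φ).dist hp fun _ _ _ _ _ _ _ h h' => h.1.trans h'.1.symm

theorem dense_rep (φ : LG.Formula ((Set.univ : Set M) ⊕ Fin 2)) (a p : M) (hp : Cond p) :
    ∃ q, Cond q ∧ MSub p q ∧
      ((∀ x, Mem x a → Rd (fun x y q => Force φ (pv ![x, y]) default q) x q) ∨
      ∃ x y y', Mem x a ∧ y ≠ y' ∧ Force φ (pv ![x, y]) default q ∧
        Force φ (pv ![x, y']) default q) := by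
  by_cases h : ∀ x, Mem x a → ∀ q y y', Cond q → MSub p q → Force φ (pv ![x, y]) default q →
      Force φ (pv ![x, y']) default q → y = y'
  · obtain ⟨q, h1, h2, h3⟩ := (Force.nm φ).dist hp h
    exact ⟨q, h1, h2, Or.inl h3⟩
  · push Not at h
    obtain ⟨x, hx, q, y, y', h1, h2, h3, h4, h5⟩ := h
    exact ⟨q, h1, h2, Or.inr ⟨x, y, y', hx, h5, h3, h4⟩⟩

theorem exists_isGen [Countable M] : ∃ g : Set M, IsGen g := by
  let ι : Type u := (Σ k n, BF M k n × (Fin k → M) × (Fin n → M)) ⊕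
    (Σ k n, BF M k (n + 1) × (Fin k → M) × (Fin n → M)) ⊕ (M × M) ⊕ (M × M) ⊕
    (BF M 1 0 × M) ⊕ (BF M 2 0 × M)
  have : Countable ι := inferInstance
  let 𝒟 : ι → M → Prop := fun i => match i with
    | Sum.inl ⟨_, _, φ, v, xs⟩ => fun q =>
      Force φ (pv v) xs q ∨ ∀ r, Cond r → MSub q r → ¬ Force φ (pv v) xs r
    | Sum.inr (Sum.inl ⟨_, _, φ, v, xs⟩) => fun q => (∀ x, Force φ (pv v) (Fin.snoc xs x) q) ∨
      ∃ x, ∀ r, Cond r → MSub q r → ¬ Force φ (pv v) (Fin.snoc xs x) r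
    | Sum.inr (Sum.inr (Sum.inl (x, y))) => fun q => Mem (op x y) q ∨
      ∀ r, Cond r → MSub q r → ¬ Mem (op x y) r
    | Sum.inr (Sum.inr (Sum.inr (Sum.inl (x, y)))) => fun q => Mem y x → ∃ y', Mem (op x y') q
    | Sum.inr (Sum.inr (Sum.inr (Sum.inr (Sum.inl (φ, a))))) => fun q => ∀ x, Mem x a →
      Rd (fun x y q => y = x ∧ Force φ (pv fun _ => x) default q) x q
    | Sum.inr (Sum.inr (Sum.inr (Sum.inr (Sum.inr (φ, a))))) => fun q =>
      (∀ x, Mem x a → Rd (fun x y q => Force φ (pv ![x, y]) default q) x q) ∨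
      ∃ x y y', Mem x a ∧ y ≠ y' ∧ Force φ (pv ![x, y]) default q ∧
        Force φ (pv ![x, y']) default q
  obtain ⟨g, h1, h2, h3, h4⟩ := exists_generic 𝒟 (by
    rintro (⟨k, n, φ, v, xs⟩ | ⟨k, n, φ, v, xs⟩ | ⟨x, y⟩ | ⟨x, y⟩ | ⟨φ, a⟩ | ⟨φ, a⟩) p hp
    · exact dense_dec φ v xs p hp
    · exact dense_all φ v xs p hp
    · exact dense_pair x y p hp
    · by_cases h : Mem y x
      · obtain ⟨q, h1, h2, h3⟩ := dense_tot x y p h hp
        exact ⟨q, h1, h2, fun _ => h3⟩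
      · exact ⟨p, hp, fun _ => id, fun h' => absurd h' h⟩
    · exact dense_sep φ a p hp
    · exact dense_rep φ a p hp)
  exact ⟨g, h1, h2, h3,
    fun k n φ v xs => h4 (Sum.inl ⟨k, n, φ, v, xs⟩),
    fun k n φ v xs => h4 (Sum.inr (Sum.inl ⟨k, n, φ, v, xs⟩)),
    fun x y => h4 (Sum.inr (Sum.inr (Sum.inl (x, y)))),
    fun x y h => by
      obtain ⟨q, h5, h6⟩ := h4 (Sum.inr (Sum.inr (Sum.inr (Sum.inl (x, y)))))
      exact ⟨q, h5, h6 h⟩,
    fun φ a => h4 (Sum.inr (Sum.inr (Sum.inr (Sum.inr (Sum.inl (φ, a)))))),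
    fun φ a => h4 (Sum.inr (Sum.inr (Sum.inr (Sum.inr (Sum.inr (φ, a))))))⟩

/-- The generic function. -/
def gf (g : Set M) (x y : M) : Prop := ∃ p ∈ g, Mem (op x y) p

namespace IsGen

variable {g : Set M} (hg : IsGen g)

include hg

/-- The truth lemma. -/
theorem truth {k n : ℕ} (φ : BF M k n) (v : Fin k → M) (xs : Fin n → M) :
    (letI := gStr (gf g); φ.Realize (pv v) xs) ↔ ∃ p ∈ g, Force φ (pv v) xs p := by
  letI := gStr (gf g)
  induction φ with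
  | falsum => exact ⟨fun h => h.elim, fun ⟨p, _, h⟩ => h⟩
  | equal t₁ t₂ =>
    obtain ⟨p, hp⟩ := hg.ne
    change (t₁.realize _ = t₂.realize _) ↔ ∃ p ∈ g, tv t₁ _ = tv t₂ _
    rw [show t₁.realize (Sum.elim (pv v) xs) = _ from tv_eq (gf g) t₁ _,
      show t₂.realize (Sum.elim (pv v) xs) = _ from tv_eq (gf g) t₂ _]
    exact ⟨fun h => ⟨p, hp, h⟩, fun ⟨_, _, h⟩ => h⟩
  | rel R ts =>
    change Structure.RelMap R (fun i => (ts i).realize _) ↔ ∃ p ∈ g, FA R _ p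
    have h0 : (fun i => (ts i).realize (Sum.elim (pv v) xs)) =
        fun i => tv (ts i) (Sum.elim (pv v) xs) := funext fun i => tv_eq (gf g) (ts i) _
    rw [h0]
    generalize (fun i => tv (ts i) (Sum.elim (pv v) xs)) = y
    obtain ⟨p, hp⟩ := hg.ne
    cases R with
    | isSet => exact ⟨fun h => ⟨p, hp, h⟩, fun ⟨_, _, h⟩ => h⟩
    | mem => exact ⟨fun h => ⟨p, hp, h⟩, fun ⟨_, _, h⟩ => h⟩
    | gen =>
      constructor
      · rintro ⟨q, h1, h2⟩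
        exact ⟨q, h1, fun r h3 h4 => ⟨r, h3, fun _ => id, h4 _ h2⟩⟩
      · rintro ⟨q, h1, h2⟩
        obtain ⟨q', h3, h4⟩ := hg.pair (y 0) (y 1)
        rcases h4 with h4 | h4
        · exact ⟨q', h3, h4⟩
        · obtain ⟨r, h5, h6, h7⟩ := hg.dir q h1 q' h3
          obtain ⟨s, h8, h9, h10⟩ := h2 r (hg.cond r h5) h6
          exact absurd h10 (h4 s h8 fun z hz => h9 z (h7 z hz))
  | imp φ ψ ih₁ ih₂ =>
    constructor
    · intro h
      obtain ⟨q, h1, h2⟩ := hg.dec k _ (φ.imp ψ) v xs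
      rcases h2 with h2 | h2
      · exact ⟨q, h1, h2⟩
      exfalso
      by_cases h3 : φ.Realize (pv v) xs
      · obtain ⟨p, h4, h5⟩ := (ih₂ xs).1 (h h3)
        obtain ⟨r, h6, h7, h8⟩ := hg.dir p h4 q h1
        exact h2 r (hg.cond r h6) h8 fun s h9 h10 _ => Force.mono ψ _ _ h5
          fun z hz => h10 z (h7 z hz)
      · obtain ⟨p, h4, h5⟩ := hg.dec k _ φ v xs
        rcases h5 with h5 | h5
        · exact h3 ((ih₁ xs).2 ⟨p, h4, h5⟩)
        · obtain ⟨r, h6, h7, h8⟩ := hg.dir p h4 q h1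
          exact h2 r (hg.cond r h6) h8 fun s h9 h10 h11 =>
            absurd h11 (h5 s h9 fun z hz => h10 z (h7 z hz))
    · rintro ⟨p, h1, h2⟩ h3
      obtain ⟨q, h4, h5⟩ := (ih₁ xs).1 h3
      obtain ⟨r, h6, h7, h8⟩ := hg.dir p h1 q h4
      exact (ih₂ xs).2 ⟨r, h6, h2 r (hg.cond r h6) h7 (Force.mono φ _ _ h5 h8)⟩
  | all φ ih =>
    constructor
    · intro h
      obtain ⟨q, h1, h2⟩ := hg.all k _ φ v xs
      rcases h2 with h2 | ⟨x, h2⟩
      · exact ⟨q, h1, h2⟩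
      exfalso
      obtain ⟨p, h4, h5⟩ := (ih _).1 (h x)
      obtain ⟨r, h6, h7, h8⟩ := hg.dir p h4 q h1
      exact h2 r (hg.cond r h6) h8 (Force.mono φ _ _ h5 h7)
    · rintro ⟨p, h1, h2⟩ x
      exact (ih _).2 ⟨p, h1, h2 x⟩

/-- Separation. -/
theorem separation (S : Set M)
    (hS : letI := gStr (gf g); (Set.univ : Set M).Definable₁ LG S) (a : M) :
    ∃ y, IsSet y ∧ ∀ z, Mem z y ↔ Mem z a ∧ z ∈ S := by
  letI := gStr (gf g)
  obtain ⟨φ, hφ⟩ := Set.definable_iff_exists_formula_sum.1 hS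
  have hφ' : ∀ x, x ∈ S ↔ ∃ p ∈ g, Force φ (pv fun _ => x) default p := by
    intro x
    have h1 : (fun _ => x : Fin 1 → M) ∈ {x : Fin 1 → M | x 0 ∈ S} ↔
      (fun _ => x : Fin 1 → M) ∈ {v | φ.Realize (Sum.elim (↑) v)} := by rw [hφ]
    exact h1.trans (hg.truth φ (fun _ => x) default)
  obtain ⟨q, hq, h⟩ := hg.sep φ a
  have h1 : ∀ x, Mem x a → (x ∈ S ↔ Force φ (pv fun _ => x) default q) := by
    intro x hx
    rw [hφ']
    constructor
    · rintro ⟨p, h1, h2⟩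
      rcases h x hx with ⟨y, rfl, h3⟩ | h3
      · exact h3
      · obtain ⟨r, h6, h7, h8⟩ := hg.dir p h1 q hq
        exact absurd ⟨rfl, Force.mono φ _ _ h2 h7⟩ (h3 r (hg.cond r h6) h8 x)
    · intro h1
      exact ⟨q, hq, h1⟩
  have h2 := small_sep (S := {x | Force φ (pv fun _ => x) default q}) (by
    have h3 := (D.force φ).reindex (κ := Fin 1 ⊕ Unit)
      (Sum.elim (Sum.elim (fun _ => Sum.inl 0) (fun i => i.elim0)) fun _ => Sum.inr ())
    have h4 : D (fun v : Fin 1 → M => ∃ q', q' = q ∧ Force φ (pv fun _ => v 0) default q') := by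
      refine D.ex (D.and (D.eqf (DF.var _) (DF.const _)) ?_)
      refine Eq.mp (congrArg D ?_) h3
      funext w
      change Force φ (pv fun _ => w (Sum.inl 0)) _ (w (Sum.inr ())) = _
      congr 1
      exact Subsingleton.elim _ _
    refine Eq.mp (congrArg D ?_) h4
    funext w
    exact propext ⟨fun ⟨q', h, h'⟩ => h ▸ h', fun h => ⟨q, rfl, h⟩⟩) a
  refine ⟨h2.elt, h2.isSet, fun z => h2.mem.trans ?_⟩
  exact and_congr_right fun hz => (h1 z hz).symm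

/-- Replacement. -/
theorem replacement (F : Set (M × M))
    (hF : letI := gStr (gf g); (Set.univ : Set M).Definable₂ LG F) (a : M)
    (hfun : ∀ x, Mem x a → ∃! y, (x, y) ∈ F) :
    ∃ b, IsSet b ∧ ∀ y, Mem y b ↔ ∃ x, Mem x a ∧ (x, y) ∈ F := by
  letI := gStr (gf g)
  obtain ⟨φ, hφ⟩ := Set.definable_iff_exists_formula_sum.1 hF
  have hφ' : ∀ x y, (x, y) ∈ F ↔ ∃ p ∈ g, Force φ (pv ![x, y]) default p := by
    intro x y
    have h1 : (![x, y] : Fin 2 → M) ∈ {x : Fin 2 → M | (x 0, x 1) ∈ F} ↔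
      (![x, y] : Fin 2 → M) ∈ {v | φ.Realize (Sum.elim (↑) v)} := by rw [← hφ]
    exact h1.trans (hg.truth φ ![x, y] default)
  obtain ⟨q, hq, h⟩ := hg.rep φ a
  rcases h with h | ⟨x, y, y', h1, h2, h3, h4⟩
  swap
  · exact absurd ((hfun x h1).unique ((hφ' x y).2 ⟨q, hq, h3⟩) ((hφ' x y').2 ⟨q, hq, h4⟩)) h2
  have h1 : ∀ x, Mem x a → ∀ y, ((x, y) ∈ F ↔ Force φ (pv ![x, y]) default q) := by
    intro x hx y
    constructor
    · intro h1
      obtain ⟨p, h2, h3⟩ := (hφ' x y).1 h1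
      rcases h x hx with ⟨y', h4⟩ | h4
      · rwa [(hfun x hx).unique h1 ((hφ' x y').2 ⟨q, hq, h4⟩)]
      · obtain ⟨r, h6, h7, h8⟩ := hg.dir p h2 q hq
        exact absurd (Force.mono φ _ _ h3 h7) (h4 r (hg.cond r h6) h8 y)
    · intro h1
      exact (hφ' x y).2 ⟨q, hq, h1⟩
  obtain ⟨b, hb0, hb⟩ := hM.repl (fun x y => Force φ (pv ![x, y]) default q)
    (D.subst₃ (p := fun x y q => Force φ (pv ![x, y]) default q) (Force.nm φ).dfn
      (DF.var _) (DF.var _) (DF.const _)) a fun x hx => by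
      obtain ⟨y, h2, h3⟩ := hfun x hx
      exact ⟨y, (h1 x hx y).1 h2, fun y' h4 => h3 y' ((h1 x hx y').2 h4)⟩
  refine ⟨b, hb0, fun y => (hb y).trans ?_⟩
  exact exists_congr fun x => and_congr_right fun hx => (h1 x hx y).symm

end IsGen

end Pool.Agent.H839R3
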