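import Pool.Agent.H839R3.Swap

/-!
# Conditions and homogeneity
-/

namespace Pool.Agent.H839R3

open FirstOrder FirstOrder.Language
open Pool.Agent.Helper672.ZFA

universe u

variable {M : Type u} [L.Structure M] [hM : ZM M]

/-- Conditions: partial choice functions that are sets. -/
def Cond (p : M) : Prop := IsSet p ∧ (∀ z, Mem z p → ∃ x y, z = op x y ∧ Mem y x) ∧
  ∀ x y y', Mem (op x y) p → Mem (op x y') p → y = y'

theorem D.cond {ι : Type} {f : (ι → M) → M} (hf : DF f) : D (fun v => Cond (f v)) := by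
  unfold Cond
  exact D.and (D.isSetf hf) (D.and (D.all (D.imp (D.memf (DF.var _) hf.lift) (D.ex (D.ex (D.and
    (D.eqf (DF.var _) (DF.op (DF.var _) (DF.var _))) (D.memf (DF.var _) (DF.var _)))))))
    (D.all (D.all (D.all (D.imp (D.memf (DF.op (DF.var _) (DF.var _)) hf.lift.lift.lift)
      (D.imp (D.memf (DF.op (DF.var _) (DF.var _)) hf.lift.lift.lift)
        (D.eqf (DF.var _) (DF.var _))))))))

theorem Cond.sub {p q : M} (hp : Cond p) (hq : IsSet q) (h : MSub q p) : Cond q :=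
  ⟨hq, fun z hz => hp.2.1 z (h z hz), fun x y y' h1 h2 => hp.2.2 x y y' (h _ h1) (h _ h2)⟩

/-- Abstract forcing predicates. -/
structure Nm (Φ : M → M → M → Prop) : Prop where
  dfn : D (fun v : Fin 3 → M => Φ (v 0) (v 1) (v 2))
  mono : ∀ x y q q', Φ x y q → MSub q q' → Cond q' → Φ x y q'
  reg : ∀ x y q, Cond q →
    (∀ q', Cond q' → MSub q q' → ∃ r, Cond r ∧ MSub q' r ∧ Φ x y r) → Φ x y q
  sym : ∃ E, Ur E ∧ ∀ π : M → M, Aut π → (∀ x, Over E x → π x = x) →
    ∀ x y q, Φ x y q → Φ (π x) (π y) (π q)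

theorem Aut.mem_left {π : M → M} (h : Aut π) {x y : M} : Mem x (π y) ↔ Mem (π x) y := by
  rw [← h.mem (π x) y, h.invol]

theorem Aut.up {π : M → M} (h : Aut π) (x y : M) : π (up x y) = up (π x) (π y) := by
  refine eq_up.2 ⟨(h.isSet _).2 (isSet_up x y), fun z => ?_⟩
  rw [h.mem_left, mem_up]
  constructor
  · rintro (h1 | h1)
    · exact Or.inl (by rw [← h1, h.invol])
    · exact Or.inr (by rw [← h1, h.invol])
  · rintro (rfl | rfl)
    · exact Or.inl (h.invol x)
    · exact Or.inr (h.invol y)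

theorem Aut.op {π : M → M} (h : Aut π) (x y : M) : π (op x y) = op (π x) (π y) := by
  unfold Pool.Agent.Helper672.ZFA.op
  rw [h.up, h.up, h.up]

theorem Aut.sub {π : M → M} (h : Aut π) {x y : M} (h1 : MSub x y) : MSub (π x) (π y) :=
  fun _ hz => h.mem_left.2 (h1 _ (h.mem_left.1 hz))

theorem Aut.sub_iff {π : M → M} (h : Aut π) {x y : M} : MSub (π x) (π y) ↔ MSub x y :=
  ⟨fun h1 => by have h2 := h.sub h1; rwa [h.invol, h.invol] at h2, h.sub⟩

theorem Aut.cond {π : M → M} (h : Aut π) {p : M} (hp : Cond p) : Cond (π p) := by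
  refine ⟨(h.isSet _).2 hp.1, fun z hz => ?_, fun x y y' h1 h2 => ?_⟩
  · obtain ⟨x, y, h1, h2⟩ := hp.2.1 _ (h.mem_left.1 hz)
    refine ⟨π x, π y, ?_, (h.mem _ _).2 h2⟩
    rw [← h.op, ← h1, h.invol]
  · have h3 := h.mem_left.1 h1
    have h4 := h.mem_left.1 h2
    rw [h.op] at h3 h4
    have h5 := hp.2.2 _ _ _ h3 h4
    have h6 := congrArg π h5
    rwa [h.invol, h.invol] at h6

theorem Aut.cond_iff {π : M → M} (h : Aut π) {p : M} : Cond (π p) ↔ Cond p :=
  ⟨fun h1 => by have h2 := h.cond h1; rwa [h.invol] at h2, h.cond⟩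

variable {E : M}

theorem over_up (hE : Ur E) {x y : M} (hx : Over E x) (hy : Over E y) : Over E (up x y) :=
  over_of hE (isSet_up x y) fun z hz => by
    rcases mem_up.1 hz with rfl | rfl
    · exact hx
    · exact hy

theorem over_op (hE : Ur E) {x y : M} (hx : Over E x) (hy : Over E y) : Over E (op x y) :=
  over_up hE (over_up hE hx hx) (over_up hE hx hy)

theorem Over.fst (hE : Ur E) {x y : M} (h : Over E (op x y)) : Over E x := by
  have h1 : Over E (up x x) := h.mem hE (mem_up.2 (Or.inl rfl))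
  exact h1.mem hE (mem_up.2 (Or.inl rfl))

theorem Over.snd (hE : Ur E) {x y : M} (h : Over E (op x y)) : Over E y := by
  have h1 : Over E (up x y) := h.mem hE (mem_up.2 (Or.inr rfl))
  exact h1.mem hE (mem_up.2 (Or.inr rfl))

theorem small_rs (E q : M) : Pool.Agent.Helper672.ZFA.Small {z : M | Mem z q ∧ Over E z} :=
  small_sep (S := {z | Over E z}) (D.over (DF.const _) (DF.var _)) q

/-- The restriction of a condition. -/
noncomputable def rs (E q : M) : M := (small_rs E q).elt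

theorem mem_rs {E q z : M} : Mem z (rs E q) ↔ Mem z q ∧ Over E z := (small_rs E q).mem

theorem isSet_rs (E q : M) : IsSet (rs E q) := (small_rs E q).isSet

theorem over_rs (hE : Ur E) (q : M) : Over E (rs E q) :=
  over_of hE (isSet_rs E q) fun _ hy => (mem_rs.1 hy).2

theorem Cond.rs {q : M} (hq : Cond q) (E : M) : Cond (rs E q) :=
  hq.sub (isSet_rs E q) fun _ hz => (mem_rs.1 hz).1

theorem exists_compat (hE : Ur E) {Q R q r : M} (hQ : Ur Q) (hR : Ur R) {π : M → M}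
    (hπ : Aut π) (hfix : ∀ x, Over E x → π x = x)
    (hsep : ∀ x, Over Q x → Over R (π x) → Over E x) (hq : Cond q) (hr : Cond r)
    (hqQ : Over Q q) (hrR : Over R r) (h : MSub (rs E q) r) :
    ∃ r', Cond r' ∧ MSub (π q) r' ∧ MSub r r' := by
  have h1 := sm_union (π q) r
  have hπq := hπ.cond hq
  have key : ∀ x y y', Mem (op x y) (π q) → Mem (op x y') r → y = y' := by
    intro x y y' h2 h3
    have h4 := hπ.mem_left.1 h2
    rw [hπ.op] at h4
    have h5 : Over Q (π x) := (hqQ.mem hQ h4).fst hQ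
    have h6 : Over R (π (π x)) := by
      rw [hπ.invol]
      exact (hrR.mem hR h3).fst hR
    have h7 := hsep _ h5 h6
    have h8 : x = π x := by
      have := hfix _ h7
      rwa [hπ.invol] at this
    obtain ⟨x0, y0, h9, h10⟩ := hq.2.1 _ h4
    obtain ⟨rfl, rfl⟩ := op_inj h9
    have h11 : Over E (π y) := h7.mem hE h10
    have h12 : y = π y := by
      have := hfix _ h11
      rwa [hπ.invol] at this
    rw [← h8, ← h12] at h4
    rw [← h8] at h7
    rw [← h12] at h11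
    exact hr.2.2 x y y' (h _ (mem_rs.2 ⟨h4, over_op hE h7 h11⟩)) h3
  refine ⟨h1.elt, ⟨h1.isSet, fun z hz => ?_, fun x y y' h2 h3 => ?_⟩, fun z hz =>
    h1.mem.2 (Or.inl hz), fun z hz => h1.mem.2 (Or.inr hz)⟩
  · rcases h1.mem.1 hz with h2 | h2
    · exact hπq.2.1 z h2
    · exact hr.2.1 z h2
  · rcases h1.mem.1 h2 with h4 | h4 <;> rcases h1.mem.1 h3 with h5 | h5
    · exact hπq.2.2 x y y' h4 h5
    · exact key x y y' h4 h5
    · exact (key x y' y h5 h4).symm
    · exact hr.2.2 x y y' h4 h5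

/-- `E` supports `Φ`. -/
def Supp (E : M) (Φ : M → M → M → Prop) : Prop :=
  ∀ π : M → M, Aut π → (∀ x, Over E x → π x = x) → ∀ x y q, Φ x y q → Φ (π x) (π y) (π q)

theorem Nm.restrict {Φ : M → M → M → Prop} (hΦ : Nm Φ) (hE : Stable E) (hs : Supp E Φ)
    {x y q : M} (hx : Over E x) (hy : Over E y) (hq : Cond q) (h : Φ x y q) :
    Φ x y (rs E q) := by
  refine hΦ.reg x y _ (hq.rs E) fun q' hq' h1 => ?_
  obtain ⟨Q, hQ, hQq⟩ := exists_over q
  obtain ⟨R, hR, hRq⟩ := exists_over q'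
  obtain ⟨π, hπ, hfix, hsep⟩ := hE.swap hQ hR
  obtain ⟨r', h2, h3, h4⟩ := exists_compat hE.1 hQ hR hπ hfix hsep hq hq' hQq hRq h1
  refine ⟨r', h2, h4, ?_⟩
  have h5 := hs π hπ hfix x y q h
  rw [hfix x hx, hfix y hy] at h5
  exact hΦ.mono _ _ _ _ h5 h3 h2

theorem Nm.over {Φ : M → M → M → Prop} (hΦ : Nm Φ) (hE : Stable E) (hs : Supp E Φ)
    {p x y q : M} (hx : Over E x) (hf : ∀ q y y', Cond q → MSub p q → Φ x y q → Φ x y' q → y = y')
    (hq : Cond q) (hpq : MSub p q) (h : Φ x y q) : Over E y := by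
  obtain ⟨Q, hQ, hQq⟩ := exists_over (up q y)
  have h1 : Over Q q := hQq.mem hQ (mem_up.2 (Or.inl rfl))
  have h2 : Over Q y := hQq.mem hQ (mem_up.2 (Or.inr rfl))
  obtain ⟨π, hπ, hfix, hsep⟩ := hE.swap hQ hQ
  obtain ⟨r', h3, h4, h5⟩ := exists_compat hE.1 hQ hQ hπ hfix hsep hq hq h1 h1
    fun z hz => (mem_rs.1 hz).1
  have h6 := hs π hπ hfix x y q h
  rw [hfix x hx] at h6
  have h7 : y = π y := hf r' y (π y) h3 (fun z hz => h5 z (hpq z hz))
    (hΦ.mono _ _ _ _ h h5 h3) (hΦ.mono _ _ _ _ h6 h4 h3)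
  exact hsep y h2 (h7 ▸ h2)

theorem Supp.mono {Φ : M → M → M → Prop} {E E' : M} (hE : Ur E) (hE' : Ur E') (h : MSub E E')
    (hs : Supp E Φ) : Supp E' Φ := fun π hπ hfix =>
  hs π hπ fun x hx => hfix x (hx.mono hE hE' h x)

end Pool.Agent.H839R3
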