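import Pool.Agent.Helper672.ZFA.Nat
import Pool.Agent.H839R3.Defs

/-!
# Membership induction and levels over a set of urelements
-/

namespace Pool.Agent.H839R3

open FirstOrder FirstOrder.Language
open Pool.Agent.Helper672.ZFA

universe u

section subst

variable {M : Type u} [L.Structure M] {ι κ : Type} [Finite κ]

theorem D.exs {p : (ι → M) → (κ → M) → Prop}
    (h : D (fun w : ι ⊕ κ → M => p (fun i => w (Sum.inl i)) (fun i => w (Sum.inr i)))) :
    D (fun v => ∃ a, p v a) := by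
  have h1 := Set.Definable.exists_of_finite (β := κ) h
  exact h1

theorem D.foralls {p : κ → (ι → M) → Prop} (h : ∀ k, D (p k)) : D (fun v => ∀ k, p k v) := by
  have _ := Fintype.ofFinite κ
  have h1 := Set.definable_biInter_finset h Finset.univ
  refine Eq.mp (congrArg (Set.univ.Definable L) ?_) h1
  ext v
  simp

theorem D.subst {p : (κ → M) → Prop} (hp : D p) {f : κ → (ι → M) → M} (hf : ∀ k, DF (f k)) :
    D (fun v => p (fun k => f k v)) := by
  have h : D (fun v : ι → M => ∃ a : κ → M, (∀ k, a k = f k v) ∧ p a) := by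
    refine D.exs (D.and (D.foralls fun k => ?_) ?_)
    · exact D.eqf (DF.var _) ((hf k).reindex Sum.inl)
    · exact hp.reindex Sum.inr
  refine Eq.mp (congrArg D ?_) h
  funext v
  apply propext
  constructor
  · rintro ⟨a, h1, h2⟩
    rwa [funext h1] at h2
  · intro h1
    exact ⟨_, fun _ => rfl, h1⟩

theorem D.subst₁ {p : M → Prop} (hp : D (fun v : Fin 1 → M => p (v 0))) {f : (ι → M) → M}
    (hf : DF f) : D (fun v => p (f v)) := D.subst hp (f := fun _ => f) fun _ => hf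

theorem D.subst₂ {p : M → M → Prop} (hp : D (fun v : Fin 2 → M => p (v 0) (v 1)))
    {f g : (ι → M) → M} (hf : DF f) (hg : DF g) : D (fun v => p (f v) (g v)) :=
  D.subst hp (f := ![f, g]) fun k => by
    fin_cases k
    · exact hf
    · exact hg

theorem D.subst₃ {p : M → M → M → Prop} (hp : D (fun v : Fin 3 → M => p (v 0) (v 1) (v 2)))
    {f g h : (ι → M) → M} (hf : DF f) (hg : DF g) (hh : DF h) :
    D (fun v => p (f v) (g v) (h v)) :=
  D.subst hp (f := ![f, g, h]) fun k => by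
    fin_cases k
    · exact hf
    · exact hg
    · exact hh

end subst

/-- Models of `ZFCU_R`, in a more convenient form. -/
class ZM (M : Type u) [L.Structure M] : Prop extends IsModel M where
  found : ∀ x : M, (∃ y, Mem y x) → ∃ y, Mem y x ∧ ∀ z, Mem z x → ¬ Mem z y
  repl : ∀ F : M → M → Prop, D (fun v : Fin 2 → M => F (v 0) (v 1)) →
    ∀ a, (∀ x, Mem x a → ∃! y, F x y) → ∃ b, IsSet b ∧ ∀ y, Mem y b ↔ ∃ x, Mem x a ∧ F x y
  wo : ∀ x : M, ∃ r, WellOrders r x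

section

variable {M : Type u} [L.Structure M]

/-- Inclusion. -/
def MSub (x y : M) : Prop := ∀ z, Mem z x → Mem z y

/-- The union. -/
def IsUn (x y : M) : Prop := IsSet x ∧ ∀ z, Mem z x ↔ ∃ w, Mem w y ∧ Mem z w

/-- The successor. -/
def IsSc (x y : M) : Prop := IsSet x ∧ ∀ z, Mem z x ↔ Mem z y ∨ z = y

theorem D.msub {ι : Type} {f g : (ι → M) → M} (hf : DF f) (hg : DF g) :
    D (fun v => MSub (f v) (g v)) := by
  unfold MSub
  exact D.all (D.imp (D.memf (DF.var _) hf.lift) (D.memf (DF.var _) hg.lift))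

theorem D.isUn {ι : Type} {f g : (ι → M) → M} (hf : DF f) (hg : DF g) :
    D (fun v => IsUn (f v) (g v)) := by
  unfold IsUn
  exact D.and (D.isSetf hf) (D.all (D.iff (D.memf (DF.var _) hf.lift) (D.ex (D.and
    (D.memf (DF.var _) hg.lift.lift) (D.memf (DF.var _) (DF.var _))))))

theorem D.isSc {ι : Type} {f g : (ι → M) → M} (hf : DF f) (hg : DF g) :
    D (fun v => IsSc (f v) (g v)) := by
  unfold IsSc
  exact D.and (D.isSetf hf) (D.all (D.iff (D.memf (DF.var _) hf.lift) (D.or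
    (D.memf (DF.var _) hg.lift) (D.eqf (DF.var _) hg.lift))))

variable [hM : ZM M]

theorem sm_union (x y : M) : Pool.Agent.Helper672.ZFA.Small {z | Mem z x ∨ Mem z y} :=
  Pool.Agent.Helper672.ZFA.small_union x y

/-- A partial sequence of iterated unions. -/
def Att (x s : M) : Prop := ∀ p, Mem p s → p = op (INat.val (0 : INat M)) x ∨
  ∃ n y m u, Mem n (dom M (INat M)) ∧ Mem (op n y) s ∧ IsSc m n ∧ IsUn u y ∧ p = op m u

/-- The iterated unions. -/
def ItU (x n y : M) : Prop := ∃ s, Att x s ∧ Mem (op n y) s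

theorem D.itU {ι : Type} {f g h : (ι → M) → M} (hf : DF f) (hg : DF g) (hh : DF h) :
    D (fun v => ItU (f v) (g v) (h v)) := by
  unfold ItU Att
  refine D.ex (D.and (D.all (D.imp (D.memf (DF.var _) (DF.var _)) (D.or
    (D.eqf (DF.var _) (DF.op (DF.const _) hf.lift.lift))
    (D.ex (D.ex (D.ex (D.ex (D.and (D.memf (DF.var _) (DF.const _)) (D.and
      (D.memf (DF.op (DF.var _) (DF.var _)) (DF.var _)) (D.and (D.isSc (DF.var _) (DF.var _))
      (D.and (D.isUn (DF.var _) (DF.var _))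
        (D.eqf (DF.var _) (DF.op (DF.var _) (DF.var _))))))))))))))
    (D.memf (DF.op hg.lift hh.lift) (DF.var _)))

theorem isSc_succ (n : INat M) : IsSc (INat.succ n).val n.val :=
  ⟨INat.isSet_succ n, fun _ => INat.mem_succ⟩

theorem itU_zero {x y : M} : ItU x (INat.val (0 : INat M)) y ↔ y = x := by
  constructor
  · rintro ⟨s, h1, h2⟩
    rcases h1 _ h2 with h3 | ⟨n, y', m, w, -, -, h3, -, h4⟩
    · exact (op_inj h3).2
    · have h5 := (op_inj h4).1
      exact absurd (h5 ▸ (h3.2 n).2 (Or.inr rfl)) INat.not_mem_zero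
  · rintro rfl
    refine ⟨up (op (INat.val (0 : INat M)) y) (op (INat.val (0 : INat M)) y), fun p hp => ?_,
      mem_up.2 (Or.inl rfl)⟩
    rcases mem_up.1 hp with h | h <;> exact Or.inl h

theorem itU_succ {x w : M} {n : INat M} : ItU x (INat.succ n).val w ↔
    ∃ y, ItU x n.val y ∧ IsUn w y := by
  constructor
  · rintro ⟨s, h1, h2⟩
    rcases h1 _ h2 with h3 | ⟨n', y', m, w', h3, h4, h5, h6, h7⟩
    · exact absurd (INat.ext (op_inj h3).1) (INat.succ_ne_zero n)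
    · obtain ⟨h8, rfl⟩ := op_inj h7
      obtain ⟨k, rfl⟩ := mem_dom.1 h3
      have h9 : m = (INat.succ k).val := hM.ext _ _ h5.1 (INat.isSet_succ k)
        fun z => (h5.2 z).trans INat.mem_succ.symm
      have h10 : n = k := INat.succ_inj (INat.ext (h8.trans h9))
      subst h10
      exact ⟨y', ⟨s, h1, h4⟩, h6⟩
  · rintro ⟨y, ⟨s, h1, h2⟩, h3⟩
    refine ⟨(sm_union s (up (op (INat.succ n).val w) (op (INat.succ n).val w))).elt,
      fun p hp => ?_, (sm_union _ _).mem.2 (Or.inr (mem_up.2 (Or.inl rfl)))⟩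
    have h4 : ∀ q, Mem q s → Mem q (sm_union s (up (op (INat.succ n).val w)
      (op (INat.succ n).val w))).elt := fun q hq => (sm_union _ _).mem.2 (Or.inl hq)
    rcases (sm_union _ _).mem.1 hp with h | h
    · rcases h1 p h with h5 | ⟨n', y', m, w', h5, h6, h7, h8, h9⟩
      · exact Or.inl h5
      · exact Or.inr ⟨n', y', m, w', h5, h4 _ h6, h7, h8, h9⟩
    · have h5 : p = op (INat.succ n).val w := by rcases mem_up.1 h with h | h <;> exact h
      exact Or.inr ⟨n.val, y, _, w, code_mem_dom n, h4 _ h2, isSc_succ n, h3, h5⟩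

theorem itU_unique (x : M) (n : INat M) : ∃ y, ItU x n.val y ∧ ∀ y', ItU x n.val y' → y' = y := by
  refine INat.ind (p := fun n : INat M => ∃ y, ItU x n.val y ∧ ∀ y', ItU x n.val y' → y' = y)
    ?_ ?_ ?_ n
  · refine Int.of_D (S := fun v => ∃ y, ItU x (v 0) y ∧ ∀ y', ItU x (v 0) y' → y' = y) ?_
      fun _ => Iff.rfl
    exact D.ex (D.and (D.itU (DF.const _) (DF.var _) (DF.var _)) (D.all (D.imp
      (D.itU (DF.const _) (DF.var _) (DF.var _)) (D.eqf (DF.var _) (DF.var _)))))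
  · exact ⟨x, itU_zero.2 rfl, fun y' h => itU_zero.1 h⟩
  · rintro n ⟨y, h1, h2⟩
    obtain ⟨w, hw0, hw⟩ := hM.union y
    refine ⟨w, itU_succ.2 ⟨y, h1, hw0, hw⟩, fun w' h => ?_⟩
    obtain ⟨y', h3, h4⟩ := itU_succ.1 h
    obtain rfl := h2 y' h3
    exact hM.ext _ _ h4.1 hw0 fun z => (h4.2 z).trans (hw z).symm

theorem exists_trans (x : M) : ∃ t, (∀ z, Mem z x → Mem z t) ∧
    ∀ z w, Mem z t → Mem w z → Mem w t := by
  obtain ⟨b, -, hb⟩ := hM.repl (ItU x) (D.itU (DF.const _) (DF.var _) (DF.var _)) (dom M (INat M))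
    fun n hn => by
      obtain ⟨k, rfl⟩ := mem_dom.1 hn
      exact itU_unique x k
  obtain ⟨t, -, ht⟩ := hM.union b
  refine ⟨t, fun z hz => (ht z).2 ⟨x, (hb x).2 ⟨_, code_mem_dom (0 : INat M),
    itU_zero.2 rfl⟩, hz⟩, fun z w hz hw => ?_⟩
  obtain ⟨y, h1, h2⟩ := (ht z).1 hz
  obtain ⟨n, h3, h4⟩ := (hb y).1 h1
  obtain ⟨k, rfl⟩ := mem_dom.1 h3
  obtain ⟨w', hw0, hw'⟩ := hM.union y
  exact (ht w).2 ⟨w', (hb w').2 ⟨_, code_mem_dom (INat.succ k), itU_succ.2 ⟨y, h4, hw0, hw'⟩⟩,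
    (hw' w).2 ⟨z, h2, hw⟩⟩

/-- Induction on membership. -/
theorem mem_ind {S : M → Prop}
    (hD : D (fun v : Fin 1 → M => S (v 0))) (h : ∀ x, (∀ y, Mem y x → S y) → S x) (x : M) :
    S x := by
  by_contra hx
  obtain ⟨t, h1, h2⟩ := exists_trans (up x x)
  have h3 := small_sep (S := {z | ¬ S z}) (D.not hD) t
  obtain ⟨z, h4, h5⟩ := hM.found h3.elt ⟨x, h3.mem.2 ⟨h1 x (mem_up.2 (Or.inl rfl)), hx⟩⟩
  obtain ⟨h6, h7⟩ := h3.mem.1 h4
  refine h7 (h z fun y hy => ?_)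
  by_contra h8
  exact h5 y (h3.mem.2 ⟨h2 z y h6 hy, h8⟩) hy

/-! ### Level theory -/

/-- `E` is a set of urelements. -/
def Ur (E : M) : Prop := IsSet E ∧ ∀ u, Mem u E → ¬ IsSet u

/-- Histories. -/
def Hist (E h : M) : Prop :=
  ∀ x, Mem x h → IsSet x ∧ ∀ y, Mem y x ↔ Mem y E ∨ (IsSet y ∧ ∃ c, Mem c h ∧ Mem c x ∧ MSub y c)

/-- Levels. -/
def Lev (E s : M) : Prop :=
  IsSet s ∧ ∃ h, Hist E h ∧ ∀ y, Mem y s ↔ Mem y E ∨ (IsSet y ∧ ∃ c, Mem c h ∧ MSub y c)

/-- `x` is built from the urelements in `E`. -/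
def Over (E x : M) : Prop := (¬ IsSet x ∧ Mem x E) ∨ (IsSet x ∧ ∃ s, Lev E s ∧ MSub x s)

omit hM in
theorem D.hist {ι : Type} {e f : (ι → M) → M} (he : DF e) (hf : DF f) :
    D (fun v => Hist (e v) (f v)) := by
  unfold Hist
  exact D.all (D.imp (D.memf (DF.var _) hf.lift) (D.and (D.isSetf (DF.var _)) (D.all (D.iff
    (D.memf (DF.var _) (DF.var _)) (D.or (D.memf (DF.var _) he.lift.lift)
    (D.and (D.isSetf (DF.var _)) (D.ex (D.and (D.memf (DF.var _) hf.lift.lift.lift)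
      (D.and (D.memf (DF.var _) (DF.var _)) (D.msub (DF.var _) (DF.var _)))))))))))

omit hM in
theorem D.lev {ι : Type} {e f : (ι → M) → M} (he : DF e) (hf : DF f) :
    D (fun v => Lev (e v) (f v)) := by
  unfold Lev
  exact D.and (D.isSetf hf) (D.ex (D.and (D.hist he.lift (DF.var _)) (D.all (D.iff
    (D.memf (DF.var _) hf.lift.lift) (D.or (D.memf (DF.var _) he.lift.lift)
    (D.and (D.isSetf (DF.var _)) (D.ex (D.and (D.memf (DF.var _) (DF.var _))
      (D.msub (DF.var _) (DF.var _))))))))))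

omit hM in
theorem D.over {ι : Type} {e f : (ι → M) → M} (he : DF e) (hf : DF f) :
    D (fun v => Over (e v) (f v)) := by
  unfold Over
  exact D.or (D.and (D.not (D.isSetf hf)) (D.memf hf he)) (D.and (D.isSetf hf) (D.ex (D.and
    (D.lev he.lift (DF.var _)) (D.msub hf.lift (DF.var _)))))

theorem exists_pot (E a : M) : ∃ b, IsSet b ∧
    ∀ y, Mem y b ↔ Mem y E ∨ (IsSet y ∧ ∃ c, Mem c a ∧ MSub y c) := by
  obtain ⟨w, -, hw⟩ := hM.union a
  have h1 := small_sep (S := {y | ∃ c, Mem c a ∧ MSub y c}) (D.ex (D.and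
    (D.memf (DF.var _) (DF.const _)) (D.msub (DF.var _) (DF.var _)))) (small_power w).elt
  have h2 := sm_union E h1.elt
  refine ⟨h2.elt, h2.isSet, fun y => h2.mem.trans (or_congr_right (h1.mem.trans
    ⟨fun h => ⟨((small_power w).mem.1 h.1).1, h.2⟩,
    fun h => ⟨(small_power w).mem.2 ⟨h.1, fun z hz => ?_⟩, h.2⟩⟩))⟩
  obtain ⟨c, h2, h3⟩ := h.2
  exact (hw z).2 ⟨c, h2, h3 z hz⟩

variable {E : M} (hE : Ur E)

include hE in
theorem hist_trans {h : M} (hh : Hist E h) (s : M) :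
    Mem s h → ∀ x, Mem x s → ∀ z, Mem z x → Mem z s := by
  refine mem_ind (S := fun s => Mem s h → ∀ x, Mem x s → ∀ z, Mem z x → Mem z s) ?_ ?_ s
  · exact D.imp (D.memf (DF.var _) (DF.const _)) (D.all (D.imp (D.memf (DF.var _) (DF.var _))
      (D.all (D.imp (D.memf (DF.var _) (DF.var _)) (D.memf (DF.var _) (DF.var _))))))
  · intro s ih hs x hx z hz
    rcases ((hh s hs).2 x).1 hx with h0 | ⟨-, d, h1, h2, h3⟩
    · exact absurd (hM.atoms z x hz) (hE.2 x h0)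
    · rcases ((hh d h1).2 z).1 (h3 z hz) with h4 | ⟨h4, e, h5, h6, h7⟩
      · exact ((hh s hs).2 z).2 (Or.inl h4)
      · exact ((hh s hs).2 z).2 (Or.inr ⟨h4, d, h1, h2, fun w hw => ih d h2 h1 e h6 w (h7 w hw)⟩)

include hE in
theorem Lev.trans {s : M} (hs : Lev E s) {x z : M} (hx : Mem x s) (hz : Mem z x) : Mem z s := by
  obtain ⟨-, h, h1, h2⟩ := hs
  rcases (h2 x).1 hx with h0 | ⟨-, c, h3, h4⟩
  · exact absurd (hM.atoms z x hz) (hE.2 x h0)
  · rcases ((h1 c h3).2 z).1 (h4 z hz) with h5 | ⟨h5, e, h6, h7, h8⟩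
    · exact (h2 z).2 (Or.inl h5)
    · exact (h2 z).2 (Or.inr ⟨h5, c, h3, fun w hw => hist_trans hE h1 c h3 z (h4 z hz) w hw⟩)

include hE in
theorem Lev.sub {s : M} (hs : Lev E s) {x z : M} (hx : Mem x s) (hx' : IsSet x) (hz' : IsSet z)
    (hz : MSub z x) : Mem z s := by
  obtain ⟨-, h, h1, h2⟩ := hs
  rcases (h2 x).1 hx with h0 | ⟨-, c, h3, h4⟩
  · exact absurd hx' (hE.2 x h0)
  · exact (h2 z).2 (Or.inr ⟨hz', c, h3, fun w hw => h4 w (hz w hw)⟩)

include hE in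
theorem hist_lev {h s : M} (hh : Hist E h) (hs : Mem s h) : Lev E s := by
  have h1 := small_sep (S := {c | Mem c h}) (D.memf (DF.var _) (DF.const _)) s
  refine ⟨(hh s hs).1, h1.elt, fun x hx => ⟨(hh x (h1.mem.1 hx).2).1, fun y => ?_⟩, fun y => ?_⟩
  · obtain ⟨h2, h3⟩ := h1.mem.1 hx
    rw [(hh x h3).2 y]
    refine or_congr_right (and_congr_right fun _ => ?_)
    constructor
    · rintro ⟨c, h4, h5, h6⟩
      exact ⟨c, h1.mem.2 ⟨hist_trans hE hh s hs x h2 c h5, h4⟩, h5, h6⟩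
    · rintro ⟨c, h4, h5, h6⟩
      exact ⟨c, (h1.mem.1 h4).2, h5, h6⟩
  · rw [(hh s hs).2 y]
    refine or_congr_right (and_congr_right fun _ => ?_)
    constructor
    · rintro ⟨c, h4, h5, h6⟩
      exact ⟨c, h1.mem.2 ⟨h5, h4⟩, h6⟩
    · rintro ⟨c, h4, h6⟩
      exact ⟨c, (h1.mem.1 h4).2, (h1.mem.1 h4).1, h6⟩

include hE in
theorem Lev.mem_iff {s : M} (hs : Lev E s) (y : M) : Mem y s ↔ Mem y E ∨ (IsSet y ∧
    ∃ r, Lev E r ∧ Mem r s ∧ MSub y r) := by
  constructor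
  · intro hy
    obtain ⟨-, h, h1, h2⟩ := hs
    rcases (h2 y).1 hy with h0 | ⟨h0, c, h3, h4⟩
    · exact Or.inl h0
    · have h5 := hist_lev hE h1 h3
      exact Or.inr ⟨h0, c, h5, (h2 c).2 (Or.inr ⟨h5.1, c, h3, fun _ => id⟩), h4⟩
  · rintro (h0 | ⟨h0, r, h1, h2, h3⟩)
    · obtain ⟨-, h, h1, h2⟩ := hs
      exact (h2 y).2 (Or.inl h0)
    · exact hs.sub hE h2 h1.1 h0 h3

include hE in
theorem Lev.comp (s t : M) : Lev E s → Lev E t → Mem s t ∨ s = t ∨ Mem t s := by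
  refine mem_ind (S := fun s => ∀ t, Lev E s → Lev E t → Mem s t ∨ s = t ∨ Mem t s) ?_ ?_ s t
  · exact D.all (D.imp (D.lev (DF.const _) (DF.var _)) (D.imp (D.lev (DF.const _) (DF.var _)) (D.or
      (D.memf (DF.var _) (DF.var _)) (D.or (D.eqf (DF.var _) (DF.var _))
        (D.memf (DF.var _) (DF.var _))))))
  · intro s ih t hs
    refine mem_ind (S := fun t => Lev E t → Mem s t ∨ s = t ∨ Mem t s) ?_ ?_ t
    · exact D.imp (D.lev (DF.const _) (DF.var _)) (D.or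
        (D.memf (DF.const _) (DF.var _)) (D.or (D.eqf (DF.const _) (DF.var _))
          (D.memf (DF.var _) (DF.const _))))
    · intro t ih2 ht
      by_contra hcon
      push Not at hcon
      obtain ⟨c1, c2, c3⟩ := hcon
      refine c2 (hM.ext _ _ hs.1 ht.1 fun x => ⟨fun hx => ?_, fun hx => ?_⟩)
      · rcases (hs.mem_iff hE x).1 hx with h0 | ⟨h0, r, h1, h2, h3⟩
        · exact (ht.mem_iff hE x).2 (Or.inl h0)
        rcases ih r h2 t h1 ht with h4 | h4 | h4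
        · exact ht.sub hE h4 h1.1 h0 h3
        · exact absurd (h4 ▸ h2) c3
        · exact absurd (hs.trans hE h2 h4) c3
      · rcases (ht.mem_iff hE x).1 hx with h0 | ⟨h0, r, h1, h2, h3⟩
        · exact (hs.mem_iff hE x).2 (Or.inl h0)
        rcases ih2 r h2 h1 with h4 | h4 | h4
        · exact absurd (ht.trans hE h2 h4) c1
        · exact absurd (h4 ▸ h2) c1
        · exact hs.sub hE h4 h1.1 h0 h3

include hE in
theorem Lev.least {S : M → Prop} (hD : D (fun v : Fin 1 → M => S (v 0))) {r : M} (hr : Lev E r)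
    (h : S r) : ∃! s, Lev E s ∧ S s ∧ ∀ q, Mem q s → Lev E q → ¬ S q := by
  have h1 : ∃ s, Lev E s ∧ S s ∧ ∀ q, Mem q s → Lev E q → ¬ S q := by
    by_contra hcon
    have h2 := mem_ind (S := fun s => Lev E s → ¬ S s) (D.imp (D.lev (DF.const _) (DF.var _))
      (D.not hD)) (fun x ih hx h3 => hcon ⟨x, hx, h3, ih⟩) r hr
    exact h2 h
  obtain ⟨s, h2, h3, h4⟩ := h1
  refine ⟨s, ⟨h2, h3, h4⟩, fun t ⟨h5, h6, h7⟩ => ?_⟩
  rcases Lev.comp hE t s h5 h2 with h8 | h8 | h8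
  · exact absurd h6 (h4 t h8 h5)
  · exact h8
  · exact absurd h3 (h7 s h8 h2)

theorem lev_self (hE : Ur E) : Lev E E := by
  refine ⟨hE.1, small_empty.elt, fun x hx => absurd (small_empty.mem.1 hx) (Set.notMem_empty x),
    fun y => ⟨Or.inl, ?_⟩⟩
  rintro (h | ⟨-, c, hc, -⟩)
  · exact h
  · exact absurd (small_empty.mem.1 hc) (Set.notMem_empty c)

include hE in
theorem Over.mem {x y : M} (hx : Over E x) (hy : Mem y x) : Over E y := by
  rcases hx with ⟨h1, -⟩ | ⟨-, s, h1, h2⟩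
  · exact absurd (hM.atoms y x hy) h1
  · rcases (h1.mem_iff hE y).1 (h2 y hy) with h3 | ⟨h3, r, h4, -, h5⟩
    · exact Or.inl ⟨hE.2 y h3, h3⟩
    · exact Or.inr ⟨h3, r, h4, h5⟩

include hE in
theorem over_of {x : M} (hx : IsSet x) (h : ∀ y, Mem y x → Over E y) : Over E x := by
  obtain ⟨b, -, hb⟩ := hM.repl (fun y s => (IsSet y ∧ Lev E s ∧ MSub y s ∧
      ∀ q, Mem q s → Lev E q → ¬ MSub y q) ∨ (¬ IsSet y ∧ s = E))
    (D.or (D.and (D.isSetf (DF.var _)) (D.and (D.lev (DF.const _) (DF.var _)) (D.and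
      (D.msub (DF.var _) (DF.var _)) (D.all (D.imp
      (D.memf (DF.var _) (DF.var _)) (D.imp (D.lev (DF.const _) (DF.var _)) (D.not
        (D.msub (DF.var _) (DF.var _))))))))) (D.and (D.not (D.isSetf (DF.var _)))
        (D.eqf (DF.var _) (DF.const _)))) x fun y hy => by
      rcases h y hy with ⟨h1, h2⟩ | ⟨h1, r, h2, h3⟩
      · refine ⟨E, Or.inr ⟨h1, rfl⟩, ?_⟩
        rintro s (⟨h3, -⟩ | ⟨-, h3⟩)
        · exact absurd h3 h1
        · exact h3
      · obtain ⟨s, h4, h5⟩ := Lev.least hE (S := fun s => MSub y s)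
          (D.msub (DF.const _) (DF.var _)) h2 h3
        refine ⟨s, Or.inl ⟨h1, h4⟩, ?_⟩
        rintro t (⟨-, h6⟩ | ⟨h6, -⟩)
        · exact h5 t h6
        · exact absurd h1 h6
  obtain ⟨w, -, hw⟩ := hM.union b
  have h1 := small_sep (S := {s | Lev E s}) (D.lev (DF.const _) (DF.var _)) (sm_union b w).elt
  have hbl : ∀ t, Mem t b → Lev E t := fun t ht => by
    obtain ⟨y, -, ⟨-, h2, -⟩ | ⟨-, rfl⟩⟩ := (hb t).1 ht
    · exact h2
    · exact lev_self hE
  have hbh : ∀ t, Mem t b → Mem t h1.elt := fun t ht =>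
    h1.mem.2 ⟨(sm_union b w).mem.2 (Or.inl ht), hbl t ht⟩
  have hdown : ∀ s r, Mem s h1.elt → Lev E r → Mem r s → Mem r h1.elt := by
    intro s r hs hr hrs
    refine h1.mem.2 ⟨(sm_union b w).mem.2 (Or.inr ?_), hr⟩
    obtain ⟨h2, h3⟩ := h1.mem.1 hs
    rcases (sm_union b w).mem.1 h2 with h4 | h4
    · exact (hw r).2 ⟨s, h4, hrs⟩
    · obtain ⟨t, h5, h6⟩ := (hw s).1 h4
      exact (hw r).2 ⟨t, h5, (hbl t h5).trans hE h6 hrs⟩
  have hh : Hist E h1.elt := by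
    intro s hs
    obtain ⟨-, h3⟩ := h1.mem.1 hs
    have h3 : Lev E s := h3
    refine ⟨h3.1, fun y => ?_⟩
    rw [h3.mem_iff hE]
    refine or_congr_right (and_congr_right fun _ => ?_)
    constructor
    · rintro ⟨r, h4, h5, h6⟩
      exact ⟨r, hdown s r hs h4 h5, h5, h6⟩
    · rintro ⟨r, h4, h5, h6⟩
      exact ⟨r, (h1.mem.1 h4).2, h5, h6⟩
  obtain ⟨s, hs0, hs⟩ := exists_pot E h1.elt
  refine Or.inr ⟨hx, s, ⟨hs0, h1.elt, hh, hs⟩, fun y hy => ?_⟩
  rcases h y hy with ⟨h2, h3⟩ | ⟨h2, r, h3, h4⟩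
  · exact (hs y).2 (Or.inl h3)
  · obtain ⟨l, h5, -⟩ := Lev.least hE (S := fun s => MSub y s)
      (D.msub (DF.const _) (DF.var _)) h3 h4
    exact (hs y).2 (Or.inr ⟨h2, l, hbh l ((hb l).2 ⟨y, hy, Or.inl ⟨h2, h5⟩⟩), h5.2.1⟩)

theorem Over.mono {E E' : M} (hE : Ur E) (hE' : Ur E') (h : MSub E E') (x : M) :
    Over E x → Over E' x := by
  refine mem_ind (S := fun x => Over E x → Over E' x) (D.imp (D.over (DF.const _) (DF.var _))
    (D.over (DF.const _) (DF.var _))) ?_ x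
  intro x ih hx
  by_cases h1 : IsSet x
  · exact over_of hE' h1 fun y hy => ih y hy (hx.mem hE hy)
  · rcases hx with ⟨-, h2⟩ | ⟨h2, -⟩
    · exact Or.inl ⟨h1, h x h2⟩
    · exact absurd h2 h1

theorem Over.inter {E E' E'' : M} (hE : Ur E) (hE' : Ur E') (hE'' : Ur E'')
    (h : ∀ u, Mem u E → Mem u E' → Mem u E'') (x : M) :
    Over E x → Over E' x → Over E'' x := by
  refine mem_ind (S := fun x => Over E x → Over E' x → Over E'' x) (D.imp
    (D.over (DF.const _) (DF.var _)) (D.imp (D.over (DF.const _) (DF.var _))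
    (D.over (DF.const _) (DF.var _)))) ?_ x
  intro x ih hx hx'
  by_cases h1 : IsSet x
  · exact over_of hE'' h1 fun y hy => ih y hy (hx.mem hE hy) (hx'.mem hE' hy)
  · rcases hx with ⟨-, h2⟩ | ⟨h2, -⟩
    · rcases hx' with ⟨-, h3⟩ | ⟨h3, -⟩
      · exact Or.inl ⟨h1, h x h2 h3⟩
      · exact absurd h3 h1
    · exact absurd h2 h1

theorem exists_over (x : M) : ∃ E, Ur E ∧ Over E x := by
  obtain ⟨t, h1, h2⟩ := exists_trans (up x x)
  have h3 := small_sep (S := {z | ¬ IsSet z}) (D.not (D.isSetf (DF.var _))) t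
  have hE : Ur h3.elt := ⟨h3.isSet, fun u hu => (h3.mem.1 hu).2⟩
  refine ⟨h3.elt, hE, ?_⟩
  have h4 : ∀ z, Mem z t → Over h3.elt z := by
    refine mem_ind (S := fun z => Mem z t → Over h3.elt z) (D.imp (D.memf (DF.var _) (DF.const _))
      (D.over (DF.const _) (DF.var _))) ?_
    intro z ih hz
    by_cases h5 : IsSet z
    · exact over_of hE h5 fun y hy => ih y hy (h2 z y hz hy)
    · exact Or.inl ⟨h5, h3.mem.2 ⟨hz, h5⟩⟩
  exact h4 x (h1 x (mem_up.2 (Or.inl rfl)))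

end

end Pool.Agent.H839R3
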