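import Pool.Agent.H839R3.Rec

/-!
# Sets over a proper class of urelements with countable kernels: the domain and its automorphisms
-/

namespace Pool.Agent.H839R3.Kern

open FirstOrder FirstOrder.Language
open Pool.Agent.Helper672.ZFA

universe u v

/-- The urelement with index `z`. -/
noncomputable def atm (z : ZFSet.{u}) : ZFSet.{u} := ZFSet.pair ∅ z

/-- The set with the elements of `s`. -/
noncomputable def st (s : ZFSet.{u}) : ZFSet.{u} := ZFSet.pair {∅} s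

theorem atm_inj {z z' : ZFSet.{u}} (h : atm z = atm z') : z = z' := (ZFSet.pair_inj.1 h).2

theorem st_inj {z z' : ZFSet.{u}} (h : st z = st z') : z = z' := (ZFSet.pair_inj.1 h).2

theorem st_ne_atm {z z' : ZFSet.{u}} (h : st z = atm z') : False := by
  have h1 := (ZFSet.pair_inj.1 h).1
  have h2 : (∅ : ZFSet.{u}) ∈ ({∅} : ZFSet.{u}) := ZFSet.mem_singleton.2 rfl
  rw [h1] at h2
  exact ZFSet.notMem_empty _ h2

theorem rank_lt_st {y s : ZFSet.{u}} (h : y ∈ s) : y.rank < (st s).rank := by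
  have h1 : s ∈ ({({∅} : ZFSet.{u}), s} : ZFSet.{u}) := ZFSet.mem_pair.2 (Or.inr rfl)
  have h2 : ({({∅} : ZFSet.{u}), s} : ZFSet.{u}) ∈ st s := ZFSet.mem_pair.2 (Or.inr rfl)
  exact (ZFSet.rank_lt_of_mem h).trans ((ZFSet.rank_lt_of_mem h1).trans (ZFSet.rank_lt_of_mem h2))

theorem mem_sUnion_st {y s t : ZFSet.{u}} (h : y ∈ s) (h' : st s ∈ t) :
    y ∈ (ZFSet.sUnion (ZFSet.sUnion (ZFSet.sUnion t))) := by
  have h1 : s ∈ ({({∅} : ZFSet.{u}), s} : ZFSet.{u}) := ZFSet.mem_pair.2 (Or.inr rfl)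
  have h2 : ({({∅} : ZFSet.{u}), s} : ZFSet.{u}) ∈ st s := ZFSet.mem_pair.2 (Or.inr rfl)
  exact ZFSet.mem_sUnion.2 ⟨s, ZFSet.mem_sUnion.2 ⟨_, ZFSet.mem_sUnion.2 ⟨_, h', h2⟩, h1⟩, h⟩

/-- `x` is built from the urelements with index in `B`. -/
inductive Ov (B : Set ZFSet.{u}) : ZFSet.{u} → Prop
  | atom (z : ZFSet.{u}) (hz : z ∈ B) : Ov B (atm z)
  | set (s : ZFSet.{u}) (h : ∀ y ∈ s, Ov B y) : Ov B (st s)

theorem Ov.cases' {B : Set ZFSet.{u}} {x : ZFSet.{u}} (h : Ov B x) :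
    (∃ z ∈ B, x = atm z) ∨ ∃ s, x = st s ∧ ∀ y ∈ s, Ov B y := by
  cases h with
  | atom z hz => exact Or.inl ⟨z, hz, rfl⟩
  | set s h => exact Or.inr ⟨s, rfl, h⟩

theorem Ov.of_st {B : Set ZFSet.{u}} {s : ZFSet.{u}} (h : Ov B (st s)) : ∀ y ∈ s, Ov B y := by
  rcases h.cases' with ⟨z, -, h1⟩ | ⟨t, h1, h2⟩
  · exact (st_ne_atm h1).elim
  · rw [st_inj h1]
    exact h2

theorem Ov.of_atm {B : Set ZFSet.{u}} {z : ZFSet.{u}} (h : Ov B (atm z)) : z ∈ B := by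
  rcases h.cases' with ⟨z', h0, h1⟩ | ⟨t, h1, h2⟩
  · rwa [atm_inj h1]
  · exact (st_ne_atm h1.symm).elim

theorem Ov.mono {B B' : Set ZFSet.{u}} {x : ZFSet.{u}} (h : Ov B x) (hB : B ⊆ B') : Ov B' x := by
  induction h with
  | atom z hz => exact Ov.atom z (hB hz)
  | set s _ ih => exact Ov.set s ih

/-! ### The action of permutations -/

open Classical in
/-- The action of a permutation of the indices. -/
noncomputable def act (π : ZFSet.{u} → ZFSet.{u}) : ZFSet.{u} → ZFSet.{u} :=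
  (InvImage.wf ZFSet.rank (wellFounded_lt (α := Ordinal.{u}))).fix (fun x rec =>
    if h : ∃ s, x = st s then st (ZFSet.range (fun y : {y // y ∈ h.choose} => rec y.1 (by
      have h1 := rank_lt_st y.2
      rw [← h.choose_spec] at h1
      exact h1)))
    else if h' : ∃ z, x = atm z then atm (π h'.choose) else x)

theorem act_atm (π : ZFSet.{u} → ZFSet.{u}) (z : ZFSet.{u}) : act π (atm z) = atm (π z) := by
  have h1 : ¬ ∃ s, atm z = st s := fun ⟨s, hs⟩ => st_ne_atm hs.symm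
  have h2 : ∃ z', atm z = atm z' := ⟨z, rfl⟩
  rw [act, WellFounded.fix_eq, dif_neg h1, dif_pos h2, ← atm_inj h2.choose_spec]

theorem act_st (π : ZFSet.{u} → ZFSet.{u}) (s : ZFSet.{u}) : act π (st s) =
    st (ZFSet.range (fun y : {y // y ∈ s} => act π y.1)) := by
  have h1 : ∃ s', st s = st s' := ⟨s, rfl⟩
  rw [act, WellFounded.fix_eq, dif_pos h1]
  have h2 := st_inj h1.choose_spec
  refine congrArg st ?_
  ext z
  rw [ZFSet.mem_range, ZFSet.mem_range]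
  constructor
  · rintro ⟨⟨y, hy⟩, h3⟩
    exact ⟨⟨y, by rw [h2]; exact hy⟩, h3⟩
  · rintro ⟨⟨y, hy⟩, h3⟩
    exact ⟨⟨y, by rw [h2] at hy; exact hy⟩, h3⟩

/-- The image of a set. -/
noncomputable def img (π : ZFSet.{u} → ZFSet.{u}) (s : ZFSet.{u}) : ZFSet.{u} :=
  ZFSet.range (fun y : {y // y ∈ s} => act π y.1)

theorem mem_img {π : ZFSet.{u} → ZFSet.{u}} {s z : ZFSet.{u}} :
    z ∈ img π s ↔ ∃ y ∈ s, act π y = z := by
  rw [img, ZFSet.mem_range]
  exact ⟨fun ⟨⟨y, hy⟩, h⟩ => ⟨y, hy, h⟩, fun ⟨y, hy, h⟩ => ⟨⟨y, hy⟩, h⟩⟩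

theorem Ov.act {B : Set ZFSet.{u}} {x : ZFSet.{u}} (h : Ov B x) (π : ZFSet.{u} → ZFSet.{u})
    {B' : Set ZFSet.{u}} (hB : ∀ z ∈ B, π z ∈ B') : Ov B' (Kern.act π x) := by
  induction h with
  | atom z hz =>
    rw [act_atm]
    exact Ov.atom _ (hB z hz)
  | set s _ ih =>
    rw [act_st]
    refine Ov.set _ fun y hy => ?_
    obtain ⟨y', h1, rfl⟩ := mem_img.1 hy
    exact ih y' h1

theorem act_comp {B : Set ZFSet.{u}} {x : ZFSet.{u}} (h : Ov B x) (π σ : ZFSet.{u} → ZFSet.{u}) :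
    Kern.act σ (Kern.act π x) = Kern.act (fun z => σ (π z)) x := by
  induction h with
  | atom z hz => rw [act_atm, act_atm, act_atm]
  | set s _ ih =>
    rw [act_st, act_st, act_st]
    refine congrArg st ?_
    change img σ (img π s) = img _ s
    ext z
    rw [mem_img, mem_img]
    constructor
    · rintro ⟨y, h1, h2⟩
      obtain ⟨y', h3, rfl⟩ := mem_img.1 h1
      exact ⟨y', h3, by rw [← h2, ih y' h3]⟩
    · rintro ⟨y, h1, h2⟩
      exact ⟨_, mem_img.2 ⟨y, h1, rfl⟩, by rw [← h2, ih y h1]⟩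

theorem act_fix {B : Set ZFSet.{u}} {x : ZFSet.{u}} (h : Ov B x) (π : ZFSet.{u} → ZFSet.{u})
    (hB : ∀ z ∈ B, π z = z) : Kern.act π x = x := by
  induction h with
  | atom z hz => rw [act_atm, hB z hz]
  | set s _ ih =>
    rw [act_st]
    refine congrArg st ?_
    change img π s = s
    ext z
    rw [mem_img]
    constructor
    · rintro ⟨y, h1, h2⟩
      rwa [← h2, ih y h1]
    · intro h1
      exact ⟨z, h1, ih z h1⟩

/-! ### The model -/

/-- The urelements and sets with countable kernel. -/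
@[ext] structure N : Type (u + 1) where
  /-- the code -/
  val : ZFSet.{u}
  prop : ∃ B : Set ZFSet.{u}, B.Countable ∧ Ov B val

instance : L.Structure N.{u} where
  funMap := fun f => Empty.elim f
  RelMap := fun {_} r v => match r, v with
    | Sym.isSet, v => ∃ s, (v 0).val = st s
    | Sym.mem, v => ∃ s, (v 1).val = st s ∧ (v 0).val ∈ s

theorem isSet_iff {x : N.{u}} : IsSet x ↔ ∃ s, x.val = st s := Iff.rfl

theorem mem_iff {x y : N.{u}} : Mem x y ↔ ∃ s, y.val = st s ∧ x.val ∈ s := Iff.rfl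

theorem mem_of_st {x y : N.{u}} {s : ZFSet.{u}} (hy : y.val = st s) : Mem x y ↔ x.val ∈ s := by
  rw [mem_iff]
  constructor
  · rintro ⟨t, h1, h2⟩
    rw [hy] at h1
    rwa [st_inj h1]
  · intro h
    exact ⟨s, hy, h⟩

theorem isSet_of_mem {x y : N.{u}} (h : Mem x y) : ∃ s, y.val = st s ∧ x.val ∈ s := mem_iff.1 h

/-- Strong comprehension. -/
theorem comp (P : N.{u} → Prop) (s : ZFSet.{u}) (hs : ∀ x, P x → x.val ∈ s)
    (B : Set ZFSet.{u}) (hB : B.Countable) (hPB : ∀ x, P x → Ov B x.val) :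
    ∃ b : N.{u}, IsSet b ∧ (∀ z, Mem z b ↔ P z) ∧ Ov B b.val := by
  let t : ZFSet.{u} := ZFSet.sep (fun z => ∃ h, P ⟨z, h⟩) s
  have ht : Ov B (st t) := by
    refine Ov.set t fun y hy => ?_
    obtain ⟨-, h, hP⟩ := ZFSet.mem_sep.1 hy
    exact hPB _ hP
  refine ⟨⟨st t, B, hB, ht⟩, isSet_iff.2 ⟨t, rfl⟩, fun z => ?_, ht⟩
  rw [mem_of_st rfl]
  constructor
  · intro h2
    obtain ⟨-, h, hP⟩ := ZFSet.mem_sep.1 h2
    exact hP
  · intro hP
    exact ZFSet.mem_sep.2 ⟨hs z hP, z.prop, hP⟩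

theorem exists_bound (a : N.{u}) : ∃ s : ZFSet.{u}, ∀ x, Mem x a → x.val ∈ s := by
  by_cases h : ∃ s, a.val = st s
  · obtain ⟨s, hs⟩ := h
    exact ⟨s, fun x hx => (mem_of_st hs).1 hx⟩
  · refine ⟨∅, fun x hx => ?_⟩
    obtain ⟨s, h1, -⟩ := isSet_of_mem hx
    exact absurd ⟨s, h1⟩ h

theorem mem_rank {x y : N.{u}} (h : Mem y x) : y.val.rank < x.val.rank := by
  obtain ⟨s, h1, h2⟩ := isSet_of_mem h
  rw [h1]
  exact rank_lt_st h2

theorem ov_mem {x y : N.{u}} {B : Set ZFSet.{u}} (hx : Ov B x.val) (h : Mem y x) :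
    Ov B y.val := by
  obtain ⟨s, h1, h2⟩ := isSet_of_mem h
  rw [h1] at hx
  exact hx.of_st _ h2

theorem strongSep (a : N.{u}) (P : N.{u} → Prop) :
    ∃ b : N.{u}, IsSet b ∧ ∀ z, Mem z b ↔ Mem z a ∧ P z := by
  obtain ⟨B, hB, hB'⟩ := a.prop
  obtain ⟨s, hs⟩ := exists_bound a
  obtain ⟨b, h1, h2, -⟩ := comp (fun z => Mem z a ∧ P z) s (fun x hx => hs x hx.1) B hB
    (fun x hx => ov_mem hB' hx.1)
  exact ⟨b, h1, h2⟩

/-- The natural numbers. -/
noncomputable def nat : ℕ → ZFSet.{u}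
  | 0 => ∅
  | n + 1 => insert (st (nat n)) (nat n)

theorem ov_nat (n : ℕ) : ∀ y ∈ nat.{u} n, Ov ∅ y := by
  induction n with
  | zero => exact fun y hy => absurd hy (ZFSet.notMem_empty y)
  | succ n ih =>
    intro y hy
    rcases ZFSet.mem_insert_iff.1 hy with rfl | h
    · exact Ov.set _ ih
    · exact ih y h

instance isModel : IsModel N.{u} where
  atoms x y h := by
    obtain ⟨s, h1, -⟩ := isSet_of_mem h
    exact isSet_iff.2 ⟨s, h1⟩
  ext x y hx hy h := by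
    obtain ⟨s, hs⟩ := isSet_iff.1 hx
    obtain ⟨t, ht⟩ := isSet_iff.1 hy
    obtain ⟨Bx, hBx, hBx'⟩ := x.prop
    obtain ⟨By, hBy, hBy'⟩ := y.prop
    rw [hs] at hBx'
    rw [ht] at hBy'
    have h1 : s = t := by
      ext z
      constructor
      · intro hz
        exact (mem_of_st ht).1 ((h ⟨z, Bx, hBx, hBx'.of_st z hz⟩).1 ((mem_of_st hs).2 hz))
      · intro hz
        exact (mem_of_st hs).1 ((h ⟨z, By, hBy, hBy'.of_st z hz⟩).2 ((mem_of_st ht).2 hz))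
    exact N.ext (by rw [hs, ht, h1])
  pairing x y := by
    obtain ⟨Bx, hBx, hBx'⟩ := x.prop
    obtain ⟨By, hBy, hBy'⟩ := y.prop
    obtain ⟨b, h1, h2, -⟩ := comp (fun z => z = x ∨ z = y) {x.val, y.val} (fun z hz => by
      rcases hz with rfl | rfl
      · exact ZFSet.mem_pair.2 (Or.inl rfl)
      · exact ZFSet.mem_pair.2 (Or.inr rfl)) (Bx ∪ By) (hBx.union hBy) (fun z hz => by
      rcases hz with rfl | rfl
      · exact hBx'.mono Set.subset_union_left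
      · exact hBy'.mono Set.subset_union_right)
    exact ⟨b, h1, h2⟩
  union x := by
    obtain ⟨Bx, hBx, hBx'⟩ := x.prop
    obtain ⟨s, hs⟩ := exists_bound x
    obtain ⟨b, h1, h2, -⟩ := comp (fun z => ∃ y, Mem y x ∧ Mem z y)
      (ZFSet.sUnion (ZFSet.sUnion (ZFSet.sUnion s))) (fun z ⟨y, h1, h2⟩ => by
        obtain ⟨t, h3, h4⟩ := isSet_of_mem h2
        have h5 := hs y h1
        rw [h3] at h5
        exact mem_sUnion_st h4 h5) Bx hBx (fun z ⟨y, h1, h2⟩ => ov_mem (ov_mem hBx' h1) h2)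
    exact ⟨b, h1, h2⟩
  power x := by
    obtain ⟨Bx, hBx, hBx'⟩ := x.prop
    obtain ⟨s, hs⟩ := exists_bound x
    have key2 : ∀ z : N.{u}, IsSet z → (∀ w, Mem w z → Mem w x) → ∃ t, z.val = st t ∧ t ⊆ s ∧
        ∀ y ∈ t, Ov Bx y := by
      intro z hz h
      obtain ⟨t, ht⟩ := isSet_iff.1 hz
      obtain ⟨B, hB, hB'⟩ := z.prop
      rw [ht] at hB'
      refine ⟨t, ht, fun y hy => hs ⟨y, B, hB, hB'.of_st y hy⟩ (h _ ((mem_of_st ht).2 hy)),
        fun y hy => ?_⟩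
      exact ov_mem hBx' (h ⟨y, B, hB, hB'.of_st y hy⟩ ((mem_of_st ht).2 hy))
    obtain ⟨b, h1, h2, -⟩ := comp (fun z => IsSet z ∧ ∀ w, Mem w z → Mem w x)
      (ZFSet.range (fun t : {t // t ∈ ZFSet.powerset s} => st t.1)) (fun z ⟨h1, h2⟩ => by
        obtain ⟨t, h3, h4, -⟩ := key2 z h1 h2
        exact ZFSet.mem_range.2 ⟨⟨t, ZFSet.mem_powerset.2 h4⟩, h3.symm⟩) Bx hBx
      (fun z ⟨h1, h2⟩ => by
        obtain ⟨t, h3, -, h4⟩ := key2 z h1 h2
        rw [h3]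
        exact Ov.set t h4)
    exact ⟨b, h1, h2⟩
  infinity := by
    have hn : ∀ n, ∃ B : Set ZFSet.{u}, B.Countable ∧ Ov B (st (nat.{u} n)) :=
      fun n => ⟨∅, Set.countable_empty, Ov.set _ (ov_nat n)⟩
    obtain ⟨b, h1, h2, -⟩ := comp (fun z => ∃ n, z.val = st (nat.{u} n))
      (ZFSet.range (fun n : ULift.{u} ℕ => st (nat.{u} n.down))) (fun z ⟨n, hn⟩ =>
        ZFSet.mem_range.2 ⟨⟨n⟩, hn.symm⟩) ∅ Set.countable_empty (fun z ⟨n, hn⟩ => by
        rw [hn]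
        exact Ov.set _ (ov_nat n))
    refine ⟨b, ⟨⟨st (nat 0), hn 0⟩, (h2 _).2 ⟨0, rfl⟩, isSet_iff.2 ⟨_, rfl⟩, ?_⟩,
      fun n hn' => ?_⟩
    · intro z hz
      exact ZFSet.notMem_empty _ ((mem_of_st (s := nat 0) rfl).1 hz)
    · obtain ⟨m, hm⟩ := (h2 n).1 hn'
      refine ⟨⟨st (nat (m + 1)), hn (m + 1)⟩, (h2 _).2 ⟨m + 1, rfl⟩, isSet_iff.2 ⟨_, rfl⟩,
        fun z => ?_⟩
      rw [mem_of_st (s := nat (m + 1)) rfl, mem_of_st hm]
      change z.val ∈ insert (st (nat m)) (nat m) ↔ _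
      rw [ZFSet.mem_insert_iff, N.ext_iff, hm]
      exact or_comm
  separation S _ x := strongSep x fun z => z ∈ S

/-! ### Automorphisms -/

theorem isSet_act {x : ZFSet.{u}} {B : Set ZFSet.{u}} (h : Ov B x) (π : ZFSet.{u} → ZFSet.{u}) :
    (∃ s, act π x = st s) ↔ ∃ s, x = st s := by
  rcases h.cases' with ⟨z, -, rfl⟩ | ⟨s, rfl, -⟩
  · rw [act_atm]
    exact ⟨fun ⟨s, hs⟩ => (st_ne_atm hs.symm).elim, fun ⟨s, hs⟩ => (st_ne_atm hs.symm).elim⟩
  · rw [act_st]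
    exact ⟨fun _ => ⟨_, rfl⟩, fun _ => ⟨_, rfl⟩⟩

theorem mem_act {x y : ZFSet.{u}} {B B' : Set ZFSet.{u}} (h : Ov B x) (h' : Ov B' y)
    (π : Equiv.Perm ZFSet.{u}) :
    (∃ s, act π x = st s ∧ act π y ∈ s) ↔ ∃ s, x = st s ∧ y ∈ s := by
  rcases h.cases' with ⟨z, -, rfl⟩ | ⟨s, rfl, h4⟩
  · rw [act_atm]
    exact ⟨fun ⟨s, hs, _⟩ => (st_ne_atm hs.symm).elim,
      fun ⟨s, hs, _⟩ => (st_ne_atm hs.symm).elim⟩
  · rw [act_st]
    constructor
    · rintro ⟨t, h5, h6⟩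
      obtain rfl := st_inj h5
      obtain ⟨z, h7, h8⟩ := mem_img.1 h6
      refine ⟨s, rfl, ?_⟩
      have h9 := congrArg (act π.symm) h8
      rw [act_comp (h4 z h7), act_comp h',
        act_fix (h4 z h7) _ fun z _ => π.symm_apply_apply z,
        act_fix h' _ fun z _ => π.symm_apply_apply z] at h9
      rwa [← h9]
    · rintro ⟨t, h5, h6⟩
      obtain rfl := st_inj h5
      exact ⟨_, rfl, mem_img.2 ⟨_, h6, rfl⟩⟩

/-- The automorphism given by a permutation. -/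
noncomputable def aut (π : Equiv.Perm ZFSet.{u}) : N.{u} ≃[L] N.{u} where
  toFun x := ⟨act π x.val, by
    obtain ⟨B, h1, h2⟩ := x.prop
    exact ⟨π '' B, h1.image _, h2.act π fun z hz => ⟨z, hz, rfl⟩⟩⟩
  invFun x := ⟨act π.symm x.val, by
    obtain ⟨B, h1, h2⟩ := x.prop
    exact ⟨π.symm '' B, h1.image _, h2.act π.symm fun z hz => ⟨z, hz, rfl⟩⟩⟩
  left_inv x := by
    obtain ⟨B, h1, h2⟩ := x.prop
    refine N.ext ?_
    change act π.symm (act π x.val) = x.val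
    rw [act_comp h2]
    exact act_fix h2 _ fun z _ => π.symm_apply_apply z
  right_inv x := by
    obtain ⟨B, h1, h2⟩ := x.prop
    refine N.ext ?_
    change act π (act π.symm x.val) = x.val
    rw [act_comp h2]
    exact act_fix h2 _ fun z _ => π.apply_symm_apply z
  map_fun' := fun f => Empty.elim f
  map_rel' := fun {n} r v => by
    cases r with
    | isSet =>
      obtain ⟨B, h1, h2⟩ := (v 0).prop
      exact isSet_act h2 π
    | mem =>
      obtain ⟨B, h1, h2⟩ := (v 1).prop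
      obtain ⟨B', h1', h2'⟩ := (v 0).prop
      exact mem_act h2 h2' π

theorem aut_val (π : Equiv.Perm ZFSet.{u}) (x : N.{u}) : (aut π x).val = act π x.val := rfl

theorem aut_fix {π : Equiv.Perm ZFSet.{u}} {B : Set ZFSet.{u}} {x : N.{u}} (h : Ov B x.val)
    (hB : ∀ z ∈ B, π z = z) : aut π x = x := N.ext (act_fix h _ hB)

/-! ### Permutations -/

open Classical in
theorem exists_swap {α : Type v} {X Y : Set α} (f : α → α) (hf : ∀ x ∈ X, f x ∈ Y)
    (hinj : ∀ x ∈ X, ∀ y ∈ X, f x = f y → x = y) (hXY : ∀ x ∈ X, x ∉ Y) :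
    ∃ π : Equiv.Perm α, (∀ x ∈ X, π x = f x) ∧ ∀ z, z ∉ X → z ∉ Y → π z = z := by
  let τ : α → α := fun z => if z ∈ X then f z else if h : ∃ x ∈ X, f x = z then h.choose else z
  have h1 : ∀ x ∈ X, τ x = f x := fun x hx => if_pos hx
  have h2 : ∀ x ∈ X, τ (f x) = x := by
    intro x hx
    have h3 : f x ∉ X := fun h => hXY _ h (hf x hx)
    have h4 : ∃ y ∈ X, f y = f x := ⟨x, hx, rfl⟩
    change (if f x ∈ X then _ else if h : ∃ y ∈ X, f y = f x then h.choose else f x) = x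
    rw [if_neg h3, dif_pos h4]
    exact hinj _ h4.choose_spec.1 _ hx h4.choose_spec.2
  have h3 : ∀ z, z ∉ X → (¬ ∃ x ∈ X, f x = z) → τ z = z := by
    intro z h4 h5
    change (if z ∈ X then _ else if h : ∃ y ∈ X, f y = z then h.choose else z) = z
    rw [if_neg h4, dif_neg h5]
  have hτ : Function.Involutive τ := by
    intro z
    by_cases h4 : z ∈ X
    · rw [h1 z h4, h2 z h4]
    · by_cases h5 : ∃ x ∈ X, f x = z
      · obtain ⟨x, hx, rfl⟩ := h5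
        rw [h2 x hx, h1 x hx]
      · rw [h3 z h4 h5, h3 z h4 h5]
  refine ⟨hτ.toPerm, h1, fun z h4 h5 => h3 z h4 ?_⟩
  rintro ⟨x, hx, rfl⟩
  exact h5 (hf x hx)

theorem not_countable_univ : ¬ (Set.univ : Set ZFSet.{u}).Countable := by
  intro h
  have h1 : Countable ZFSet.{u} := Set.countable_univ_iff.1 h
  obtain ⟨f, hf⟩ := exists_surjective_nat ZFSet.{u}
  refine ZFSet.mem_irrefl (ZFSet.range fun n : ULift.{u} ℕ => f n.down) ?_
  rw [ZFSet.mem_range]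
  obtain ⟨n, hn⟩ := hf (ZFSet.range fun n : ULift.{u} ℕ => f n.down)
  exact ⟨⟨n⟩, hn⟩

/-- An injection of `ℕ` into the complement of a countable set. -/
theorem exists_nat {B : Set ZFSet.{u}} (hB : B.Countable) :
    ∃ c : ℕ → ZFSet.{u}, Function.Injective c ∧ ∀ n, c n ∉ B := by
  have h1 : Infinite (Bᶜ : Set ZFSet.{u}) := by
    rw [Set.infinite_coe_iff]
    intro h
    apply not_countable_univ.{u}
    rw [← Set.union_compl_self B]
    exact hB.union h.countable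
  refine ⟨fun n => (Infinite.natEmbedding (Bᶜ : Set ZFSet.{u}) n).1, fun m n h => ?_,
    fun n => (Infinite.natEmbedding (Bᶜ : Set ZFSet.{u}) n).2⟩
  exact (Infinite.natEmbedding (Bᶜ : Set ZFSet.{u})).injective (Subtype.ext h)

theorem exists_move {E X : Set ZFSet.{u}} (hE : E.Countable) (hX : X.Countable)
    (c : ℕ → ZFSet.{u}) (hc : Function.Injective c) (hcE : ∀ n, c n ∉ E) :
    ∃ π : Equiv.Perm ZFSet.{u}, (∀ z ∈ E, π z = z) ∧ ∀ x ∈ X, x ∈ E ∨ π x ∈ Set.range c := by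
  obtain ⟨d, hd, hd'⟩ := exists_nat ((hE.union hX).union (Set.countable_range c))
  have hdE : ∀ n, d n ∉ E := fun n h => hd' n (Or.inl (Or.inl h))
  have hdX : ∀ n, d n ∉ X := fun n h => hd' n (Or.inl (Or.inr h))
  have hdc : ∀ n, d n ∉ Set.range c := fun n h => hd' n (Or.inr h)
  obtain ⟨g, hg⟩ : ∃ g : ZFSet.{u} → ℕ, ∀ x ∈ X, ∀ y ∈ X, g x = g y → x = y := by
    obtain ⟨g, hg⟩ := (Set.countable_iff_exists_injOn).1 hX
    exact ⟨g, fun x hx y hy h => hg hx hy h⟩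
  obtain ⟨π₁, h1, h2⟩ := exists_swap (X := X \ E) (Y := Set.range d) (fun x => d (g x))
    (fun x _ => ⟨_, rfl⟩) (fun x hx y hy h => hg x hx.1 y hy.1 (hd h))
    (fun x hx ⟨n, hn⟩ => hdX n (hn ▸ hx.1))
  classical
  obtain ⟨π₂, h3, h4⟩ := exists_swap (X := Set.range d) (Y := Set.range c)
    (fun x => if h : ∃ n, d n = x then c h.choose else x)
    (fun x hx => by
      have hx' : ∃ n, d n = x := hx
      rw [dif_pos hx']
      exact ⟨_, rfl⟩)
    (fun x hx y hy h => by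
      have hx' : ∃ n, d n = x := hx
      have hy' : ∃ n, d n = y := hy
      rw [dif_pos hx', dif_pos hy'] at h
      have h5 := hc h
      rw [← hx'.choose_spec, ← hy'.choose_spec, h5])
    (fun x ⟨n, hn⟩ h => hdc n (hn ▸ h))
  refine ⟨π₁.trans π₂, fun z hz => ?_, fun x hx => ?_⟩
  · rw [Equiv.trans_apply, h2 z (fun h => h.2 hz) (fun ⟨n, hn⟩ => hdE n (hn ▸ hz)),
      h4 z (fun ⟨n, hn⟩ => hdE n (hn ▸ hz)) (fun ⟨n, hn⟩ => hcE n (hn ▸ hz))]
  · by_cases hxE : x ∈ E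
    · exact Or.inl hxE
    · refine Or.inr ?_
      rw [Equiv.trans_apply, h1 x ⟨hx, hxE⟩, h3 _ ⟨_, rfl⟩]
      have h5 : ∃ n, d n = d (g x) := ⟨_, rfl⟩
      rw [dif_pos h5]
      exact ⟨_, rfl⟩

end Pool.Agent.H839R3.Kern
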