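import Pool.Agent.H839R3.Rec

/-!
# Elementary substructures of models of set theory with urelements
-/

namespace Pool.Agent.H839R3

open FirstOrder FirstOrder.Language
open Pool.Agent.Helper672.ZFA

universe u

variable {M : Type u} [L.Structure M] (S : L.ElementarySubstructure M)

/-- The same formula with parameters in `S` defines `p` in the model and `q` in `S`. -/
def TR {ι : Type} (p : (ι → M) → Prop) (q : (ι → S) → Prop) : Prop :=
  ∃ φ : L.Formula (S ⊕ ι), (∀ v : ι → M, φ.Realize (Sum.elim (fun a => (a : M)) v) ↔ p v) ∧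
    ∀ v : ι → S, φ.Realize (Sum.elim id v) ↔ q v

variable {S} {ι : Type}

theorem TR.elem {p : (ι → M) → Prop} {q : (ι → S) → Prop} (h : TR S p q) (v : ι → S) :
    p (fun i => v i) ↔ q v := by
  obtain ⟨φ, h1, h2⟩ := h
  rw [← h1, ← h2, ← S.subtype.map_formula]
  refine iff_of_eq (congrArg φ.Realize ?_)
  funext i
  rcases i with i | i <;> rfl

theorem TR.not {p : (ι → M) → Prop} {q : (ι → S) → Prop} (h : TR S p q) :
    TR S (fun v => ¬ p v) (fun v => ¬ q v) := by
  obtain ⟨φ, h1, h2⟩ := h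
  refine ⟨φ.not, fun v => ?_, fun v => ?_⟩
  · rw [Formula.realize_not, h1]
  · rw [Formula.realize_not, h2]

theorem TR.imp {p p' : (ι → M) → Prop} {q q' : (ι → S) → Prop} (h : TR S p q)
    (h' : TR S p' q') : TR S (fun v => p v → p' v) (fun v => q v → q' v) := by
  obtain ⟨φ, h1, h2⟩ := h
  obtain ⟨ψ, h3, h4⟩ := h'
  refine ⟨φ.imp ψ, fun v => ?_, fun v => ?_⟩
  · rw [Formula.realize_imp, h1, h3]
  · rw [Formula.realize_imp, h2, h4]

theorem TR.congr {p p' : (ι → M) → Prop} {q q' : (ι → S) → Prop} (h : TR S p q)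
    (hp : ∀ v, p v ↔ p' v) (hq : ∀ v, q v ↔ q' v) : TR S p' q' := by
  obtain ⟨φ, h1, h2⟩ := h
  exact ⟨φ, fun v => (h1 v).trans (hp v), fun v => (h2 v).trans (hq v)⟩

theorem TR.and {p p' : (ι → M) → Prop} {q q' : (ι → S) → Prop} (h : TR S p q)
    (h' : TR S p' q') : TR S (fun v => p v ∧ p' v) (fun v => q v ∧ q' v) :=
  (h.imp h'.not).not.congr (fun _ => by rw [Classical.not_imp, not_not])
    fun _ => by rw [Classical.not_imp, not_not]

theorem TR.or {p p' : (ι → M) → Prop} {q q' : (ι → S) → Prop} (h : TR S p q)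
    (h' : TR S p' q') : TR S (fun v => p v ∨ p' v) (fun v => q v ∨ q' v) :=
  (h.not.imp h').congr (fun _ => or_iff_not_imp_left.symm) fun _ => or_iff_not_imp_left.symm

theorem TR.iff {p p' : (ι → M) → Prop} {q q' : (ι → S) → Prop} (h : TR S p q)
    (h' : TR S p' q') : TR S (fun v => (p v ↔ p' v)) (fun v => (q v ↔ q' v)) :=
  ((h.imp h').and (h'.imp h)).congr (fun _ => iff_iff_implies_and_implies.symm)
    fun _ => iff_iff_implies_and_implies.symm

theorem TR.all {p : (ι → M) → M → Prop} {q : (ι → S) → S → Prop}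
    (h : TR S (fun w : ι ⊕ Unit → M => p (fun i => w (Sum.inl i)) (w (Sum.inr ())))
      (fun w : ι ⊕ Unit → S => q (fun i => w (Sum.inl i)) (w (Sum.inr ())))) :
    TR S (fun v => ∀ x, p v x) (fun v => ∀ x, q v x) := by
  obtain ⟨φ, h1, h2⟩ := h
  refine ⟨(φ.relabel (Equiv.sumAssoc S ι Unit).symm).iAlls Unit, fun v => ?_, fun v => ?_⟩
  · rw [Formula.realize_iAlls]
    constructor
    · intro h3 x
      have h4 := h3 fun _ => x
      rw [Formula.realize_relabel] at h4
      have h5 := (h1 (Sum.elim v fun _ => x)).1 (by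
        refine Eq.mp (congrArg φ.Realize ?_) h4
        funext i
        rcases i with i | i | i <;> rfl)
      exact h5
    · intro h3 x
      rw [Formula.realize_relabel]
      have h5 := (h1 (Sum.elim v x)).2 (h3 (x ()))
      refine Eq.mp (congrArg φ.Realize ?_) h5
      funext i
      rcases i with i | i | i <;> rfl
  · rw [Formula.realize_iAlls]
    constructor
    · intro h3 x
      have h4 := h3 fun _ => x
      rw [Formula.realize_relabel] at h4
      have h5 := (h2 (Sum.elim v fun _ => x)).1 (by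
        refine Eq.mp (congrArg φ.Realize ?_) h4
        funext i
        rcases i with i | i | i <;> rfl)
      exact h5
    · intro h3 x
      rw [Formula.realize_relabel]
      have h5 := (h2 (Sum.elim v x)).2 (h3 (x ()))
      refine Eq.mp (congrArg φ.Realize ?_) h5
      funext i
      rcases i with i | i | i <;> rfl

theorem TR.ex {p : (ι → M) → M → Prop} {q : (ι → S) → S → Prop}
    (h : TR S (fun w : ι ⊕ Unit → M => p (fun i => w (Sum.inl i)) (w (Sum.inr ())))
      (fun w : ι ⊕ Unit → S => q (fun i => w (Sum.inl i)) (w (Sum.inr ())))) :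
    TR S (fun v => ∃ x, p v x) (fun v => ∃ x, q v x) :=
  (TR.not (TR.all (p := fun v x => ¬ p v x) (q := fun v x => ¬ q v x) h.not)).congr
    (fun v => by rw [not_forall_not]) fun v => by rw [not_forall_not]

theorem TR.mem (i j : ι) : TR S (fun v => Mem (v i) (v j)) (fun v => Mem (v i) (v j)) := by
  refine ⟨Relations.formula₂ (L := L) (Sym.mem : L.Relations 2) (Term.var (Sum.inr i))
    (Term.var (Sum.inr j)), fun v => ?_, fun v => ?_⟩
  · rw [Formula.realize_rel₂]
    rfl
  · rw [Formula.realize_rel₂]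
    rfl

theorem TR.isSet (i : ι) : TR S (fun v => IsSet (v i)) (fun v => IsSet (v i)) := by
  refine ⟨Relations.formula₁ (L := L) (Sym.isSet : L.Relations 1) (Term.var (Sum.inr i)),
    fun v => ?_, fun v => ?_⟩
  · rw [Formula.realize_rel₁]
    rfl
  · rw [Formula.realize_rel₁]
    rfl

theorem TR.eq (i j : ι) : TR S (fun v => v i = v j) (fun v => v i = v j) := by
  refine ⟨(Term.var (Sum.inr i)).equal (Term.var (Sum.inr j)), fun v => ?_, fun v => ?_⟩
  · rw [Formula.realize_equal]
    rfl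
  · rw [Formula.realize_equal]
    rfl

theorem TR.form₁ (φ : L.Formula (S ⊕ Fin 1)) (i : ι) :
    TR S (fun v => φ.Realize (Sum.elim (fun a => (a : M)) fun _ => v i))
      (fun v => φ.Realize (Sum.elim id fun _ => v i)) := by
  refine ⟨φ.relabel (Sum.map id fun _ => i), fun v => ?_, fun v => ?_⟩
  · rw [Formula.realize_relabel]
    refine iff_of_eq (congrArg φ.Realize ?_)
    funext i
    rcases i with i | i <;> rfl
  · rw [Formula.realize_relabel]
    refine iff_of_eq (congrArg φ.Realize ?_)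
    funext i
    rcases i with i | i <;> rfl

theorem TR.form₂ (φ : L.Formula (S ⊕ Fin 2)) (i j : ι) :
    TR S (fun v => φ.Realize (Sum.elim (fun a => (a : M)) ![v i, v j]))
      (fun v => φ.Realize (Sum.elim id ![v i, v j])) := by
  refine ⟨φ.relabel (Sum.map id ![i, j]), fun v => ?_, fun v => ?_⟩
  · rw [Formula.realize_relabel]
    refine iff_of_eq (congrArg φ.Realize ?_)
    funext i
    rcases i with i | i
    · rfl
    · fin_cases i <;> rfl
  · rw [Formula.realize_relabel]
    refine iff_of_eq (congrArg φ.Realize ?_)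
    funext i
    rcases i with i | i
    · rfl
    · fin_cases i <;> rfl

theorem TR.isPair (i j k : ι) : TR S (fun v => IsPair (v i) (v j) (v k))
    (fun v => IsPair (v i) (v j) (v k)) := by
  unfold IsPair
  exact TR.and (TR.isSet _) (TR.all (TR.iff (TR.mem _ _) (TR.or (TR.eq _ _) (TR.eq _ _))))

theorem TR.pairIn (i j k : ι) : TR S (fun v => PairIn (v i) (v j) (v k))
    (fun v => PairIn (v i) (v j) (v k)) := by
  unfold PairIn IsOrdPair
  exact TR.ex (TR.and (TR.ex (TR.ex (TR.and (TR.isPair _ _ _) (TR.and (TR.isPair _ _ _)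
    (TR.isPair _ _ _))))) (TR.mem _ _))

theorem wellOrders_iff {N : Type u} [L.Structure N] {r x : N} : WellOrders r x ↔
    (∀ a, Mem a x → ¬ PairIn r a a) ∧
    (∀ a b c, Mem a x → Mem b x → Mem c x → PairIn r a b → PairIn r b c → PairIn r a c) ∧
    (∀ a b, Mem a x → Mem b x → PairIn r a b ∨ a = b ∨ PairIn r b a) ∧
    (∀ s, (∀ a, Mem a s → Mem a x) → (∃ a, Mem a s) →
      ∃ a, Mem a s ∧ ∀ b, Mem b s → ¬ PairIn r b a) :=
  ⟨fun h => ⟨h.irrefl, h.trans, h.total, h.least⟩, fun h => ⟨h.1, h.2.1, h.2.2.1, h.2.2.2⟩⟩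

theorem TR.wellOrders (i j : ι) : TR S (fun v => WellOrders (v i) (v j))
    (fun v => WellOrders (v i) (v j)) := by
  simp only [wellOrders_iff]
  refine TR.and (TR.all (TR.imp (TR.mem _ _) (TR.not (TR.pairIn _ _ _)))) (TR.and (TR.all (TR.all
    (TR.all (TR.imp (TR.mem _ _) (TR.imp (TR.mem _ _) (TR.imp (TR.mem _ _) (TR.imp
    (TR.pairIn _ _ _) (TR.imp (TR.pairIn _ _ _) (TR.pairIn _ _ _))))))))) (TR.and (TR.all (TR.all
    (TR.imp (TR.mem _ _) (TR.imp (TR.mem _ _) (TR.or (TR.pairIn _ _ _) (TR.or (TR.eq _ _)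
    (TR.pairIn _ _ _))))))) (TR.all (TR.imp (TR.all (TR.imp (TR.mem _ _) (TR.mem _ _)))
    (TR.imp (TR.ex (TR.mem _ _)) (TR.ex (TR.and (TR.mem _ _) (TR.all (TR.imp (TR.mem _ _)
    (TR.not (TR.pairIn _ _ _))))))))))) 

theorem TR.transfer {P Q : Prop} (h : TR S (ι := Empty) (fun _ => P) (fun _ => Q)) (hP : P) :
    Q := (h.elem Empty.elim).1 hP

theorem baseAxioms_substructure (hM : BaseAxioms M) : BaseAxioms S where
  atoms := by
    refine TR.transfer (S := S) ?_ hM.atoms
    exact TR.all (TR.all (TR.imp (TR.mem _ _) (TR.isSet _)))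
  ext := by
    refine TR.transfer (S := S) ?_ hM.ext
    exact TR.all (TR.all (TR.imp (TR.isSet _) (TR.imp (TR.isSet _)
      (TR.imp (TR.all (TR.iff (TR.mem _ _) (TR.mem _ _))) (TR.eq _ _)))))
  foundation := by
    refine TR.transfer (S := S) ?_ hM.foundation
    exact TR.all (TR.imp (TR.ex (TR.mem _ _)) (TR.ex
      (TR.and (TR.mem _ _) (TR.all (TR.imp (TR.mem _ _) (TR.not (TR.mem _ _)))))))
  pairing := by
    refine TR.transfer (S := S) ?_ hM.pairing
    exact TR.all (TR.all (TR.ex (TR.and (TR.isSet _) (TR.all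
      (TR.iff (TR.mem _ _) (TR.or (TR.eq _ _) (TR.eq _ _)))))))
  union := by
    refine TR.transfer (S := S) ?_ hM.union
    exact TR.all (TR.imp (TR.isSet _) (TR.ex (TR.and (TR.isSet _)
      (TR.all (TR.iff (TR.mem _ _) (TR.ex (TR.and (TR.mem _ _) (TR.mem _ _))))))))
  power := by
    refine TR.transfer (S := S) ?_ hM.power
    exact TR.all (TR.imp (TR.isSet _) (TR.ex (TR.and (TR.isSet _)
      (TR.all (TR.iff (TR.mem _ _) (TR.and (TR.isSet _) (TR.all (TR.imp (TR.mem _ _)
        (TR.mem _ _)))))))))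
  infinity := by
    refine TR.transfer (S := S) ?_ hM.infinity
    exact TR.ex (TR.and (TR.ex (TR.and (TR.mem _ _) (TR.and
      (TR.isSet _) (TR.all (TR.not (TR.mem _ _)))))) (TR.all (TR.imp (TR.mem _ _) (TR.ex (TR.and
      (TR.mem _ _) (TR.and (TR.isSet _) (TR.all (TR.iff (TR.mem _ _) (TR.or (TR.mem _ _)
      (TR.eq _ _))))))))))
  choice := by
    refine TR.transfer (S := S) ?_ hM.choice
    exact TR.all (TR.imp (TR.isSet _) (TR.ex (TR.wellOrders _ _)))

/-- Formulas with parameters in `S` define definable sets of the model. -/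
theorem definable_form {n : ℕ} (φ : L.Formula (S ⊕ Fin n)) :
    (Set.univ : Set M).Definable L {v : Fin n → M | φ.Realize (Sum.elim (fun a => (a : M)) v)} := by
  refine Set.definable_iff_exists_formula_sum.2 ⟨φ.relabel (Sum.map (fun i : S =>
    (⟨(i : M), Set.mem_univ _⟩ : (Set.univ : Set M))) id), ?_⟩
  ext v
  simp only [Set.mem_ofPred_eq]
  rw [Formula.realize_relabel]
  refine iff_of_eq (congrArg φ.Realize ?_)
  funext i
  rcases i with i | i <;> rfl

theorem exists_form {n : ℕ} {s : Set (Fin n → S)} (h : (Set.univ : Set S).Definable L s) :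
    ∃ φ : L.Formula (S ⊕ Fin n), ∀ v, v ∈ s ↔ φ.Realize (Sum.elim id v) := by
  obtain ⟨φ, hφ⟩ := Set.definable_iff_exists_formula_sum.1 h
  refine ⟨φ.relabel (Sum.map Subtype.val id), fun v => ?_⟩
  rw [hφ, Formula.realize_relabel]
  refine iff_of_eq (congrArg φ.Realize ?_)
  funext i
  rcases i with i | i <;> rfl

theorem zfcur_substructure (hM : ZFCUR M) : ZFCUR S where
  toBaseAxioms := baseAxioms_substructure hM.toBaseAxioms
  separation T hT := by
    obtain ⟨φ, hφ⟩ := exists_form hT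
    have h1 : ∀ x : M, IsSet x → ∃ y, IsSet y ∧ ∀ z, Mem z y ↔ Mem z x ∧
        φ.Realize (Sum.elim (fun a => (a : M)) fun _ => z) := by
      refine hM.separation {z | φ.Realize (Sum.elim (fun a => (a : M)) fun _ => z)} ?_
      refine Eq.mp (congrArg ((Set.univ : Set M).Definable L) ?_) (definable_form φ)
      ext v
      refine iff_of_eq (congrArg (fun w => φ.Realize (Sum.elim (fun a => (a : M)) w)) ?_)
      funext i
      rw [Subsingleton.elim i 0]
    have h2 : ∀ x : S, IsSet x → ∃ y, IsSet y ∧ ∀ z, Mem z y ↔ Mem z x ∧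
        φ.Realize (Sum.elim id fun _ => z) := by
      refine TR.transfer (S := S) ?_ h1
      exact TR.all (TR.imp (TR.isSet _) (TR.ex (TR.and
        (TR.isSet _) (TR.all (TR.iff (TR.mem _ _) (TR.and (TR.mem _ _) (TR.form₁ φ _)))))))
    intro x hx
    obtain ⟨y, h3, h4⟩ := h2 x hx
    refine ⟨y, h3, fun z => (h4 z).trans (and_congr_right fun _ => ?_)⟩
    exact (hφ fun _ => z).symm
  replacement F hF := by
    obtain ⟨φ, hφ⟩ := exists_form hF
    have h1 : ∀ a : M, IsSet a → (∀ x, Mem x a → ∃ y,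
        φ.Realize (Sum.elim (fun a => (a : M)) ![x, y]) ∧
        ∀ y', φ.Realize (Sum.elim (fun a => (a : M)) ![x, y']) → y' = y) →
        ∃ b, IsSet b ∧ ∀ y, Mem y b ↔ ∃ x, Mem x a ∧
        φ.Realize (Sum.elim (fun a => (a : M)) ![x, y]) := by
      refine hM.replacement {q | φ.Realize (Sum.elim (fun a => (a : M)) ![q.1, q.2])} ?_
      refine Eq.mp (congrArg ((Set.univ : Set M).Definable L) ?_) (definable_form φ)
      ext v
      refine iff_of_eq (congrArg (fun w => φ.Realize (Sum.elim (fun a => (a : M)) w)) ?_)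
      funext i
      fin_cases i <;> rfl
    have h2 : ∀ a : S, IsSet a → (∀ x, Mem x a → ∃ y,
        φ.Realize (Sum.elim id ![x, y]) ∧
        ∀ y', φ.Realize (Sum.elim id ![x, y']) → y' = y) →
        ∃ b, IsSet b ∧ ∀ y, Mem y b ↔ ∃ x, Mem x a ∧
        φ.Realize (Sum.elim id ![x, y]) := by
      refine TR.transfer (S := S) ?_ h1
      exact TR.all (TR.imp (TR.isSet _) (TR.imp (TR.all
        (TR.imp (TR.mem _ _) (TR.ex (TR.and (TR.form₂ φ _ _) (TR.all (TR.imp (TR.form₂ φ _ _)
        (TR.eq _ _))))))) (TR.ex (TR.and (TR.isSet _) (TR.all (TR.iff (TR.mem _ _) (TR.ex (TR.and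
        (TR.mem _ _) (TR.form₂ φ _ _)))))))))
    have h3 : ∀ x y : S, (x, y) ∈ F ↔ φ.Realize (Sum.elim id ![x, y]) := fun x y => hφ ![x, y]
    intro a ha h
    obtain ⟨b, h4, h5⟩ := h2 a ha fun x hx => by
      obtain ⟨y, h6, h7⟩ := h x hx
      exact ⟨y, (h3 x y).1 h6, fun y' h8 => h7 y' ((h3 x y').2 h8)⟩
    refine ⟨b, h4, fun y => (h5 y).trans (exists_congr fun x => and_congr_right fun _ => ?_)⟩
    exact (h3 x y).symm

/-- A countable elementary substructure. -/
theorem exists_countable (M : Type u) [L.Structure M] [Nonempty M] :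
    ∃ S : L.ElementarySubstructure M, Countable S := by
  by_cases h : Countable M
  · exact ⟨⊤, Subtype.countable⟩
  · rw [not_countable_iff] at h
    have hc : Countable (Σ l, L.Functions l) :=
      ⟨⟨fun x => Empty.elim x.2, fun x => Empty.elim x.2⟩⟩
    have hc' : Countable (Σ l, L.Relations l) := ⟨⟨fun x => x.1, by
      rintro ⟨l, r⟩ ⟨l', r'⟩ h
      obtain rfl : l = l' := h
      cases r <;> cases r' <;> rfl⟩⟩
    have hcard : L.card ≤ Cardinal.aleph0 := by
      have : Countable L.Symbols := inferInstanceAs (Countable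
        ((Σ l, L.Functions l) ⊕ (Σ l, L.Relations l)))
      exact Cardinal.mk_le_aleph0
    obtain ⟨S, -, hS⟩ := exists_elementarySubstructure_card_eq L (∅ : Set M)
      (Cardinal.aleph0.{u}) le_rfl (by simp) (by simpa using hcard) (by simp)
    refine ⟨S, ?_⟩
    rw [← Cardinal.mk_le_aleph0_iff]
    simpa using hS.le

end Pool.Agent.H839R3
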