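import Pool.Agent.H839R3.Cls
import Pool.Agent.H839R3.LS

/-!
# The class theory is a conservative extension of the set theory
-/

namespace Pool.Agent.H839R3

open FirstOrder FirstOrder.Language
open Pool.Agent.Helper672.ZFA

universe u

section

variable {M : Type u} [L.Structure M]

theorem BaseAxioms.zermeloAtoms (h : BaseAxioms M)
    (hs : ∀ S : Set M, (Set.univ : Set M).Definable₁ L S →
      ∀ x : M, IsSet x → ∃ y, IsSet y ∧ ∀ z, Mem z y ↔ Mem z x ∧ z ∈ S) : ZermeloAtoms M where
  atoms := h.atoms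
  ext := h.ext
  pairing := h.pairing
  union := h.union
  power := h.power
  infinity := h.infinity
  separation := hs

theorem definable₂_of_D {F : M → M → Prop} (h : D (fun v : Fin 2 → M => F (v 0) (v 1))) :
    (Set.univ : Set M).Definable₂ L {q | F q.1 q.2} := h

theorem ZFCUR.zm (h : ZFCUR M) : ZM M :=
  haveI : ZermeloAtoms M := h.toBaseAxioms.zermeloAtoms h.separation
  haveI hI : IsModel M := ZermeloAtoms.isModel
  { toIsModel := hI
    found := h.foundation
    repl := fun F hF a ha => by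
      by_cases h1 : IsSet a
      · exact h.replacement {q | F q.1 q.2} (definable₂_of_D hF) a h1 ha
      · exact ⟨small_empty.elt, small_empty.isSet, fun y => ⟨fun h2 =>
          absurd (small_empty.mem.1 h2) (Set.notMem_empty y), fun ⟨x, h2, _⟩ =>
          absurd (h.atoms x a h2) h1⟩⟩
    wo := fun x => by
      by_cases h1 : IsSet x
      · exact h.choice x h1
      · have h2 : ∀ y, ¬ Mem y x := fun y hy => h1 (h.atoms y x hy)
        exact ⟨x, fun a ha => absurd ha (h2 a), fun a _ _ ha => absurd ha (h2 a),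
          fun a _ ha => absurd ha (h2 a), fun s hs ⟨a, ha⟩ => absurd (hs a ha) (h2 a)⟩ }

/-- Models of the class theory give models of the set theory. -/
theorem GBUR.zfcur {C : Type u} {η : M → C → Prop} (h : GBUR M C η) : ZFCUR M := by
  letI := classStructure M C η
  have hs : ∀ S : Set M, (Set.univ : Set M).Definable₁ L S →
      ∀ x : M, IsSet x → ∃ y, IsSet y ∧ ∀ z, Mem z y ↔ Mem z x ∧ z ∈ S := by
    intro S hS x hx
    obtain ⟨X, hX⟩ := h.comprehension S (Set.Definable.map_expansion hS
      (LHom.sumInl : L →ᴸ L.sum (ClassLang C)))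
    obtain ⟨y, h1, h2⟩ := h.separation X x hx
    exact ⟨y, h1, fun z => (h2 z).trans (and_congr_right fun _ => hX z)⟩
  haveI : ZermeloAtoms M := h.toBaseAxioms.zermeloAtoms hs
  haveI hI : IsModel M := ZermeloAtoms.isModel
  refine ⟨h.toBaseAxioms, hs, fun F hF a ha h1 => ?_⟩
  have hD : D (fun v : Fin 1 → M => ∃ x y, v 0 = op x y ∧ (x, y) ∈ F) := by
    refine D.ex (D.ex (D.and (D.eqf (DF.var _) (DF.op (DF.var _) (DF.var _))) ?_))
    have h2 : D (fun v : Fin 2 → M => (v 0, v 1) ∈ F) := hF
    exact h2.reindex ![Sum.inl (Sum.inr ()), Sum.inr ()]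
  obtain ⟨X, hX⟩ := h.comprehension {z | ∃ x y, z = op x y ∧ (x, y) ∈ F}
    (Set.Definable.map_expansion hD (LHom.sumInl : L →ᴸ L.sum (ClassLang C)))
  have h2 : ∀ x y, PairInClass η X x y ↔ (x, y) ∈ F := by
    intro x y
    constructor
    · rintro ⟨p, h3, h4⟩
      obtain ⟨x', y', h5, h6⟩ := (hX p).1 h4
      rw [isOrdPair_iff] at h3
      rw [h3] at h5
      obtain ⟨rfl, rfl⟩ := op_inj h5
      exact h6
    · intro h3
      exact ⟨op x y, isOrdPair_iff.2 rfl, (hX _).2 ⟨x, y, rfl, h3⟩⟩
  have h3 := h.replacement X a ha fun x hx => by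
    obtain ⟨y, h4, h5⟩ := h1 x hx
    exact ⟨y, (h2 x y).2 h4, fun y' h6 => h5 y' ((h2 x y').1 h6)⟩
  obtain ⟨b, h4, h5⟩ := h3
  exact ⟨b, h4, fun y => (h5 y).trans (exists_congr fun x => and_congr_right fun _ => h2 x y)⟩

/-- Countable models of the set theory expand to models of the class theory. -/
theorem ZFCUR.exists_classes (h : ZFCUR M) [Countable M] : ∃ (C : Type u) (η : M → C → Prop),
    GBUR M C η ∧ GlobalChoice M C η := by
  haveI := h.zm
  obtain ⟨g, hg⟩ := exists_isGen (M := M)
  exact ⟨_, _, gbur_of_gen hg h.toBaseAxioms, globalChoice_of_gen hg⟩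

end

theorem conservative (σ : L.Sentence) :
    (∀ (M C : Type u) [L.Structure M] (η : M → C → Prop),
      GBUR M C η → GlobalChoice M C η → M ⊨ σ) ↔
    ∀ (M : Type u) [L.Structure M], ZFCUR M → M ⊨ σ := by
  constructor
  · intro h M _ hM
    have : Nonempty M := by
      obtain ⟨i, -⟩ := hM.infinity
      exact ⟨i⟩
    obtain ⟨S, hS⟩ := exists_countable M
    have h1 : ZFCUR S := zfcur_substructure hM
    obtain ⟨C, η, h2, h3⟩ := h1.exists_classes
    exact (S.realize_sentence σ).1 (h S C η h2 h3)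
  · intro h M C _ η h1 _
    exact h M h1.zfcur

end Pool.Agent.H839R3
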