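import Pool.Agent.H839R3.Ind

/-!
# Well-orderings and recursion in a model
-/

namespace Pool.Agent.H839R3

open FirstOrder FirstOrder.Language
open Pool.Agent.Helper672.ZFA

universe u

variable {M : Type u} [L.Structure M]

section

variable [hM : IsModel M]

theorem isPair_iff {p x y : M} : IsPair p x y ↔ p = up x y := eq_up.symm

theorem isOrdPair_iff {p x y : M} : IsOrdPair p x y ↔ p = op x y := by
  constructor
  · rintro ⟨s, d, h1, h2, h3⟩
    rw [isPair_iff] at h1 h2 h3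
    rw [h3, h1, h2]
    rfl
  · rintro rfl
    exact ⟨_, _, isPair_iff.2 rfl, isPair_iff.2 rfl, isPair_iff.2 rfl⟩

theorem pairIn_iff {r x y : M} : PairIn r x y ↔ Mem (op x y) r := by
  constructor
  · rintro ⟨p, h1, h2⟩
    rwa [isOrdPair_iff.1 h1] at h2
  · intro h
    exact ⟨_, isOrdPair_iff.2 rfl, h⟩

theorem D.leF {ι : Type} {f g r : (ι → M) → M} (hf : DF f) (hg : DF g) (hr : DF r) :
    D (fun v => Mem (op (f v) (g v)) (r v)) := D.memf (DF.op hf hg) hr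

end

variable [hM : ZM M]

/-- Well-orderings, with least elements for definable predicates. -/
structure WO (r a : M) : Prop where
  irrefl : ∀ x, Mem x a → ¬ Mem (op x x) r
  trans : ∀ x y z, Mem x a → Mem y a → Mem z a → Mem (op x y) r → Mem (op y z) r →
    Mem (op x z) r
  total : ∀ x y, Mem x a → Mem y a → Mem (op x y) r ∨ x = y ∨ Mem (op y x) r
  least : ∀ S : M → Prop, D (fun v : Fin 1 → M => S (v 0)) → (∃ x, Mem x a ∧ S x) →
    ∃ x, Mem x a ∧ S x ∧ ∀ y, Mem y a → S y → ¬ Mem (op y x) r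

theorem exists_WO (a : M) : ∃ r, WO r a := by
  obtain ⟨r, hr⟩ := hM.wo a
  refine ⟨r, ?_, ?_, ?_, ?_⟩
  · intro x hx h
    exact hr.irrefl x hx (pairIn_iff.2 h)
  · intro x y z hx hy hz h h'
    exact pairIn_iff.1 (hr.trans x y z hx hy hz (pairIn_iff.2 h) (pairIn_iff.2 h'))
  · intro x y hx hy
    have := hr.total x y hx hy
    rwa [pairIn_iff, pairIn_iff] at this
  · rintro S hS ⟨x, hx, hSx⟩
    have h1 := small_sep (S := {x | S x}) hS a
    obtain ⟨y, h2, h3⟩ := hr.least h1.elt (fun z hz => (h1.mem.1 hz).1) ⟨x, h1.mem.2 ⟨hx, hSx⟩⟩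
    refine ⟨y, (h1.mem.1 h2).1, (h1.mem.1 h2).2, fun z hz hSz h4 => ?_⟩
    exact h3 z (h1.mem.2 ⟨hz, hSz⟩) (pairIn_iff.2 h4)

theorem WO.mono {r a b : M} (h : WO r a) (hb : MSub b a) : WO r b where
  irrefl x hx := h.irrefl x (hb x hx)
  trans x y z hx hy hz := h.trans x y z (hb x hx) (hb y hy) (hb z hz)
  total x y hx hy := h.total x y (hb x hx) (hb y hy)
  least S hS := by
    rintro ⟨x, hx, hSx⟩
    obtain ⟨y, -, h2, h3⟩ := h.least (fun x => Mem x b ∧ S x)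
      (D.and (D.memf (DF.var _) (DF.const _)) hS) ⟨x, hb x hx, hx, hSx⟩
    exact ⟨y, h2.1, h2.2, fun z hz hSz => h3 z (hb z hz) ⟨hz, hSz⟩⟩

theorem WO.ind {r a : M} (h : WO r a) (S : M → Prop) (hS : D (fun v : Fin 1 → M => S (v 0)))
    (h1 : ∀ x, Mem x a → (∀ y, Mem y a → Mem (op y x) r → S y) → S x) (x : M) (hx : Mem x a) :
    S x := by
  by_contra hcon
  obtain ⟨y, h2, h3, h4⟩ := h.least (fun x => ¬ S x) (D.not hS) ⟨x, hx, hcon⟩
  refine h3 (h1 y h2 fun z hz hzy => ?_)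
  by_contra h5
  exact h4 z hz h5 hzy

theorem D.existsUnique {ι : Type} {p : (ι → M) → M → Prop}
    (h : D (fun w : ι ⊕ Unit → M => p (fun i => w (Sum.inl i)) (w (Sum.inr ())))) :
    D (fun v => ∃! x, p v x) := by
  unfold ExistsUnique
  refine D.ex (D.and h (D.all (D.imp ?_ (D.eqf (DF.var _) (DF.var _)))))
  have h1 := h.reindex (κ := (ι ⊕ Unit) ⊕ Unit)
    (Sum.elim (fun i => Sum.inl (Sum.inl i)) (fun _ => Sum.inr ()))
  exact h1

section rec

/-- `g` is the set of the previous values. -/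
def Prev (r a f j g : M) : Prop :=
  IsSet g ∧ ∀ z, Mem z g ↔ ∃ i, Mem i a ∧ Mem (op i j) r ∧ Mem (op i z) f

variable {r a : M} (F : M → M → M → Prop)

/-- Partial solutions of the recursion. -/
def Atm (r a f j : M) : Prop := ∀ i, Mem i a → (Mem (op i j) r ∨ i = j) →
  ∃ y g, Prev r a f i g ∧ F i g y ∧ ∀ y', Mem (op i y') f ↔ y' = y

/-- The value at `j`. -/
def Kv (r a j y : M) : Prop := ∃ f, Atm F r a f j ∧ Mem (op j y) f

theorem Prev.congr {r a f f' j g g' : M} (h : Prev r a f j g) (h' : Prev r a f' j g')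
    (h1 : ∀ i, Mem i a → Mem (op i j) r → ∀ z, Mem (op i z) f ↔ Mem (op i z) f') : g = g' := by
  refine hM.ext _ _ h.1 h'.1 fun z => ?_
  rw [h.2, h'.2]
  refine exists_congr fun i => ?_
  constructor
  · rintro ⟨h2, h3, h4⟩
    exact ⟨h2, h3, (h1 i h2 h3 z).1 h4⟩
  · rintro ⟨h2, h3, h4⟩
    exact ⟨h2, h3, (h1 i h2 h3 z).2 h4⟩

theorem Prev.congr' {r a f f' j g : M} (h : Prev r a f j g)
    (h1 : ∀ i, Mem i a → Mem (op i j) r → ∀ z, Mem (op i z) f ↔ Mem (op i z) f') :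
    Prev r a f' j g := by
  refine ⟨h.1, fun z => ?_⟩
  rw [h.2]
  refine exists_congr fun i => ?_
  constructor
  · rintro ⟨h2, h3, h4⟩
    exact ⟨h2, h3, (h1 i h2 h3 z).1 h4⟩
  · rintro ⟨h2, h3, h4⟩
    exact ⟨h2, h3, (h1 i h2 h3 z).2 h4⟩

variable {F}

theorem D.atm (hF : D (fun v : Fin 3 → M => F (v 0) (v 1) (v 2))) {ι : Type}
    {f j : (ι → M) → M} (hf : DF f) (hj : DF j) : D (fun v => Atm F r a (f v) (j v)) := by
  unfold Atm Prev
  refine D.all (D.imp (D.memf (DF.var _) (DF.const _)) (D.imp (D.or (D.memf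
    (DF.op (DF.var _) hj.lift) (DF.const _)) (D.eqf (DF.var _) hj.lift)) (D.ex (D.ex (D.and
    (D.and (D.isSetf (DF.var _)) (D.all (D.iff (D.memf (DF.var _) (DF.var _)) (D.ex
      (D.and (D.memf (DF.var _) (DF.const _)) (D.and (D.memf (DF.op (DF.var _) (DF.var _))
        (DF.const _)) (D.memf (DF.op (DF.var _) (DF.var _)) hf.lift.lift.lift.lift.lift)))))))
    (D.and (D.subst₃ hF (DF.var _) (DF.var _) (DF.var _)) (D.all (D.iff
      (D.memf (DF.op (DF.var _) (DF.var _)) hf.lift.lift.lift.lift)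
      (D.eqf (DF.var _) (DF.var _))))))))))

theorem D.kv (hF : D (fun v : Fin 3 → M => F (v 0) (v 1) (v 2))) {ι : Type}
    {j y : (ι → M) → M} (hj : DF j) (hy : DF y) : D (fun v => Kv F r a (j v) (y v)) := by
  unfold Kv
  exact D.ex (D.and (D.atm hF (DF.var _) hj.lift) (D.memf (DF.op hj.lift hy.lift) (DF.var _)))

theorem Atm.mono (h : WO r a) {f i j : M} (hi : Mem i a) (hj : Mem j a)
    (hij : Mem (op i j) r ∨ i = j) (hf : Atm F r a f j) : Atm F r a f i := by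
  intro k hk hki
  refine hf k hk ?_
  rcases hij with h1 | rfl
  · rcases hki with h2 | rfl
    · exact Or.inl (h.trans k i j hk hi hj h2 h1)
    · exact Or.inl h1
  · exact hki

theorem Atm.agree (h : WO r a) (hF : D (fun v : Fin 3 → M => F (v 0) (v 1) (v 2)))
    (hfun : ∀ j g, Mem j a → ∃! y, F j g y) {f f' j : M} (hj : Mem j a) (hf : Atm F r a f j)
    (hf' : Atm F r a f' j) : ∀ y, Mem (op j y) f ↔ Mem (op j y) f' := by
  have h1 := h.ind (fun i => (Mem (op i j) r ∨ i = j) → ∀ y, (Mem (op i y) f ↔ Mem (op i y) f'))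
    (D.imp (D.or (D.memf (DF.op (DF.var _) (DF.const _)) (DF.const _)) (D.eqf (DF.var _)
      (DF.const _))) (D.all (D.iff (D.memf (DF.op (DF.var _) (DF.var _)) (DF.const _))
      (D.memf (DF.op (DF.var _) (DF.var _)) (DF.const _))))) ?_ j hj (Or.inr rfl)
  · exact h1
  · intro i hi ih hij y
    obtain ⟨y1, g1, h2, h3, h4⟩ := hf i hi hij
    obtain ⟨y2, g2, h5, h6, h7⟩ := hf' i hi hij
    have h8 : g1 = g2 := h2.congr h5 fun k hk hki => ih k hk hki (by
      rcases hij with h9 | rfl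
      · exact Or.inl (h.trans k i j hk hi hj hki h9)
      · exact Or.inl hki)
    subst h8
    have h9 : y1 = y2 := (hfun i g1 hi).unique h3 h6
    subst h9
    rw [h4, h7]

theorem Kv.iff (h : WO r a) (hF : D (fun v : Fin 3 → M => F (v 0) (v 1) (v 2)))
    (hfun : ∀ j g, Mem j a → ∃! y, F j g y) {f i j : M} (hi : Mem i a) (hj : Mem j a)
    (hij : Mem (op i j) r ∨ i = j) (hf : Atm F r a f j) (z : M) :
    Kv F r a i z ↔ Mem (op i z) f := by
  constructor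
  · rintro ⟨f', h1, h2⟩
    exact (h1.agree h hF hfun hi (hf.mono h hi hj hij) z).1 h2
  · intro h1
    exact ⟨f, hf.mono h hi hj hij, h1⟩

theorem Kv.existsUnique (h : WO r a) (hF : D (fun v : Fin 3 → M => F (v 0) (v 1) (v 2)))
    (hfun : ∀ j g, Mem j a → ∃! y, F j g y) {f j : M} (hj : Mem j a)
    (hf : Atm F r a f j) : ∃! z, Kv F r a j z := by
  obtain ⟨y, g, -, -, h1⟩ := hf j hj (Or.inr rfl)
  refine ⟨y, (Kv.iff h hF hfun hj hj (Or.inr rfl) hf y).2 ((h1 y).2 rfl), fun z hz => ?_⟩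
  exact (h1 z).1 ((Kv.iff h hF hfun hj hj (Or.inr rfl) hf z).1 hz)

/-- Replacement for functions given by ordered pairs: the set of pairs `(x, y)`, `x ∈ b`. -/
theorem exists_graph (b : M) {K : M → M → Prop} (hK : D (fun v : Fin 2 → M => K (v 0) (v 1)))
    (h : ∀ x, Mem x b → ∃! y, K x y) :
    ∃ f, IsSet f ∧ (∀ z, Mem z f ↔ ∃ x y, Mem x b ∧ K x y ∧ z = op x y) ∧
      ∀ x y, Mem (op x y) f ↔ Mem x b ∧ K x y := by
  obtain ⟨f, hf0, hf⟩ := hM.repl (fun x z => ∃ y, K x y ∧ z = op x y) (D.ex (D.and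
    (D.subst₂ hK (DF.var _) (DF.var _)) (D.eqf (DF.var _) (DF.op (DF.var _) (DF.var _))))) b
    fun x hx => by
      obtain ⟨y, h1, h2⟩ := h x hx
      refine ⟨op x y, ⟨y, h1, rfl⟩, ?_⟩
      rintro z ⟨y', h3, rfl⟩
      rw [h2 y' h3]
  have h1 : ∀ z, Mem z f ↔ ∃ x y, Mem x b ∧ K x y ∧ z = op x y := by
    intro z
    rw [hf]
    constructor
    · rintro ⟨x, hx, y, h1, h2⟩
      exact ⟨x, y, hx, h1, h2⟩
    · rintro ⟨x, y, hx, h1, h2⟩
      exact ⟨x, hx, y, h1, h2⟩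
  refine ⟨f, hf0, h1, fun x y => ?_⟩
  rw [h1]
  constructor
  · rintro ⟨x', y', h2, h3, h4⟩
    obtain ⟨rfl, rfl⟩ := op_inj h4
    exact ⟨h2, h3⟩
  · rintro ⟨h2, h3⟩
    exact ⟨x, y, h2, h3, rfl⟩

theorem exists_range (b : M) {K : M → M → Prop} (hK : D (fun v : Fin 2 → M => K (v 0) (v 1)))
    (h : ∀ x, Mem x b → ∃! y, K x y) :
    ∃ f, IsSet f ∧ ∀ y, Mem y f ↔ ∃ x, Mem x b ∧ K x y := hM.repl K hK b h

theorem exists_atm (h : WO r a) (hF : D (fun v : Fin 3 → M => F (v 0) (v 1) (v 2)))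
    (hfun : ∀ j g, Mem j a → ∃! y, F j g y) (j : M) (hj : Mem j a) : ∃ f, Atm F r a f j := by
  refine h.ind (fun j => ∃ f, Atm F r a f j) (D.ex (D.atm hF (DF.var _) (DF.var _))) ?_ j hj
  clear j hj
  intro j hj ih
  have hb := small_sep (S := {i | Mem (op i j) r}) (D.memf (DF.op (DF.var _) (DF.const _))
    (DF.const _)) a
  have hu : ∀ i, Mem i hb.elt → ∃! y, Kv F r a i y := by
    intro i hi
    obtain ⟨h1, h2⟩ := hb.mem.1 hi
    obtain ⟨f, hf⟩ := ih i h1 h2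
    exact Kv.existsUnique h hF hfun h1 hf
  obtain ⟨f0, -, hf0, hf1⟩ := exists_graph hb.elt (D.kv (r := r) (a := a) hF (DF.var _)
    (DF.var _)) hu
  obtain ⟨g, hg0, hg⟩ := exists_range hb.elt (D.kv (r := r) (a := a) hF (DF.var _)
    (DF.var _)) hu
  obtain ⟨y, hy, -⟩ := hfun j g hj
  have hf := sm_union f0 (up (op j y) (op j y))
  have e1 : ∀ i, Mem i a → Mem (op i j) r → ∀ z, Mem (op i z) hf.elt ↔ Kv F r a i z := by
    intro i hi hij z
    constructor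
    · intro h1
      rcases hf.mem.1 h1 with h2 | h2
      · exact ((hf1 i z).1 h2).2
      · have h3 : op i z = op j y := by rcases mem_up.1 h2 with h | h <;> exact h
        exact absurd ((op_inj h3).1 ▸ hij) (h.irrefl j hj)
    · intro h1
      exact hf.mem.2 (Or.inl ((hf1 i z).2 ⟨hb.mem.2 ⟨hi, hij⟩, h1⟩))
  have e2 : ∀ z, Mem (op j z) hf.elt ↔ z = y := by
    intro z
    constructor
    · intro h1
      rcases hf.mem.1 h1 with h2 | h2
      · exact absurd (hb.mem.1 ((hf1 j z).1 h2).1).2 (h.irrefl j hj)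
      · have h3 : op j z = op j y := by rcases mem_up.1 h2 with h | h <;> exact h
        exact (op_inj h3).2
    · rintro rfl
      exact hf.mem.2 (Or.inr (mem_up.2 (Or.inl rfl)))
  refine ⟨hf.elt, fun i hi hij => ?_⟩
  rcases hij with hij | rfl
  · obtain ⟨f', hf'⟩ := ih i hi hij
    obtain ⟨y1, g1, h1, h2, h3⟩ := hf' i hi (Or.inr rfl)
    refine ⟨y1, g1, h1.congr' fun k hk hki z => ?_, h2, fun y' => ?_⟩
    · rw [e1 k hk (h.trans k i j hk hi hj hki hij) z,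
        Kv.iff h hF hfun hk hi (Or.inl hki) hf' z]
    · rw [e1 i hi hij, Kv.iff h hF hfun hi hi (Or.inr rfl) hf', h3]
  · refine ⟨y, g, ⟨hg0, fun z => ?_⟩, hy, e2⟩
    rw [hg]
    refine exists_congr fun k => ?_
    constructor
    · rintro ⟨h1, h2⟩
      obtain ⟨h3, h4⟩ := hb.mem.1 h1
      exact ⟨h3, h4, (e1 k h3 h4 z).2 h2⟩
    · rintro ⟨h3, h4, h2⟩
      exact ⟨hb.mem.2 ⟨h3, h4⟩, (e1 k h3 h4 z).1 h2⟩

/-- Recursion along a well-ordering. -/
theorem WO.recursion (h : WO r a) (hF : D (fun v : Fin 3 → M => F (v 0) (v 1) (v 2)))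
    (hfun : ∀ j g, Mem j a → ∃! y, F j g y) :
    ∃ H, IsSet H ∧ (∀ z, Mem z H → ∃ x y, Mem x a ∧ z = op x y) ∧
      ∀ j, Mem j a → ∃ y g, Prev r a H j g ∧ F j g y ∧ ∀ y', Mem (op j y') H ↔ y' = y := by
  obtain ⟨H, hH0, hH1, hH⟩ := exists_graph a (D.kv (r := r) (a := a) hF (DF.var _) (DF.var _))
    fun j hj => by
      obtain ⟨f, hf⟩ := exists_atm h hF hfun j hj
      exact Kv.existsUnique h hF hfun hj hf
  refine ⟨H, hH0, fun z hz => ?_, fun j hj => ?_⟩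
  · obtain ⟨x, y, h1, -, h2⟩ := (hH1 z).1 hz
    exact ⟨x, y, h1, h2⟩
  · obtain ⟨f, hf⟩ := exists_atm h hF hfun j hj
    obtain ⟨y, g, h1, h2, h3⟩ := hf j hj (Or.inr rfl)
    refine ⟨y, g, h1.congr' fun i hi hij z => ?_, h2, fun y' => ?_⟩
    · rw [hH, Kv.iff h hF hfun hi hj (Or.inl hij) hf]
      exact ⟨fun h => ⟨hi, h⟩, fun h => h.2⟩
    · rw [hH, Kv.iff h hF hfun hj hj (Or.inr rfl) hf, h3]
      exact ⟨fun h => h.2, fun h => ⟨hj, h⟩⟩

end rec

end Pool.Agent.H839R3
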