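import Pool.Agent.H839R3.Rec

/-!
# A set of urelements outside of which all sets of urelements have copies everywhere
-/

namespace Pool.Agent.H839R3

open FirstOrder FirstOrder.Language
open Pool.Agent.Helper672.ZFA

universe u

variable {M : Type u} [L.Structure M] [hM : ZM M]

/-- `f` is a bijection from `B` to `C`. -/
def Bij (f B C : M) : Prop :=
  (∀ x y, Mem (op x y) f → Mem x B ∧ Mem y C) ∧ (∀ x, Mem x B → ∃ y, Mem (op x y) f) ∧
  (∀ y, Mem y C → ∃ x, Mem (op x y) f) ∧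
  ∀ x x' y y', Mem (op x y) f → Mem (op x' y') f → (x = x' ↔ y = y')

/-- Same cardinality. -/
def Eqp (B C : M) : Prop := ∃ f, Bij f B C

theorem D.eqp {ι : Type} {f g : (ι → M) → M} (hf : DF f) (hg : DF g) :
    D (fun v => Eqp (f v) (g v)) := by
  unfold Eqp Bij
  refine D.ex (D.and (D.all (D.all (D.imp (D.memf (DF.op (DF.var _) (DF.var _)) (DF.var _))
    (D.and (D.memf (DF.var _) hf.lift.lift.lift) (D.memf (DF.var _) hg.lift.lift.lift)))))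
    (D.and (D.all (D.imp (D.memf (DF.var _) hf.lift.lift) (D.ex (D.memf
      (DF.op (DF.var _) (DF.var _)) (DF.var _)))))
    (D.and (D.all (D.imp (D.memf (DF.var _) hg.lift.lift) (D.ex (D.memf
      (DF.op (DF.var _) (DF.var _)) (DF.var _)))))
    (D.all (D.all (D.all (D.all (D.imp (D.memf (DF.op (DF.var _) (DF.var _)) (DF.var _))
      (D.imp (D.memf (DF.op (DF.var _) (DF.var _)) (DF.var _)) (D.iff (D.eqf (DF.var _)
        (DF.var _)) (D.eqf (DF.var _) (DF.var _))))))))))))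

/-- A set of pairs. -/
theorem exists_rel (A B : M) {K : M → M → Prop} (hK : D (fun v : Fin 2 → M => K (v 0) (v 1)))
    (h : ∀ x y, K x y → Mem x A ∧ Mem y B) :
    ∃ f, IsSet f ∧ ∀ x y, Mem (op x y) f ↔ K x y := by
  have h1 := small_sep (S := {z | ∃ x y, z = op x y ∧ K x y}) (D.ex (D.ex (D.and
    (D.eqf (DF.var _) (DF.op (DF.var _) (DF.var _))) (D.subst₂ hK (DF.var _) (DF.var _)))))
    (small_prod A B).elt
  refine ⟨h1.elt, h1.isSet, fun x y => h1.mem.trans ⟨?_, fun h2 => ⟨?_, x, y, rfl, h2⟩⟩⟩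
  · rintro ⟨-, x', y', h2, h3⟩
    obtain ⟨rfl, rfl⟩ := op_inj h2
    exact h3
  · exact (small_prod A B).mem.2 ⟨x, y, (h x y h2).1, (h x y h2).2, rfl⟩

theorem Eqp.symm {B C : M} (h : Eqp B C) : Eqp C B := by
  obtain ⟨f, h1, h2, h3, h4⟩ := h
  obtain ⟨g, -, hg⟩ := exists_rel C B (K := fun x y => Mem (op y x) f)
    (D.memf (DF.op (DF.var _) (DF.var _)) (DF.const _)) fun x y h => (h1 y x h).symm
  refine ⟨g, fun x y h => (h1 y x ((hg x y).1 h)).symm, fun x hx => ?_, fun y hy => ?_,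
    fun x x' y y' h h' => (h4 y y' x x' ((hg x y).1 h) ((hg x' y').1 h')).symm⟩
  · obtain ⟨y, hy⟩ := h3 x hx
    exact ⟨y, (hg x y).2 hy⟩
  · obtain ⟨x, hx⟩ := h2 y hy
    exact ⟨x, (hg x y).2 hx⟩

theorem Eqp.trans {B C E : M} (h : Eqp B C) (h' : Eqp C E) : Eqp B E := by
  obtain ⟨f, h1, h2, h3, h4⟩ := h
  obtain ⟨f', h1', h2', h3', h4'⟩ := h'
  obtain ⟨g, -, hg⟩ := exists_rel B E (K := fun x z => ∃ y, Mem (op x y) f ∧ Mem (op y z) f')
    (D.ex (D.and (D.memf (DF.op (DF.var _) (DF.var _)) (DF.const _))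
      (D.memf (DF.op (DF.var _) (DF.var _)) (DF.const _)))) fun x z ⟨y, h, h'⟩ =>
        ⟨(h1 x y h).1, (h1' y z h').2⟩
  refine ⟨g, fun x z h => ?_, fun x hx => ?_, fun y hy => ?_, fun x x' z z' h h' => ?_⟩
  · obtain ⟨y, h5, h6⟩ := (hg x z).1 h
    exact ⟨(h1 x y h5).1, (h1' y z h6).2⟩
  · obtain ⟨y, hy⟩ := h2 x hx
    obtain ⟨z, hz⟩ := h2' y (h1 x y hy).2
    exact ⟨z, (hg x z).2 ⟨y, hy, hz⟩⟩
  · obtain ⟨z, hz⟩ := h3' y hy
    obtain ⟨x, hx⟩ := h3 z (h1' z y hz).1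
    exact ⟨x, (hg x y).2 ⟨z, hx, hz⟩⟩
  · obtain ⟨y, h5, h6⟩ := (hg x z).1 h
    obtain ⟨y', h5', h6'⟩ := (hg x' z').1 h'
    exact (h4 x x' y y' h5 h5').trans (h4' y y' z z' h6 h6')

/-- Some set of urelements meets all copies of `B`. -/
def Exh (B : M) : Prop := ∃ d, Ur d ∧ ∀ B', Ur B' → Eqp B B' → ∃ u, Mem u B' ∧ Mem u d

theorem Exh.congr {B C : M} (h : Exh B) (h' : Eqp B C) : Exh C := by
  obtain ⟨d, h1, h2⟩ := h
  exact ⟨d, h1, fun B' h3 h4 => h2 B' h3 (h'.trans h4)⟩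

theorem D.exh {ι : Type} {f : (ι → M) → M} (hf : DF f) : D (fun v => Exh (f v)) := by
  unfold Exh Ur
  refine D.ex (D.and (D.and (D.isSetf (DF.var _)) (D.all (D.imp (D.memf (DF.var _) (DF.var _))
    (D.not (D.isSetf (DF.var _)))))) (D.all (D.imp (D.and (D.isSetf (DF.var _)) (D.all (D.imp
    (D.memf (DF.var _) (DF.var _)) (D.not (D.isSetf (DF.var _)))))) (D.imp
    (D.eqp hf.lift.lift (DF.var _)) (D.ex (D.and (D.memf (DF.var _) (DF.var _))
    (D.memf (DF.var _) (DF.var _))))))))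

/-- An exhaustible set of urelements whose proper initial segments are not exhaustible. -/
theorem exists_min_exh {B : M} (hB : Ur B) (hex : Exh B) : ∃ I r : M, Ur I ∧ WO r I ∧ Exh I ∧
    ∀ j, Mem j I → ∀ I', IsSet I' → (∀ i, Mem i I' ↔ Mem i I ∧ Mem (op i j) r) → ¬ Exh I' := by
  obtain ⟨r, hr⟩ := exists_WO B
  by_cases h : ∃ j, Mem j B ∧ ∃ I, IsSet I ∧ (∀ i, Mem i I ↔ Mem i B ∧ Mem (op i j) r) ∧ Exh I
  · obtain ⟨j0, h1, ⟨I, h2, h3, h4⟩, h5⟩ := hr.least (fun j => ∃ I, IsSet I ∧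
      (∀ i, Mem i I ↔ Mem i B ∧ Mem (op i j) r) ∧ Exh I) (D.ex (D.and (D.isSetf (DF.var _))
      (D.and (D.all (D.iff (D.memf (DF.var _) (DF.var _)) (D.and (D.memf (DF.var _) (DF.const _))
        (D.memf (DF.op (DF.var _) (DF.var _)) (DF.const _))))) (D.exh (DF.var _))))) h
    refine ⟨I, r, ⟨h2, fun u hu => hB.2 u ((h3 u).1 hu).1⟩, hr.mono fun z hz => ((h3 z).1 hz).1,
      h4, fun j hj I' h6 h7 h8 => ?_⟩
    obtain ⟨h9, h10⟩ := (h3 j).1 hj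
    refine h5 j h9 ⟨I', h6, fun i => (h7 i).trans ⟨fun h => ⟨((h3 i).1 h.1).1, h.2⟩,
      fun h => ⟨(h3 i).2 ⟨h.1, hr.trans i j j0 h.1 h9 h1 h.2 h10⟩, h.2⟩⟩, h8⟩ h10
  · exact ⟨B, r, hB, hr, hex, fun j hj I' h6 h7 h8 => h ⟨j, hj, I', h6, h7, h8⟩⟩

/-- There is a set of urelements such that all sets of urelements disjoint from it have copies
disjoint from any given set. -/
theorem exists_stable : ∃ E0 : M, Ur E0 ∧ ∀ C, Ur C → (∀ u, Mem u C → ¬ Mem u E0) →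
    ¬ Exh C := by
  by_cases hex : ∃ B : M, Ur B ∧ Exh B
  swap
  · refine ⟨small_empty.elt, ⟨small_empty.isSet, fun u hu =>
      absurd (small_empty.mem.1 hu) (Set.notMem_empty u)⟩, fun C hC _ h => hex ⟨C, hC, h⟩⟩
  obtain ⟨B, hB, hB'⟩ := hex
  obtain ⟨I, r, hI, hr, ⟨d, hd, hI1⟩, hI2⟩ := exists_min_exh hB hB'
  refine ⟨d, hd, fun C hC hCd hCe => ?_⟩
  obtain ⟨s, hs⟩ := exists_WO C
  have hCC : ¬ Mem C C := fun h => hC.2 C h hC.1
  obtain ⟨H, -, -, hH⟩ := hr.recursion (F := fun _ g y =>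
      (Mem y C ∧ ¬ Mem y g ∧ ∀ y', Mem y' C → ¬ Mem y' g → ¬ Mem (op y' y) s) ∨
      ((∀ y', Mem y' C → Mem y' g) ∧ y = C))
    (D.or (D.and (D.memf (DF.var _) (DF.const _)) (D.and (D.not (D.memf (DF.var _) (DF.var _)))
      (D.all (D.imp (D.memf (DF.var _) (DF.const _)) (D.imp (D.not (D.memf (DF.var _) (DF.var _)))
      (D.not (D.memf (DF.op (DF.var _) (DF.var _)) (DF.const _)))))))) (D.and (D.all (D.imp
      (D.memf (DF.var _) (DF.const _)) (D.memf (DF.var _) (DF.var _))))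
      (D.eqf (DF.var _) (DF.const _)))) (by
    intro j g _
    by_cases h : ∃ y, Mem y C ∧ ¬ Mem y g
    · obtain ⟨y, h1, h2, h3⟩ := hs.least (fun y => ¬ Mem y g)
        (D.not (D.memf (DF.var _) (DF.const _))) h
      refine ⟨y, Or.inl ⟨h1, h2, h3⟩, ?_⟩
      rintro y' (⟨h4, h5, h6⟩ | ⟨h4, -⟩)
      · rcases hs.total y y' h1 h4 with h7 | h7 | h7
        · exact absurd h7 (h6 y h1 h2)
        · exact h7.symm
        · exact absurd h7 (h3 y' h4 h5)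
      · exact absurd (h4 y h1) h2
    · have h1 : ∀ y', Mem y' C → Mem y' g := fun y' h1 => by
        by_contra h2
        exact h ⟨y', h1, h2⟩
      refine ⟨C, Or.inr ⟨h1, rfl⟩, ?_⟩
      rintro y' (⟨h4, h5, -⟩ | ⟨-, h4⟩)
      · exact absurd (h1 y' h4) h5
      · exact h4)
  have v1 : ∀ j, Mem j I → ∃ y, ∀ y', Mem (op j y') H ↔ y' = y := by
    intro j hj
    obtain ⟨y, -, -, -, h⟩ := hH j hj
    exact ⟨y, h⟩
  have v2 : ∀ j, Mem j I → ∀ y, Mem (op j y) H →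
      (Mem y C ∧ ∀ i, Mem i I → Mem (op i j) r → ¬ Mem (op i y) H) ∨
      ((∀ y', Mem y' C → ∃ i, Mem i I ∧ Mem (op i j) r ∧ Mem (op i y') H) ∧ y = C) := by
    intro j hj y hy
    obtain ⟨y0, g, hg, hF, h⟩ := hH j hj
    obtain rfl := (h y).1 hy
    rcases hF with ⟨h1, h2, -⟩ | ⟨h1, h2⟩
    · exact Or.inl ⟨h1, fun i hi hij h3 => h2 ((hg.2 y).2 ⟨i, hi, hij, h3⟩)⟩
    · exact Or.inr ⟨fun y' hy' => (hg.2 y').1 (h1 y' hy'), h2⟩
  have key : ∀ J C1 : M, (∀ j, Mem j J → Mem j I ∧ ¬ Mem (op j C) H) →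
      (∀ y, Mem y C1 ↔ ∃ j, Mem j J ∧ Mem (op j y) H) → Eqp J C1 := by
    intro J C1 h1 h2
    obtain ⟨f, -, hf⟩ := exists_rel J C1 (K := fun x y => Mem x J ∧ Mem (op x y) H)
      (D.and (D.memf (DF.var _) (DF.const _))
        (D.memf (DF.op (DF.var _) (DF.var _)) (DF.const _))) fun x y h => ⟨h.1, (h2 y).2 ⟨x, h⟩⟩
    refine ⟨f, fun x y h => ⟨((hf x y).1 h).1, (h2 y).2 ⟨x, (hf x y).1 h⟩⟩, fun x hx => ?_,
      fun y hy => ?_, fun x x' y y' h h' => ?_⟩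
    · obtain ⟨y, hy⟩ := v1 x (h1 x hx).1
      exact ⟨y, (hf x y).2 ⟨hx, (hy y).2 rfl⟩⟩
    · obtain ⟨x, hx⟩ := (h2 y).1 hy
      exact ⟨x, (hf x y).2 hx⟩
    · obtain ⟨h3, h4⟩ := (hf x y).1 h
      obtain ⟨h3', h4'⟩ := (hf x' y').1 h'
      constructor
      · rintro rfl
        obtain ⟨y0, hy0⟩ := v1 x (h1 x h3).1
        rw [(hy0 y).1 h4, (hy0 y').1 h4']
      · rintro rfl
        have aux : ∀ a b, Mem a J → Mem b J → Mem (op a y) H → Mem (op b y) H →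
            ¬ Mem (op a b) r := by
          intro a b ha hb hay hby hab
          rcases v2 b (h1 b hb).1 y hby with ⟨-, h5⟩ | ⟨-, h5⟩
          · exact h5 a (h1 a ha).1 hab hay
          · exact (h1 b hb).2 (h5 ▸ hby)
        rcases hr.total x x' (h1 x h3).1 (h1 x' h3').1 with h5 | h5 | h5
        · exact absurd h5 (aux x x' h3 h3' h4 h4')
        · exact h5
        · exact absurd h5 (aux x' x h3' h3 h4' h4)
  by_cases hj : ∃ j, Mem j I ∧ Mem (op j C) H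
  · obtain ⟨j, h1, h2, h3⟩ := hr.least (fun j => Mem (op j C) H)
      (D.memf (DF.op (DF.var _) (DF.const _)) (DF.const _)) hj
    have hI' := small_sep (S := {i | Mem (op i j) r}) (D.memf (DF.op (DF.var _) (DF.const _))
      (DF.const _)) I
    refine hI2 j h1 hI'.elt hI'.isSet (fun i => hI'.mem) (hCe.congr (key hI'.elt C ?_ ?_).symm)
    · intro i hi
      obtain ⟨h4, h5⟩ := hI'.mem.1 hi
      exact ⟨h4, fun h6 => h3 i h4 h6 h5⟩
    · intro y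
      constructor
      · intro hy
        rcases v2 j h1 C h2 with ⟨h4, -⟩ | ⟨h4, -⟩
        · exact absurd h4 hCC
        · obtain ⟨i, h5, h6, h7⟩ := h4 y hy
          exact ⟨i, hI'.mem.2 ⟨h5, h6⟩, h7⟩
      · rintro ⟨i, hi, h4⟩
        obtain ⟨h5, h6⟩ := hI'.mem.1 hi
        rcases v2 i h5 y h4 with ⟨h7, -⟩ | ⟨-, h7⟩
        · exact h7
        · exact absurd h6 (h3 i h5 (h7 ▸ h4))
  · have hC1 := small_sep (S := {y | ∃ i, Mem i I ∧ Mem (op i y) H}) (D.ex (D.and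
      (D.memf (DF.var _) (DF.const _)) (D.memf (DF.op (DF.var _) (DF.var _)) (DF.const _)))) C
    have hk : Eqp I hC1.elt := by
      refine key I hC1.elt (fun j h1 => ⟨h1, fun h2 => hj ⟨j, h1, h2⟩⟩) fun y => ?_
      constructor
      · intro hy
        exact (hC1.mem.1 hy).2
      · rintro ⟨i, hi, h4⟩
        rcases v2 i hi y h4 with ⟨h7, -⟩ | ⟨-, h7⟩
        · exact hC1.mem.2 ⟨h7, i, hi, h4⟩
        · exact absurd ⟨i, hi, h7 ▸ h4⟩ hj
    obtain ⟨u, h1, h2⟩ := hI1 hC1.elt ⟨hC1.isSet, fun u hu => hC.2 u (hC1.mem.1 hu).1⟩ hk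
    exact hCd u (hC1.mem.1 h1).1 h2

end Pool.Agent.H839R3
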