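import Pool.Agent.H839R3.Stable

/-!
# Automorphisms of the model from involutions of the urelements
-/

namespace Pool.Agent.H839R3

open FirstOrder FirstOrder.Language
open Pool.Agent.Helper672.ZFA

universe u

variable {M : Type u} [L.Structure M]

/-- Involutive automorphisms. -/
structure Aut (π : M → M) : Prop where
  invol : ∀ x, π (π x) = x
  mem : ∀ x y, Mem (π x) (π y) ↔ Mem x y
  isSet : ∀ x, IsSet (π x) ↔ IsSet x

variable [hM : ZM M]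

section

variable (sg : M → M → Prop)

/-- Bisimulations. -/
def Bis (F : M) : Prop := ∀ x y, Mem (op x y) F → (¬ IsSet x ∧ ¬ IsSet y ∧ sg x y) ∨
  (IsSet x ∧ IsSet y ∧ (∀ x', Mem x' x → ∃ y', Mem y' y ∧ Mem (op x' y') F) ∧
    ∀ y', Mem y' y → ∃ x', Mem x' x ∧ Mem (op x' y') F)

/-- Bisimilarity. -/
def Sim (x y : M) : Prop := ∃ F, Bis sg F ∧ Mem (op x y) F

variable {sg}

theorem D.sim (h : D (fun v : Fin 2 → M => sg (v 0) (v 1))) {ι : Type} {f g : (ι → M) → M}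
    (hf : DF f) (hg : DF g) : D (fun v => Sim sg (f v) (g v)) := by
  unfold Sim Bis
  refine D.ex (D.and (D.all (D.all (D.imp (D.memf (DF.op (DF.var _) (DF.var _)) (DF.var _))
    (D.or (D.and (D.not (D.isSetf (DF.var _))) (D.and (D.not (D.isSetf (DF.var _)))
      (D.subst₂ h (DF.var _) (DF.var _)))) (D.and (D.isSetf (DF.var _)) (D.and
      (D.isSetf (DF.var _)) (D.and (D.all (D.imp (D.memf (DF.var _) (DF.var _)) (D.ex (D.and
      (D.memf (DF.var _) (DF.var _)) (D.memf (DF.op (DF.var _) (DF.var _)) (DF.var _))))))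
      (D.all (D.imp (D.memf (DF.var _) (DF.var _)) (D.ex (D.and
      (D.memf (DF.var _) (DF.var _)) (D.memf (DF.op (DF.var _) (DF.var _))
        (DF.var _)))))))))))))
    (D.memf (DF.op hf.lift hg.lift) (DF.var _)))

theorem sim_iff (h : D (fun v : Fin 2 → M => sg (v 0) (v 1))) {x y : M} : Sim sg x y ↔
    (¬ IsSet x ∧ ¬ IsSet y ∧ sg x y) ∨
    (IsSet x ∧ IsSet y ∧ (∀ x', Mem x' x → ∃ y', Mem y' y ∧ Sim sg x' y') ∧
    ∀ y', Mem y' y → ∃ x', Mem x' x ∧ Sim sg x' y') := by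
  constructor
  · rintro ⟨F, h1, h2⟩
    rcases h1 x y h2 with h3 | ⟨h3, h4, h5, h6⟩
    · exact Or.inl h3
    · refine Or.inr ⟨h3, h4, fun x' hx' => ?_, fun y' hy' => ?_⟩
      · obtain ⟨y', h7, h8⟩ := h5 x' hx'
        exact ⟨y', h7, F, h1, h8⟩
      · obtain ⟨x', h7, h8⟩ := h6 y' hy'
        exact ⟨x', h7, F, h1, h8⟩
  · intro h1
    obtain ⟨t, ht1, ht2⟩ := exists_trans (up x x)
    obtain ⟨t', ht1', ht2'⟩ := exists_trans (up y y)
    have hx : Mem x t := ht1 x (mem_up.2 (Or.inl rfl))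
    have hy : Mem y t' := ht1' y (mem_up.2 (Or.inl rfl))
    obtain ⟨F, -, hF⟩ := exists_rel t t' (K := fun u v => (Mem u t ∧ Mem v t' ∧ Sim sg u v) ∨
      (u = x ∧ v = y)) (D.or (D.and (D.memf (DF.var _) (DF.const _)) (D.and
        (D.memf (DF.var _) (DF.const _)) (D.sim h (DF.var _) (DF.var _)))) (D.and
        (D.eqf (DF.var _) (DF.const _)) (D.eqf (DF.var _) (DF.const _)))) (by
      rintro u v (h | ⟨rfl, rfl⟩)
      · exact ⟨h.1, h.2.1⟩
      · exact ⟨hx, hy⟩)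
    refine ⟨F, fun u v huv => ?_, (hF x y).2 (Or.inr ⟨rfl, rfl⟩)⟩
    have h2 : Mem u t ∧ Mem v t' ∧ ((¬ IsSet u ∧ ¬ IsSet v ∧ sg u v) ∨
      (IsSet u ∧ IsSet v ∧ (∀ x', Mem x' u → ∃ y', Mem y' v ∧ Sim sg x' y') ∧
      ∀ y', Mem y' v → ∃ x', Mem x' u ∧ Sim sg x' y')) := by
      rcases (hF u v).1 huv with ⟨h3, h4, K, h5, h6⟩ | ⟨rfl, rfl⟩
      · refine ⟨h3, h4, ?_⟩
        rcases h5 u v h6 with h7 | ⟨h7, h8, h9, h10⟩
        · exact Or.inl h7
        · refine Or.inr ⟨h7, h8, fun x' hx' => ?_, fun y' hy' => ?_⟩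
          · obtain ⟨y', h7, h8⟩ := h9 x' hx'
            exact ⟨y', h7, K, h5, h8⟩
          · obtain ⟨x', h7, h8⟩ := h10 y' hy'
            exact ⟨x', h7, K, h5, h8⟩
      · exact ⟨hx, hy, h1⟩
    obtain ⟨h3, h4, h5⟩ := h2
    rcases h5 with h5 | ⟨h5, h6, h7, h8⟩
    · exact Or.inl h5
    · refine Or.inr ⟨h5, h6, fun x' hx' => ?_, fun y' hy' => ?_⟩
      · obtain ⟨y', h9, h10⟩ := h7 x' hx'
        exact ⟨y', h9, (hF x' y').2 (Or.inl ⟨ht2 u x' h3 hx', ht2' v y' h4 h9, h10⟩)⟩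
      · obtain ⟨x', h9, h10⟩ := h8 y' hy'
        exact ⟨x', h9, (hF x' y').2 (Or.inl ⟨ht2 u x' h3 h9, ht2' v y' h4 hy', h10⟩)⟩

variable (h : D (fun v : Fin 2 → M => sg (v 0) (v 1)))
  (hu : ∀ x, ¬ IsSet x → ∃ y, ¬ IsSet y ∧ sg x y)
  (hu' : ∀ x y y', ¬ IsSet x → sg x y → sg x y' → y = y')
  (hs : ∀ x y, sg x y → sg y x)

include h hu' in
theorem Sim.unique (x : M) : ∀ y y', Sim sg x y → Sim sg x y' → y = y' := by
  refine mem_ind (S := fun x => ∀ y y', Sim sg x y → Sim sg x y' → y = y') (D.all (D.all (D.imp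
    (D.sim h (DF.var _) (DF.var _)) (D.imp (D.sim h (DF.var _) (DF.var _))
    (D.eqf (DF.var _) (DF.var _)))))) ?_ x
  intro x ih y y' h1 h2
  rcases (sim_iff h).1 h1 with ⟨h3, h4, h5⟩ | ⟨h3, h4, h5, h6⟩
  · rcases (sim_iff h).1 h2 with ⟨-, -, h5'⟩ | ⟨h3', -⟩
    · exact hu' x y y' h3 h5 h5'
    · exact absurd h3' h3
  · rcases (sim_iff h).1 h2 with ⟨h3', -⟩ | ⟨-, h4', h5', h6'⟩
    · exact absurd h3 h3'
    · refine hM.ext _ _ h4 h4' fun z => ⟨fun hz => ?_, fun hz => ?_⟩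
      · obtain ⟨x', h7, h8⟩ := h6 z hz
        obtain ⟨z', h9, h10⟩ := h5' x' h7
        rwa [ih x' h7 z z' h8 h10]
      · obtain ⟨x', h7, h8⟩ := h6' z hz
        obtain ⟨z', h9, h10⟩ := h5 x' h7
        rwa [ih x' h7 z z' h8 h10]

include h hu hu' in
theorem Sim.exists (x : M) : ∃ y, Sim sg x y := by
  refine mem_ind (S := fun x => ∃ y, Sim sg x y) (D.ex (D.sim h (DF.var _) (DF.var _))) ?_ x
  intro x ih
  by_cases hx : IsSet x
  · obtain ⟨y, hy0, hy⟩ := hM.repl (Sim sg) (D.sim h (DF.var _) (DF.var _)) x fun z hz => by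
      obtain ⟨w, hw⟩ := ih z hz
      exact ⟨w, hw, fun w' hw' => Sim.unique h hu' z w' w hw' hw⟩
    refine ⟨y, (sim_iff h).2 (Or.inr ⟨hx, hy0, fun z hz => ?_, fun w hw => (hy w).1 hw⟩)⟩
    obtain ⟨w, hw⟩ := ih z hz
    exact ⟨w, (hy w).2 ⟨z, hz, hw⟩, hw⟩
  · obtain ⟨y, h1, h2⟩ := hu x hx
    exact ⟨y, (sim_iff h).2 (Or.inl ⟨hx, h1, h2⟩)⟩

include h hs in
theorem Sim.symm (x : M) : ∀ y, Sim sg x y → Sim sg y x := by
  refine mem_ind (S := fun x => ∀ y, Sim sg x y → Sim sg y x) (D.all (D.imp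
    (D.sim h (DF.var _) (DF.var _)) (D.sim h (DF.var _) (DF.var _)))) ?_ x
  intro x ih y h1
  refine (sim_iff h).2 ?_
  rcases (sim_iff h).1 h1 with ⟨h3, h4, h5⟩ | ⟨h3, h4, h5, h6⟩
  · exact Or.inl ⟨h4, h3, hs _ _ h5⟩
  · refine Or.inr ⟨h4, h3, fun y' hy' => ?_, fun x' hx' => ?_⟩
    · obtain ⟨x', h7, h8⟩ := h6 y' hy'
      exact ⟨x', h7, ih x' h7 y' h8⟩
    · obtain ⟨y', h7, h8⟩ := h5 x' hx'
      exact ⟨y', h7, ih x' hx' y' h8⟩

include h in
theorem Sim.fix {E : M} (hE : Ur E) (hf : ∀ u, Mem u E → sg u u) (x : M) : Over E x →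
    Sim sg x x := by
  refine mem_ind (S := fun x => Over E x → Sim sg x x) (D.imp (D.over (DF.const _) (DF.var _))
    (D.sim h (DF.var _) (DF.var _))) ?_ x
  intro x ih hx
  refine (sim_iff h).2 ?_
  by_cases h1 : IsSet x
  · exact Or.inr ⟨h1, h1, fun x' hx' => ⟨x', hx', ih x' hx' (hx.mem hE hx')⟩,
      fun x' hx' => ⟨x', hx', ih x' hx' (hx.mem hE hx')⟩⟩
  · rcases hx with ⟨-, h2⟩ | ⟨h2, -⟩
    · exact Or.inl ⟨h1, h1, hf x h2⟩
    · exact absurd h2 h1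

include h in
theorem Sim.move {E E' : M} (hE : Ur E) (hE' : Ur E')
    (hf : ∀ u v, Mem u E → sg u v → Mem v E') (x : M) :
    Over E x → ∀ y, Sim sg x y → Over E' y := by
  refine mem_ind (S := fun x => Over E x → ∀ y, Sim sg x y → Over E' y) (D.imp
    (D.over (DF.const _) (DF.var _)) (D.all (D.imp (D.sim h (DF.var _) (DF.var _))
    (D.over (DF.const _) (DF.var _))))) ?_ x
  intro x ih hx y h1
  rcases (sim_iff h).1 h1 with ⟨h3, h4, h5⟩ | ⟨h3, h4, h5, h6⟩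
  · rcases hx with ⟨-, h2⟩ | ⟨h2, -⟩
    · exact Or.inl ⟨h4, hf x y h2 h5⟩
    · exact absurd h2 h3
  · refine over_of hE' h4 fun z hz => ?_
    obtain ⟨x', h7, h8⟩ := h6 z hz
    exact ih x' h7 (hx.mem hE h7) z h8

include h hu hu' hs in
theorem exists_aut : ∃ π : M → M, Aut π ∧ ∀ x, Sim sg x (π x) := by
  choose π hπ using Sim.exists h hu hu'
  have hinv : ∀ x, π (π x) = x := fun x =>
    Sim.unique h hu' (π x) _ _ (hπ (π x)) (Sim.symm h hs x _ (hπ x))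
  have hmem : ∀ x y, Mem x y → Mem (π x) (π y) := by
    intro x y hxy
    rcases (sim_iff h).1 (hπ y) with ⟨h3, -⟩ | ⟨-, h4, h5, -⟩
    · exact absurd (hM.atoms x y hxy) h3
    · obtain ⟨z, h6, h7⟩ := h5 x hxy
      rwa [Sim.unique h hu' x _ _ (hπ x) h7]
  refine ⟨π, ⟨hinv, fun x y => ⟨fun h1 => ?_, hmem x y⟩, fun x => ?_⟩, hπ⟩
  · have := hmem _ _ h1
    rwa [hinv, hinv] at this
  · rcases (sim_iff h).1 (hπ x) with ⟨h3, h4, -⟩ | ⟨h3, h4, -⟩
    · exact ⟨fun h => absurd h h4, fun h => absurd h h3⟩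
    · exact ⟨fun _ => h3, fun _ => h4⟩

end

/-- `E` is such that all sets of urelements disjoint from it can be moved away from any set of
urelements. -/
def Stable (E : M) : Prop := Ur E ∧ ∀ C, Ur C → (∀ u, Mem u C → ¬ Mem u E) → ¬ Exh C

theorem ur_union {E E' : M} (hE : Ur E) (hE' : Ur E') : Ur (sm_union E E').elt :=
  ⟨(sm_union E E').isSet, fun u hu => ((sm_union E E').mem.1 hu).elim (hE.2 u) (hE'.2 u)⟩

theorem Stable.mono {E E' : M} (hE : Stable E) (hE' : Ur E') (h : MSub E E') : Stable E' :=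
  ⟨hE', fun C hC h1 => hE.2 C hC fun u hu h2 => h1 u hu (h u h2)⟩

theorem exists_stable_over {E : M} (hE : Ur E) : ∃ E', Stable E' ∧ MSub E E' := by
  obtain ⟨E0, h1, h2⟩ := exists_stable (M := M)
  exact ⟨(sm_union E0 E).elt, Stable.mono ⟨h1, h2⟩ (ur_union h1 hE) fun z hz =>
    (sm_union E0 E).mem.2 (Or.inl hz), fun z hz => (sm_union E0 E).mem.2 (Or.inr hz)⟩

/-- Moving the urelements of `Q` outside `E` away from `R`. -/
theorem Stable.swap {E Q R : M} (hE : Stable E) (hQ : Ur Q) (hR : Ur R) :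
    ∃ π : M → M, Aut π ∧ (∀ x, Over E x → π x = x) ∧
      ∀ x, Over Q x → Over R (π x) → Over E x := by
  obtain ⟨hE0, hE1⟩ := hE
  have hC := small_sep (S := {u | ¬ Mem u E}) (D.not (D.memf (DF.var _) (DF.const _))) Q
  set C := hC.elt with hCdef
  have hCu : Ur C := ⟨hC.isSet, fun u hu => hQ.2 u (hC.mem.1 hu).1⟩
  have h1 : ¬ Exh C := hE1 C hCu fun u hu => (hC.mem.1 hu).2
  have h2 : ∀ d, Ur d → ∃ B', Ur B' ∧ Eqp C B' ∧ ∀ u, Mem u B' → ¬ Mem u d := by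
    intro d hd
    by_contra hcon
    refine h1 ⟨d, hd, fun B' h3 h4 => ?_⟩
    by_contra h5
    exact hcon ⟨B', h3, h4, fun u h6 h7 => h5 ⟨u, h6, h7⟩⟩
  obtain ⟨C', hC', ⟨f, f1, f2, f3, f4⟩, h3⟩ := h2 _ (ur_union (ur_union hQ hE0) hR)
  have hQ' : ∀ u, Mem u C' → ¬ Mem u Q := fun u hu h => h3 u hu
    ((sm_union _ _).mem.2 (Or.inl ((sm_union _ _).mem.2 (Or.inl h))))
  have hE' : ∀ u, Mem u C' → ¬ Mem u E := fun u hu h => h3 u hu
    ((sm_union _ _).mem.2 (Or.inl ((sm_union _ _).mem.2 (Or.inr h))))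
  have hR' : ∀ u, Mem u C' → ¬ Mem u R := fun u hu h => h3 u hu
    ((sm_union _ _).mem.2 (Or.inr h))
  have hCC' : ∀ u, Mem u C → ¬ Mem u C' := fun u h h' => hQ' u h' (hC.mem.1 h).1
  obtain ⟨π, hπ, hsim⟩ := exists_aut (M := M) (sg := fun u v => Mem (op u v) f ∨
      Mem (op v u) f ∨ (u = v ∧ ¬ Mem u C ∧ ¬ Mem u C'))
    (D.or (D.memf (DF.op (DF.var _) (DF.var _)) (DF.const _)) (D.or
      (D.memf (DF.op (DF.var _) (DF.var _)) (DF.const _)) (D.and (D.eqf (DF.var _) (DF.var _))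
      (D.and (D.not (D.memf (DF.var _) (DF.const _))) (D.not (D.memf (DF.var _) (DF.const _)))))))
    (fun x hx => by
      by_cases h4 : Mem x C
      · obtain ⟨y, hy⟩ := f2 x h4
        exact ⟨y, hC'.2 y (f1 x y hy).2, Or.inl hy⟩
      · by_cases h5 : Mem x C'
        · obtain ⟨y, hy⟩ := f3 x h5
          exact ⟨y, hCu.2 y (f1 y x hy).1, Or.inr (Or.inl hy)⟩
        · exact ⟨x, hx, Or.inr (Or.inr ⟨rfl, h4, h5⟩)⟩)
    (fun x y y' _ => by
      rintro (h4 | h4 | ⟨h4, h5, h6⟩) (h4' | h4' | ⟨h4', h5', h6'⟩)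
      · exact (f4 x x y y' h4 h4').1 rfl
      · exact absurd (f1 y' x h4').2 (hCC' x (f1 x y h4).1)
      · exact absurd (f1 x y h4).1 h5'
      · exact absurd (f1 y x h4).2 (hCC' x (f1 x y' h4').1)
      · exact (f4 y y' x x h4 h4').2 rfl
      · exact absurd (f1 y x h4).2 h6'
      · exact absurd (f1 x y' h4').1 h5
      · exact absurd (f1 y' x h4').2 h6
      · exact h4.symm.trans h4')
    (fun x y => by
      rintro (h4 | h4 | ⟨rfl, h5, h6⟩)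
      · exact Or.inr (Or.inl h4)
      · exact Or.inl h4
      · exact Or.inr (Or.inr ⟨rfl, h5, h6⟩))
  have hD : D (fun v : Fin 2 → M => Mem (op (v 0) (v 1)) f ∨
      Mem (op (v 1) (v 0)) f ∨ (v 0 = v 1 ∧ ¬ Mem (v 0) C ∧ ¬ Mem (v 0) C')) :=
    D.or (D.memf (DF.op (DF.var _) (DF.var _)) (DF.const _)) (D.or
      (D.memf (DF.op (DF.var _) (DF.var _)) (DF.const _)) (D.and (D.eqf (DF.var _) (DF.var _))
      (D.and (D.not (D.memf (DF.var _) (DF.const _))) (D.not (D.memf (DF.var _) (DF.const _))))))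
  have huniq : ∀ x y y', ¬ IsSet x → (Mem (op x y) f ∨
      Mem (op y x) f ∨ (x = y ∧ ¬ Mem x C ∧ ¬ Mem x C')) → (Mem (op x y') f ∨
      Mem (op y' x) f ∨ (x = y' ∧ ¬ Mem x C ∧ ¬ Mem x C')) → y = y' := by
    intro x y y' _
    rintro (h4 | h4 | ⟨h4, h5, h6⟩) (h4' | h4' | ⟨h4', h5', h6'⟩)
    · exact (f4 x x y y' h4 h4').1 rfl
    · exact absurd (f1 y' x h4').2 (hCC' x (f1 x y h4).1)
    · exact absurd (f1 x y h4).1 h5'
    · exact absurd (f1 y x h4).2 (hCC' x (f1 x y' h4').1)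
    · exact (f4 y y' x x h4 h4').2 rfl
    · exact absurd (f1 y x h4).2 h6'
    · exact absurd (f1 x y' h4').1 h5
    · exact absurd (f1 y' x h4').2 h6
    · exact h4.symm.trans h4'
  have hfix : ∀ x, Over E x → π x = x := fun x hx => Sim.unique hD huniq x _ _ (hsim x)
    (Sim.fix hD hE0 (fun u hu => Or.inr (Or.inr ⟨rfl, fun h => (hC.mem.1 h).2 hu,
      fun h => hE' u h hu⟩)) x hx)
  refine ⟨π, hπ, hfix, fun x hx hx' => ?_⟩
  have h5 : Over (sm_union E C').elt (π x) := by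
    refine Sim.move hD hQ (ur_union hE0 hC') ?_ x hx (π x) (hsim x)
    rintro u v hu (h4 | h4 | ⟨rfl, h5, h6⟩)
    · exact (sm_union _ _).mem.2 (Or.inr (f1 u v h4).2)
    · exact absurd hu (hQ' u (f1 v u h4).2)
    · refine (sm_union _ _).mem.2 (Or.inl ?_)
      by_contra h7
      exact h5 (hC.mem.2 ⟨hu, h7⟩)
  have h6 : Over E (π x) := by
    refine Over.inter (ur_union hE0 hC') hR hE0 (fun u h7 h8 => ?_) _ h5 hx'
    rcases (sm_union _ _).mem.1 h7 with h9 | h9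
    · exact h9
    · exact absurd h8 (hR' u h9)
  have h7 := hfix _ h6
  rw [hπ.invol] at h7
  rwa [← h7] at h6

end Pool.Agent.H839R3
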